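import Mathlib

set_option autoImplicit false
open Real Set MeasureTheory Filter Topology

namespace Pool.Agent.H790

/-- the radial lens profile (as a function of the squared radius) -/
noncomputable def al (r : ℝ) : ℝ :=
  (9/10) * (Real.smoothTransition ((r - 1/10000) * 17778) * Real.smoothTransition ((1/100 - r) * 328))

lemma al_contDiff : ContDiff ℝ ((⊤ : ℕ∞) : WithTop ℕ∞) al := by
  unfold al
  apply ContDiff.mul contDiff_const
  apply ContDiff.mul
  · exact Real.smoothTransition.contDiff.comp (by fun_prop)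
  · exact Real.smoothTransition.contDiff.comp (by fun_prop)

lemma al_cont : Continuous al := al_contDiff.continuous

lemma al_nonneg (r : ℝ) : 0 ≤ al r := by
  unfold al
  have h1 := Real.smoothTransition.nonneg ((r - 1/10000) * 17778)
  have h2 := Real.smoothTransition.nonneg ((1/100 - r) * 328)
  positivity

lemma al_le (r : ℝ) : al r ≤ 9/10 := by
  unfold al
  have h1 := Real.smoothTransition.nonneg ((r - 1/10000) * 17778)
  have h2 := Real.smoothTransition.nonneg ((1/100 - r) * 328)
  have h3 := Real.smoothTransition.le_one ((r - 1/10000) * 17778)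
  have h4 := Real.smoothTransition.le_one ((1/100 - r) * 328)
  nlinarith [mul_le_mul h3 h4 h2 zero_le_one]

lemma al_left {r : ℝ} (h : r ≤ 1/10000) : al r = 0 := by
  unfold al
  rw [Real.smoothTransition.zero_of_nonpos (x := (r - 1/10000) * 17778) (by nlinarith)]
  ring

lemma al_right {r : ℝ} (h : 1/100 ≤ r) : al r = 0 := by
  unfold al
  rw [Real.smoothTransition.zero_of_nonpos (x := (1/100 - r) * 328) (by nlinarith)]
  ring

lemma al_mid {r : ℝ} (h1 : 1/6400 ≤ r) (h2 : r ≤ 1/144) : al r = 9/10 := by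
  unfold al
  rw [Real.smoothTransition.one_of_one_le (x := (r - 1/10000) * 17778) (by linarith),
    Real.smoothTransition.one_of_one_le (x := (1/100 - r) * 328) (by linarith)]
  ring

/-- `al r / r` -/
noncomputable def gg (r : ℝ) : ℝ := al r / r

lemma gg_contDiff : ContDiff ℝ ((⊤ : ℕ∞) : WithTop ℕ∞) gg := by
  rw [contDiff_iff_contDiffAt]
  intro x
  by_cases hx : x = 0
  · subst hx
    have : gg =ᶠ[𝓝 0] fun _ => (0:ℝ) := by
      filter_upwards [Iio_mem_nhds (show (0:ℝ) < 1/10000 by norm_num)] with y hy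
      unfold gg
      rw [al_left (le_of_lt hy)]; simp
    exact (contDiffAt_const (c := (0:ℝ))).congr_of_eventuallyEq this
  · exact ContDiffAt.div al_contDiff.contDiffAt contDiffAt_id hx

lemma gg_cont : Continuous gg := gg_contDiff.continuous

lemma gg_nonneg {r : ℝ} (hr : 0 ≤ r) : 0 ≤ gg r := div_nonneg (al_nonneg r) hr

lemma gg_mul (r : ℝ) : gg r * r = al r := by
  unfold gg
  by_cases hr : r = 0
  · subst hr; rw [al_left (by norm_num)]; simp
  · field_simp

lemma gg_left {r : ℝ} (h : r ≤ 1/10000) : gg r = 0 := by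
  unfold gg; rw [al_left h]; simp

lemma gg_right {r : ℝ} (h : 1/100 ≤ r) : gg r = 0 := by
  unfold gg; rw [al_right h]; simp

/-- the lens coefficient -/
noncomputable def MM (r : ℝ) : ℝ := gg r * (2 - al r)

lemma MM_contDiff : ContDiff ℝ ((⊤ : ℕ∞) : WithTop ℕ∞) MM :=
  gg_contDiff.mul (contDiff_const.sub al_contDiff)

lemma MM_cont : Continuous MM := MM_contDiff.continuous

lemma MM_mul (r : ℝ) : MM r * r = 1 - (1 - al r)^2 := by
  unfold MM
  have := gg_mul r
  linear_combination (2 - al r) * this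

lemma MM_nonneg {r : ℝ} (hr : 0 ≤ r) : 0 ≤ MM r :=
  mul_nonneg (gg_nonneg hr) (by have := al_le r; linarith)

lemma MM_right {r : ℝ} (h : 1/100 ≤ r) : MM r = 0 := by
  unfold MM; rw [gg_right h]; simp

lemma MM_left {r : ℝ} (h : r ≤ 1/10000) : MM r = 0 := by
  unfold MM; rw [gg_left h]; simp

/-- the turning angle -/
noncomputable def psi (b t : ℝ) : ℝ := ∫ τ in (0:ℝ)..t, b * gg (b^2 + τ^2)

lemma psi_integrand_cont (b : ℝ) : Continuous fun τ : ℝ => b * gg (b^2 + τ^2) := by
  have := gg_cont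
  fun_prop

lemma psi_hasDerivAt (b t : ℝ) : HasDerivAt (psi b) (b * gg (b^2 + t^2)) t := by
  unfold psi
  exact intervalIntegral.integral_hasDerivAt_right ((psi_integrand_cont b).intervalIntegrable _ _)
    ((psi_integrand_cont b).stronglyMeasurableAtFilter _ _) (psi_integrand_cont b).continuousAt

lemma psi_cont (b : ℝ) : Continuous (psi b) :=
  continuous_iff_continuousAt.2 fun t => (psi_hasDerivAt b t).continuousAt

lemma psi_zero_right (b : ℝ) : psi b 0 = 0 := by simp [psi]

lemma psi_neg_right (b t : ℝ) : psi b (-t) = - psi b t := by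
  unfold psi
  have := intervalIntegral.integral_comp_neg (a := 0) (b := t) (fun τ : ℝ => b * gg (b^2 + τ^2))
  simp only [neg_zero, even_two, Even.neg_pow] at this
  rw [intervalIntegral.integral_symm, ← this]

lemma psi_neg_left (b t : ℝ) : psi (-b) t = - psi b t := by
  unfold psi
  rw [← intervalIntegral.integral_neg]
  congr 1; ext τ; ring_nf

lemma psi_core {b t : ℝ} (h : b^2 + t^2 ≤ 1/10000) : psi b t = 0 := by
  unfold psi
  have : ∫ τ in (0:ℝ)..t, b * gg (b^2 + τ^2) = ∫ τ in (0:ℝ)..t, (0:ℝ) := by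
    apply intervalIntegral.integral_congr
    intro τ hτ
    simp only
    rw [gg_left, mul_zero]
    have : τ^2 ≤ t^2 := by
      rcases le_total 0 t with h0 | h0
      · rw [uIcc_of_le h0] at hτ; nlinarith [hτ.1, hτ.2]
      · rw [uIcc_of_ge h0] at hτ; nlinarith [hτ.1, hτ.2]
    linarith
  rw [this]; simp

lemma psi_far {b t : ℝ} (h : 1/10 ≤ t) : psi b t = psi b (1/10) := by
  unfold psi
  rw [← intervalIntegral.integral_add_adjacent_intervals
    ((psi_integrand_cont b).intervalIntegrable 0 (1/10)) ((psi_integrand_cont b).intervalIntegrable (1/10) t)]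
  have : ∫ τ in (1/10:ℝ)..t, b * gg (b^2 + τ^2) = ∫ τ in (1/10:ℝ)..t, (0:ℝ) := by
    apply intervalIntegral.integral_congr
    intro τ hτ
    simp only
    rw [uIcc_of_le h] at hτ
    rw [gg_right, mul_zero]
    nlinarith [hτ.1, sq_nonneg b]
  rw [this]; simp

/-- total deflection -/
noncomputable def Th (b : ℝ) : ℝ := 2 * psi b (1/10)

lemma Th_neg (b : ℝ) : Th (-b) = - Th b := by
  unfold Th; rw [psi_neg_left]; ring

/-- key elementary inequality -/
lemma quot_ineq {r b c : ℝ} (hb : b^2 < r) (hc : c^2 < r) (hbc : b ≤ c) :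
    (c - b) / Real.sqrt r ≤ c / Real.sqrt (r - c^2) - b / Real.sqrt (r - b^2) := by
  have hr : 0 < r := lt_of_le_of_lt (sq_nonneg b) hb
  have h1 : 0 < Real.sqrt (r - c^2) := Real.sqrt_pos.2 (by linarith)
  have h2 : 0 < Real.sqrt (r - b^2) := Real.sqrt_pos.2 (by linarith)
  have h3 : 0 < Real.sqrt r := Real.sqrt_pos.2 hr
  have h4 : Real.sqrt (r - c^2) ≤ Real.sqrt r := Real.sqrt_le_sqrt (by nlinarith [sq_nonneg c])
  have h5 : Real.sqrt (r - b^2) ≤ Real.sqrt r := Real.sqrt_le_sqrt (by nlinarith [sq_nonneg b])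
  rcases le_total 0 b with hb0 | hb0
  · -- 0 ≤ b ≤ c
    have h6 : Real.sqrt (r - c^2) ≤ Real.sqrt (r - b^2) := Real.sqrt_le_sqrt (by nlinarith)
    have hc0 : 0 ≤ c := hb0.trans hbc
    calc (c - b) / Real.sqrt r ≤ (c - b) / Real.sqrt (r - b^2) :=
          div_le_div_of_nonneg_left (by linarith) h2 h5
      _ = c / Real.sqrt (r - b^2) - b / Real.sqrt (r - b^2) := by ring
      _ ≤ c / Real.sqrt (r - c^2) - b / Real.sqrt (r - b^2) := by
          have := div_le_div_of_nonneg_left hc0 h1 h6
          linarith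
  · rcases le_total 0 c with hc0 | hc0
    · have e1 : c / Real.sqrt r ≤ c / Real.sqrt (r - c^2) := div_le_div_of_nonneg_left hc0 h1 h4
      have e2 : (-b) / Real.sqrt r ≤ (-b) / Real.sqrt (r - b^2) :=
        div_le_div_of_nonneg_left (by linarith) h2 h5
      have : (c - b) / Real.sqrt r = c / Real.sqrt r + (-b) / Real.sqrt r := by ring
      rw [this]
      have e3 : (-b) / Real.sqrt (r - b^2) = - (b / Real.sqrt (r - b^2)) := by ring
      linarith
    · have h6 : Real.sqrt (r - b^2) ≤ Real.sqrt (r - c^2) := Real.sqrt_le_sqrt (by nlinarith)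
      calc (c - b) / Real.sqrt r ≤ (c - b) / Real.sqrt (r - c^2) :=
            div_le_div_of_nonneg_left (by linarith) h1 h4
        _ = c / Real.sqrt (r - c^2) + (-b) / Real.sqrt (r - c^2) := by ring
        _ ≤ c / Real.sqrt (r - c^2) + (-b) / Real.sqrt (r - b^2) := by
            have := div_le_div_of_nonneg_left (show 0 ≤ -b by linarith) h2 h6
            linarith
        _ = _ := by ring

/-- `psi` as function of the squared radius -/
noncomputable def pk (b r : ℝ) : ℝ := psi b (Real.sqrt (r - b^2))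

lemma pk_hasDerivAt {b r : ℝ} (h : b^2 < r) :
    HasDerivAt (pk b) (gg r / 2 * (b / Real.sqrt (r - b^2))) r := by
  have h1 : HasDerivAt (fun r : ℝ => Real.sqrt (r - b^2)) (1 / (2 * Real.sqrt (r - b^2))) r := by
    have := (hasDerivAt_id r).sub_const (b^2)
    have h2 := this.sqrt (by simp; linarith)
    simpa using h2
  have h2 := (psi_hasDerivAt b (Real.sqrt (r - b^2))).comp r h1
  have e : b ^ 2 + Real.sqrt (r - b^2) ^ 2 = r := by
    rw [Real.sq_sqrt (by linarith)]; ring
  rw [e] at h2
  have h3 : 0 < Real.sqrt (r - b^2) := Real.sqrt_pos.2 (by linarith)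
  exact h2.congr_deriv (by ring)

lemma pk_cont (b : ℝ) : Continuous (pk b) := by
  unfold pk
  have := psi_cont b
  fun_prop

lemma pk_core {b r : ℝ} (hb : b^2 ≤ r) (h : r ≤ 1/10000) : pk b r = 0 := by
  unfold pk
  apply psi_core
  rw [Real.sq_sqrt (by linarith)]; linarith

lemma pk_far {b r : ℝ} (hb : b^2 ≤ 1/10000) (h : 1/50 ≤ r) : pk b r = psi b (1/10) := by
  unfold pk
  apply psi_far
  apply Real.le_sqrt_of_sq_le
  norm_num; linarith

/-- strong monotonicity of the deflection -/
lemma Th_mono {b c : ℝ} (hb : b^2 < 1/10000) (hc : c^2 < 1/10000) (hbc : b ≤ c) :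
    122 * (c - b) ≤ Th c - Th b := by
  have hd : ∀ r : ℝ, 1/10000 ≤ r → HasDerivAt (fun r => pk c r - pk b r)
      (gg r / 2 * (c / Real.sqrt (r - c^2)) - gg r / 2 * (b / Real.sqrt (r - b^2))) r := by
    intro r hr
    exact (pk_hasDerivAt (by linarith)).sub (pk_hasDerivAt (by linarith))
  have hnn : ∀ r : ℝ, 1/10000 ≤ r →
      gg r / 2 * ((c - b) / Real.sqrt r) ≤ gg r / 2 * (c / Real.sqrt (r - c^2)) - gg r / 2 * (b / Real.sqrt (r - b^2)) := by
    intro r hr
    have := quot_ineq (r := r) (b := b) (c := c) (by linarith) (by linarith) hbc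
    have h2 := gg_nonneg (r := r) (by linarith)
    nlinarith
  have hnn0 : ∀ r : ℝ, 1/10000 ≤ r →
      0 ≤ gg r / 2 * (c / Real.sqrt (r - c^2)) - gg r / 2 * (b / Real.sqrt (r - b^2)) := by
    intro r hr
    refine le_trans ?_ (hnn r hr)
    have h2 := gg_nonneg (r := r) (by linarith)
    have h3 : 0 ≤ (c - b) / Real.sqrt r := div_nonneg (by linarith) (Real.sqrt_nonneg _)
    positivity
  have hcont : Continuous fun r => pk c r - pk b r := (pk_cont c).sub (pk_cont b)
  -- monotone on [1/10000, ∞)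
  have hmono : MonotoneOn (fun r => pk c r - pk b r) (Ici (1/10000)) := by
    apply monotoneOn_of_deriv_nonneg (convex_Ici _) hcont.continuousOn
    · intro x hx
      rw [interior_Ici] at hx
      exact (hd x (le_of_lt hx)).differentiableAt.differentiableWithinAt
    · intro x hx
      rw [interior_Ici] at hx
      rw [(hd x (le_of_lt hx)).deriv]
      exact hnn0 x (le_of_lt hx)
  -- strong growth in the middle
  have hmono2 : MonotoneOn (fun r => (pk c r - pk b r) - (-(9/10) * (c - b) * (Real.sqrt r)⁻¹)) (Icc (1/6400) (1/144)) := by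
    have hsq : ∀ x : ℝ, 0 < x → HasDerivAt (fun r : ℝ => (Real.sqrt r)⁻¹) (-(1 / (2 * Real.sqrt x)) / (Real.sqrt x)^2) x := by
      intro x hx
      have := ((hasDerivAt_id x).sqrt (by simpa using hx.ne')).inv (by simpa using (Real.sqrt_pos.2 hx).ne')
      exact this
    have hd2 : ∀ x ∈ Icc (1/6400:ℝ) (1/144), HasDerivAt (fun r => (pk c r - pk b r) - (-(9/10) * (c - b) * (Real.sqrt r)⁻¹))
        ((gg x / 2 * (c / Real.sqrt (x - c^2)) - gg x / 2 * (b / Real.sqrt (x - b^2))) -
          (-(9/10) * (c - b) * (-(1 / (2 * Real.sqrt x)) / (Real.sqrt x)^2))) x := by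
      intro x hx
      exact (hd x (by linarith [hx.1])).sub ((hsq x (by linarith [hx.1])).const_mul _)
    apply monotoneOn_of_deriv_nonneg (convex_Icc _ _)
    · intro x hx
      exact (hd2 x hx).continuousAt.continuousWithinAt
    · intro x hx
      exact (hd2 x (interior_subset hx)).differentiableAt.differentiableWithinAt
    · intro x hx
      have hx' := interior_subset hx
      rw [(hd2 x hx').deriv]
      have h1 := hnn x (by linarith [hx'.1])
      have hx0 : 0 < x := by linarith [hx'.1]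
      have hs : 0 < Real.sqrt x := Real.sqrt_pos.2 hx0
      have e : gg x = (9/10) / (Real.sqrt x)^2 := by
        unfold gg; rw [al_mid hx'.1 hx'.2, Real.sq_sqrt hx0.le]
      have e2 : gg x / 2 * ((c - b) / Real.sqrt x) = (-(9/10) * (c - b) * (-(1 / (2 * Real.sqrt x)) / (Real.sqrt x)^2)) := by
        rw [e]; field_simp
      linarith
  have m1 := hmono (show (1/10000:ℝ) ∈ Ici (1/10000:ℝ) from mem_Ici.2 le_rfl) (show (1/6400:ℝ) ∈ Ici (1/10000:ℝ) by norm_num) (by norm_num)
  have m2 := hmono (show (1/144:ℝ) ∈ Ici (1/10000:ℝ) by norm_num) (show (1/50:ℝ) ∈ Ici (1/10000:ℝ) by norm_num) (by norm_num)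
  have m3 := hmono2 (show (1/6400:ℝ) ∈ Icc (1/6400:ℝ) (1/144) by norm_num) (show (1/144:ℝ) ∈ Icc (1/6400:ℝ) (1/144) by norm_num) (by norm_num)
  simp only at m1 m2 m3
  rw [pk_core (by linarith) (le_refl _), pk_core (by linarith) (le_refl _)] at m1
  rw [pk_far (r := 1/50) (by linarith) (le_refl _), pk_far (r := 1/50) (by linarith) (le_refl _)] at m2
  have s1 : Real.sqrt (1/6400) = 1/80 := by
    rw [show (1/6400:ℝ) = (1/80)^2 by norm_num]; exact Real.sqrt_sq (by norm_num)
  have s2 : Real.sqrt (1/144) = 1/12 := by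
    rw [show (1/144:ℝ) = (1/12)^2 by norm_num]; exact Real.sqrt_sq (by norm_num)
  rw [s1, s2] at m3
  unfold Th
  norm_num at m3 ⊢
  nlinarith

end Pool.Agent.H790
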