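import Mathlib
import Pool.Agent.H790.Lens

set_option autoImplicit false
open Real Set MeasureTheory Filter Topology

namespace Pool.Agent.H790

/-- the lens geodesic with impact parameter `b` and axis direction `γ` -/
noncomputable def zc (b γ t : ℝ) : ℂ :=
  Complex.exp (((γ + psi b t : ℝ) : ℂ) * Complex.I) * ((t : ℂ) + (b : ℂ) * Complex.I)

noncomputable def JJ (b r : ℝ) : ℝ := Real.arcsin (b / Real.sqrt r) + pk b r

lemma pk_neg (b r : ℝ) : pk (-b) r = - pk b r := by
  unfold pk; rw [psi_neg_left]; simp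

lemma JJ_neg (b r : ℝ) : JJ (-b) r = - JJ b r := by
  unfold JJ; rw [pk_neg, neg_div, Real.arcsin_neg]; ring

lemma pk_sq (b t : ℝ) : pk b (b^2 + t^2) = psi b |t| := by
  unfold pk
  rw [show b^2 + t^2 - b^2 = t^2 by ring, Real.sqrt_sq_eq_abs]

lemma norm_tb (b t : ℝ) : ‖((t : ℂ) + (b : ℂ) * Complex.I)‖^2 = b^2 + t^2 := by
  rw [Complex.sq_norm, Complex.normSq_add_mul_I]; ring

lemma normSq_zc (b γ t : ℝ) : Complex.normSq (zc b γ t) = b^2 + t^2 := by
  rw [← Complex.sq_norm]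
  unfold zc
  rw [norm_mul, Complex.norm_exp_ofReal_mul_I, one_mul, norm_tb]

lemma tb_polar_pos {b t : ℝ} (ht : 0 ≤ t) (hr : 0 < b^2 + t^2) :
    ((t : ℂ) + (b : ℂ) * Complex.I) =
      (Real.sqrt (b^2+t^2) : ℂ) * Complex.exp ((Real.arcsin (b / Real.sqrt (b^2+t^2)) : ℂ) * Complex.I) := by
  have hs : 0 < Real.sqrt (b^2+t^2) := Real.sqrt_pos.2 hr
  have hs2 : Real.sqrt (b^2+t^2)^2 = b^2+t^2 := Real.sq_sqrt hr.le
  have h1 : |b / Real.sqrt (b^2+t^2)| ≤ 1 := by
    rw [abs_div, abs_of_pos hs, div_le_one hs]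
    exact Real.abs_le_sqrt (by nlinarith)
  have h2 := abs_le.1 h1
  have h3 : Real.sqrt (1 - (b / Real.sqrt (b^2+t^2))^2) = t / Real.sqrt (b^2+t^2) := by
    have : 1 - (b / Real.sqrt (b^2+t^2))^2 = (t / Real.sqrt (b^2+t^2))^2 := by
      rw [div_pow, div_pow, hs2]; field_simp; ring
    rw [this]; exact Real.sqrt_sq (div_nonneg ht hs.le)
  apply Complex.ext
  · rw [Complex.re_ofReal_mul, Complex.exp_ofReal_mul_I_re, Real.cos_arcsin, h3]
    simp
    field_simp
  · rw [Complex.im_ofReal_mul, Complex.exp_ofReal_mul_I_im, Real.sin_arcsin h2.1 h2.2]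
    simp
    field_simp

lemma zc_pos {b γ t : ℝ} (ht : 0 ≤ t) (hr : 0 < b^2 + t^2) :
    zc b γ t = (Real.sqrt (b^2+t^2) : ℂ) * Complex.exp (((γ + JJ b (b^2+t^2) : ℝ) : ℂ) * Complex.I) := by
  unfold zc
  rw [tb_polar_pos ht hr]
  unfold JJ
  rw [pk_sq, abs_of_nonneg ht, mul_left_comm, ← Complex.exp_add]
  congr 2
  push_cast
  ring

lemma zc_neg {b γ t : ℝ} (ht : t ≤ 0) (hr : 0 < b^2 + t^2) :
    zc b γ t = (Real.sqrt (b^2+t^2) : ℂ) * Complex.exp (((γ + π - JJ b (b^2+t^2) : ℝ) : ℂ) * Complex.I) := by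
  have h := tb_polar_pos (b := -b) (t := -t) (by linarith) (by nlinarith)
  have h2 : ((t : ℂ) + (b : ℂ) * Complex.I) =
      (Real.sqrt (b^2+t^2) : ℂ) * Complex.exp (((π - Real.arcsin (b / Real.sqrt (b^2+t^2)) : ℝ) : ℂ) * Complex.I) := by
    have h3 : ((t : ℂ) + (b : ℂ) * Complex.I) = -(((-t : ℝ) : ℂ) + ((-b : ℝ) : ℂ) * Complex.I) := by
      push_cast; ring
    rw [h3, h]
    have e1 : ((-b)^2 + (-t)^2) = b^2 + t^2 := by ring
    rw [e1, neg_div, Real.arcsin_neg]
    have : ((π - Real.arcsin (b / Real.sqrt (b^2+t^2)) : ℝ) : ℂ) * Complex.I =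
        ((-Real.arcsin (b / Real.sqrt (b^2+t^2)) : ℝ) : ℂ) * Complex.I + π * Complex.I := by
      push_cast; ring
    rw [this, Complex.exp_add, Complex.exp_pi_mul_I]
    ring
  unfold zc
  rw [h2]
  unfold JJ
  rw [pk_sq, abs_of_nonpos ht, psi_neg_right, mul_left_comm, ← Complex.exp_add]
  congr 2
  push_cast
  ring

lemma JJ_hasDerivAt {b r : ℝ} (h : b^2 < r) :
    HasDerivAt (JJ b) (-((1 - al r) / (2 * r)) * (b / Real.sqrt (r - b^2))) r := by
  have hr : 0 < r := lt_of_le_of_lt (sq_nonneg b) h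
  have hs : 0 < Real.sqrt r := Real.sqrt_pos.2 hr
  have hs2 : Real.sqrt r ^ 2 = r := Real.sq_sqrt hr.le
  have h1 : HasDerivAt (fun r : ℝ => b / Real.sqrt r) (-(b * (1 / (2 * Real.sqrt r))) / (Real.sqrt r)^2) r := by
    have := (hasDerivAt_const r b).div ((hasDerivAt_id r).sqrt (by simpa using hr.ne')) (by simpa using hs.ne')
    exact this.congr_deriv (by simp)
  have hlt : |b / Real.sqrt r| < 1 := by
    rw [abs_div, abs_of_pos hs, div_lt_one hs]
    exact Real.lt_sqrt_of_sq_lt (by rwa [sq_abs])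
  have hlt' := abs_lt.1 hlt
  have h2 := (Real.hasDerivAt_arcsin (x := b / Real.sqrt r) (by linarith) (by linarith)).comp r h1
  have h3 := h2.add (pk_hasDerivAt h)
  have h4 : 0 < Real.sqrt (r - b^2) := Real.sqrt_pos.2 (by linarith)
  have h5 : Real.sqrt (1 - (b / Real.sqrt r)^2) = Real.sqrt (r - b^2) / Real.sqrt r := by
    rw [← Real.sqrt_div' _ hr.le]
    congr 1
    rw [div_pow, hs2]; field_simp
  refine HasDerivAt.congr_deriv (f := JJ b) h3 ?_
  rw [h5, hs2]
  have e : gg r = al r / r := rfl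
  rw [e]
  field_simp
  ring

lemma JJ_contAt {b r : ℝ} (h : 0 < r) : ContinuousAt (JJ b) r := by
  unfold JJ
  have hs : 0 < Real.sqrt r := Real.sqrt_pos.2 h
  refine ContinuousAt.add ?_ (pk_cont b).continuousAt
  exact Real.continuous_arcsin.continuousAt.comp (continuousAt_const.div Real.continuous_sqrt.continuousAt hs.ne')

lemma pk_core' {b : ℝ} (hb : b^2 ≤ 1/10000) : pk b (b^2) = 0 := pk_core le_rfl hb

lemma JJ_anti {b : ℝ} (hb : 0 < b) : AntitoneOn (JJ b) (Ici (b^2)) := by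
  apply antitoneOn_of_deriv_nonpos (convex_Ici _)
  · intro x hx
    exact (JJ_contAt (lt_of_lt_of_le (by positivity) hx)).continuousWithinAt
  · intro x hx
    rw [interior_Ici] at hx
    exact (JJ_hasDerivAt hx).differentiableAt.differentiableWithinAt
  · intro x hx
    rw [interior_Ici] at hx
    rw [(JJ_hasDerivAt hx).deriv]
    have hx0 : 0 < x := lt_of_le_of_lt (sq_nonneg b) hx
    have h1 := al_le x
    have h2 : 0 ≤ (1 - al x) / (2 * x) := div_nonneg (by linarith) (by linarith)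
    have h3 : 0 ≤ b / Real.sqrt (x - b^2) := div_nonneg hb.le (Real.sqrt_nonneg _)
    nlinarith [mul_nonneg h2 h3]

lemma JJ_lt_pos {b r : ℝ} (hb0 : 0 < b) (hb : b^2 < 1/10000) (h : b^2 < r) : JJ b r < π/2 := by
  set r' := min r (1/10000) with hr'
  have h1 : b^2 < r' := lt_min h hb
  have h2 : JJ b r ≤ JJ b r' := JJ_anti hb0 (mem_Ici.2 h1.le) (mem_Ici.2 h.le) (min_le_left _ _)
  have h3 : JJ b r' < π/2 := by
    unfold JJ
    rw [pk_core h1.le (min_le_right _ _), add_zero, Real.arcsin_lt_pi_div_two]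
    have : 0 < Real.sqrt r' := Real.sqrt_pos.2 (lt_of_le_of_lt (sq_nonneg b) h1)
    rw [div_lt_one this]
    exact Real.lt_sqrt_of_sq_lt h1
  linarith

lemma psi_nonneg {b t : ℝ} (hb : 0 ≤ b) (ht : 0 ≤ t) : 0 ≤ psi b t := by
  unfold psi
  apply intervalIntegral.integral_nonneg ht
  intro u _
  exact mul_nonneg hb (gg_nonneg (by positivity))

lemma JJ_nonneg {b r : ℝ} (hb : 0 ≤ b) : 0 ≤ JJ b r := by
  unfold JJ
  have h1 : 0 ≤ Real.arcsin (b / Real.sqrt r) := Real.arcsin_nonneg.2 (div_nonneg hb (Real.sqrt_nonneg _))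
  have h2 : 0 ≤ pk b r := psi_nonneg hb (Real.sqrt_nonneg _)
  linarith

lemma JJ_abs_lt {b r : ℝ} (hb : b^2 < 1/10000) (h : b^2 < r) : |JJ b r| < π/2 := by
  rcases lt_trichotomy 0 b with h0 | h0 | h0
  · rw [abs_of_nonneg (JJ_nonneg h0.le)]; exact JJ_lt_pos h0 hb h
  · subst h0
    have : JJ 0 r = 0 := by
      have := JJ_neg 0 r
      rw [neg_zero] at this; linarith
    rw [this, abs_zero]; positivity
  · have h1 : JJ b r = - JJ (-b) r := by rw [JJ_neg]; ring
    rw [h1, abs_neg, abs_of_nonneg (JJ_nonneg (by linarith))]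
    exact JJ_lt_pos (by linarith) (by simpa using hb) (by simpa using h)

lemma JJ_abs_le {b r : ℝ} (hb : b^2 < 1/10000) (h : b^2 ≤ r) : |JJ b r| ≤ π/2 := by
  rcases h.lt_or_eq with h1 | h1
  · exact (JJ_abs_lt hb h1).le
  · rw [← h1]
    unfold JJ
    rw [pk_core' hb.le, add_zero, abs_le]
    exact ⟨Real.neg_pi_div_two_le_arcsin _, Real.arcsin_le_pi_div_two _⟩

/-- the difference of the angular functions is antitone in the radius -/
lemma dJJ_anti {b c r s : ℝ} (hbc : b < c) (hb : b^2 ≤ r) (hc : c^2 ≤ r) (hrs : r ≤ s) :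
    JJ c s - JJ b s ≤ JJ c r - JJ b r := by
  set m := max (b^2) (c^2) with hm
  have hm0 : 0 < m := by
    rcases eq_or_ne b 0 with h | h
    · subst h
      exact lt_of_lt_of_le (by positivity : 0 < c^2) (le_max_right _ _)
    · exact lt_of_lt_of_le (by positivity : 0 < b^2) (le_max_left _ _)
  have : AntitoneOn (fun x => JJ c x - JJ b x) (Ici m) := by
    apply antitoneOn_of_deriv_nonpos (convex_Ici _)
    · intro x hx
      have hx0 : 0 < x := lt_of_lt_of_le hm0 hx
      exact ((JJ_contAt hx0).sub (JJ_contAt hx0)).continuousWithinAt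
    · intro x hx
      rw [interior_Ici] at hx
      have h1 : b^2 < x := lt_of_le_of_lt (le_max_left _ _) hx
      have h2 : c^2 < x := lt_of_le_of_lt (le_max_right _ _) hx
      exact ((JJ_hasDerivAt h2).sub (JJ_hasDerivAt h1)).differentiableAt.differentiableWithinAt
    · intro x hx
      rw [interior_Ici] at hx
      have h1 : b^2 < x := lt_of_le_of_lt (le_max_left _ _) hx
      have h2 : c^2 < x := lt_of_le_of_lt (le_max_right _ _) hx
      have hd : HasDerivAt (fun x => JJ c x - JJ b x) _ x := (JJ_hasDerivAt h2).sub (JJ_hasDerivAt h1)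
      rw [hd.deriv]
      have hx0 : 0 < x := lt_of_le_of_lt (sq_nonneg b) h1
      have h3 := quot_ineq h1 h2 hbc.le
      have h4 : 0 ≤ (c - b) / Real.sqrt x := div_nonneg (by linarith) (Real.sqrt_nonneg _)
      have h5 := al_le x
      have h6 : 0 ≤ (1 - al x) / (2 * x) := div_nonneg (by linarith) (by linarith)
      nlinarith [mul_nonneg h6 (h4.trans h3)]
  exact this (mem_Ici.2 (max_le hb hc)) (mem_Ici.2 ((max_le hb hc).trans hrs)) hrs

lemma exp_real_inj {A B : ℝ} {s : ℝ} (hs : 0 < s)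
    (h : (s : ℂ) * Complex.exp ((A : ℂ) * Complex.I) = (s : ℂ) * Complex.exp ((B : ℂ) * Complex.I)) :
    ∃ k : ℤ, A = B + k * (2 * π) := by
  have hs' : (s : ℂ) ≠ 0 := by exact_mod_cast hs.ne'
  have h1 := mul_left_cancel₀ hs' h
  obtain ⟨k, hk⟩ := Complex.exp_eq_exp_iff_exists_int.1 h1
  refine ⟨k, ?_⟩
  have h2 := congrArg Complex.im hk
  simp at h2
  linarith

lemma zc_norm_eq {b c γ γ' t t' : ℝ} (h : zc b γ t = zc c γ' t') : b^2 + t^2 = c^2 + t'^2 := by
  rw [← normSq_zc b γ t, ← normSq_zc c γ' t', h]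

lemma no_cross {b c γ γ' t t' : ℝ} (hb : b^2 < 1/10000) (hc : c^2 < 1/10000) (hbc : b < c)
    (h1 : γ' - γ < JJ c (9/16) - JJ b (9/16)) (h2 : -(JJ c (9/16) - JJ b (9/16)) < γ' - γ)
    (hr : b^2 + t^2 ≤ 9/16) : zc b γ t ≠ zc c γ' t' := by
  intro heq
  have hn := zc_norm_eq heq
  set r := b^2 + t^2 with hrdef
  have hbr : b^2 ≤ r := by nlinarith
  have hcr : c^2 ≤ r := by nlinarith
  have hr0 : 0 < r := by
    rcases eq_or_ne b 0 with h | h
    · subst h
      have : 0 < c^2 := by positivity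
      linarith
    · have : 0 < b^2 := by positivity
      linarith
  have hs : 0 < Real.sqrt r := Real.sqrt_pos.2 hr0
  have hanti := dJJ_anti hbc hbr hcr hr
  have jb := abs_le.1 (JJ_abs_le hb hbr)
  have jc := abs_le.1 (JJ_abs_le hc hcr)
  have jb9 := abs_le.1 (JJ_abs_le (b := b) (r := 9/16) hb (by linarith))
  have jc9 := abs_le.1 (JJ_abs_le (b := c) (r := 9/16) hc (by linarith))
  have hpi := Real.pi_pos
  have kcase : ∀ k : ℤ, k ≤ -1 ∨ k = 0 ∨ 1 ≤ k := fun k => by omega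
  rcases le_total 0 t with ht | ht <;> rcases le_total 0 t' with ht' | ht'
  · rw [zc_pos ht (by rw [← hrdef]; exact hr0), zc_pos ht' (by rw [← hn]; exact hr0), ← hn] at heq
    obtain ⟨k, hk⟩ := exp_real_inj hs heq
    rcases kcase k with h | h | h
    · have : (k : ℝ) ≤ -1 := by exact_mod_cast h
      nlinarith
    · subst h; simp at hk; linarith
    · have : (1:ℝ) ≤ k := by exact_mod_cast h
      nlinarith
  · rw [zc_pos ht (by rw [← hrdef]; exact hr0), zc_neg ht' (by rw [← hn]; exact hr0), ← hn] at heq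
    obtain ⟨k, hk⟩ := exp_real_inj hs heq
    rcases kcase k with h | h | h
    · have : (k : ℝ) ≤ -1 := by exact_mod_cast h
      nlinarith
    · subst h; simp at hk; linarith
    · have : (1:ℝ) ≤ k := by exact_mod_cast h
      nlinarith
  · rw [zc_neg ht (by rw [← hrdef]; exact hr0), zc_pos ht' (by rw [← hn]; exact hr0), ← hn] at heq
    obtain ⟨k, hk⟩ := exp_real_inj hs heq
    rcases kcase k with h | h | h
    · have : (k : ℝ) ≤ -1 := by exact_mod_cast h
      nlinarith
    · subst h; simp at hk; linarith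
    · have : (1:ℝ) ≤ k := by exact_mod_cast h
      nlinarith
  · rw [zc_neg ht (by rw [← hrdef]; exact hr0), zc_neg ht' (by rw [← hn]; exact hr0), ← hn] at heq
    obtain ⟨k, hk⟩ := exp_real_inj hs heq
    rcases kcase k with h | h | h
    · have : (k : ℝ) ≤ -1 := by exact_mod_cast h
      nlinarith
    · subst h; simp at hk; linarith
    · have : (1:ℝ) ≤ k := by exact_mod_cast h
      nlinarith

lemma zc_inj {b γ t t' : ℝ} (hb : b^2 < 1/10000) (h : zc b γ t = zc b γ t') : t = t' := by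
  by_contra hne
  have hn := zc_norm_eq h
  have h2 : t' = - t := by
    have : (t - t') * (t + t') = 0 := by nlinarith
    rcases mul_eq_zero.1 this with h | h
    · exact absurd (by linarith) hne
    · linarith
  have ht0 : t ≠ 0 := by
    intro h0; subst h0; apply hne; linarith
  have key : ∀ s : ℝ, 0 < s → zc b γ s ≠ zc b γ (-s) := by
    intro s hs heq
    have hr0 : 0 < b^2 + s^2 := by positivity
    have hq : 0 < Real.sqrt (b^2 + s^2) := Real.sqrt_pos.2 hr0
    rw [zc_pos hs.le hr0, zc_neg (by linarith) (by nlinarith), neg_sq] at heq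
    obtain ⟨k, hk⟩ := exp_real_inj hq heq
    have hj := abs_lt.1 (JJ_abs_lt (b := b) (r := b^2 + s^2) hb (by nlinarith))
    have hpi := Real.pi_pos
    have kcase : k ≤ -1 ∨ 0 ≤ k := by omega
    rcases kcase with h | h
    · have : (k : ℝ) ≤ -1 := by exact_mod_cast h
      nlinarith
    · have : (0:ℝ) ≤ k := by exact_mod_cast h
      nlinarith
  rcases lt_or_gt_of_ne ht0 with h3 | h3
  · apply key (-t) (by linarith)
    rw [neg_neg, ← h2]; exact h.symm
  · apply key t h3
    rw [← h2]; exact h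

end Pool.Agent.H790
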