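import Mathlib
import Pool.Agent.H790.Curve

set_option autoImplicit false
open Real Set MeasureTheory Filter Topology

namespace Pool.Agent.H790

/-- the lens quadratic form at the point `z` (lens centred at 0) -/
noncomputable def QQ (z v : ℂ) : ℝ :=
  v.re^2 + v.im^2 - MM (Complex.normSq z) * (z.re * v.re + z.im * v.im)^2

noncomputable def zd (b γ t : ℝ) : ℂ :=
  Complex.exp (((γ + psi b t : ℝ) : ℂ) * Complex.I) *
    (((1 - b * (b * gg (b^2+t^2)) : ℝ) : ℂ) + ((t * (b * gg (b^2+t^2)) : ℝ) : ℂ) * Complex.I)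

lemma zc_hasDerivAt (b γ t : ℝ) : HasDerivAt (zc b γ) (zd b γ t) t := by
  have h1 : HasDerivAt (fun t : ℝ => ((γ + psi b t : ℝ) : ℂ)) ((b * gg (b^2+t^2) : ℝ) : ℂ) t := by
    have := ((psi_hasDerivAt b t).const_add γ).ofReal_comp
    exact this
  have h2 := (h1.mul_const Complex.I).cexp
  have h3 : HasDerivAt (fun t : ℝ => ((t : ℂ) + (b : ℂ) * Complex.I)) 1 t := by
    have := ((hasDerivAt_id t).ofReal_comp).add_const ((b : ℂ) * Complex.I)
    simpa using this
  have h4 := h2.mul h3
  refine HasDerivAt.congr_deriv (f := zc b γ) h4 ?_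
  unfold zd
  push_cast
  have hI : Complex.I * Complex.I = -1 := Complex.I_mul_I
  linear_combination (Complex.exp ((↑γ + ↑(psi b t)) * Complex.I) * (b * (gg (b^2+t^2) : ℂ)) * b) * hI

lemma zd_cont (b γ : ℝ) : Continuous (zd b γ) := by
  unfold zd
  have h1 := psi_cont b
  have h2 := gg_cont
  fun_prop

lemma zc_re (b γ t : ℝ) : (zc b γ t).re = Real.cos (γ + psi b t) * t - Real.sin (γ + psi b t) * b := by
  unfold zc
  rw [Complex.mul_re, Complex.exp_ofReal_mul_I_re, Complex.exp_ofReal_mul_I_im]
  simp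

lemma zc_im (b γ t : ℝ) : (zc b γ t).im = Real.cos (γ + psi b t) * b + Real.sin (γ + psi b t) * t := by
  unfold zc
  rw [Complex.mul_im, Complex.exp_ofReal_mul_I_re, Complex.exp_ofReal_mul_I_im]
  simp

lemma zd_re (b γ t : ℝ) : (zd b γ t).re = Real.cos (γ + psi b t) * (1 - b * (b * gg (b^2+t^2))) -
    Real.sin (γ + psi b t) * (t * (b * gg (b^2+t^2))) := by
  unfold zd
  rw [Complex.mul_re, Complex.exp_ofReal_mul_I_re, Complex.exp_ofReal_mul_I_im]
  simp

lemma zd_im (b γ t : ℝ) : (zd b γ t).im = Real.cos (γ + psi b t) * (t * (b * gg (b^2+t^2))) +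
    Real.sin (γ + psi b t) * (1 - b * (b * gg (b^2+t^2))) := by
  unfold zd
  rw [Complex.mul_im, Complex.exp_ofReal_mul_I_re, Complex.exp_ofReal_mul_I_im]
  simp

lemma zz_inner (b γ t : ℝ) : (zc b γ t).re * (zd b γ t).re + (zc b γ t).im * (zd b γ t).im = t := by
  rw [zc_re, zc_im, zd_re, zd_im]
  have h := Real.sin_sq_add_cos_sq (γ + psi b t)
  linear_combination (t * (1 - b * (b * gg (b^2+t^2))) + b * (t * (b * gg (b^2+t^2)))) * h

lemma zz_cross (b γ t : ℝ) : (zc b γ t).re * (zd b γ t).im - (zc b γ t).im * (zd b γ t).re =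
    - b * (1 - al (b^2+t^2)) := by
  rw [zc_re, zc_im, zd_re, zd_im]
  have h := Real.sin_sq_add_cos_sq (γ + psi b t)
  have h2 := gg_mul (b^2+t^2)
  linear_combination (t * (t * (b * gg (b^2+t^2))) - b * (1 - b * (b * gg (b^2+t^2)))) * h + b * h2

lemma zd_normSq (b γ t : ℝ) : (zd b γ t).re^2 + (zd b γ t).im^2 =
    (1 - b * (b * gg (b^2+t^2)))^2 + (t * (b * gg (b^2+t^2)))^2 := by
  rw [zd_re, zd_im]
  have h := Real.sin_sq_add_cos_sq (γ + psi b t)
  linear_combination ((1 - b * (b * gg (b^2+t^2)))^2 + (t * (b * gg (b^2+t^2)))^2) * h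

/-- the speed of the lens geodesic -/
lemma QQ_speed (b γ t : ℝ) : QQ (zc b γ t) (zd b γ t) = (1 - al (b^2+t^2))^2 := by
  unfold QQ
  rw [zz_inner, zd_normSq, normSq_zc]
  have h2 := gg_mul (b^2+t^2)
  unfold MM
  set g := gg (b^2+t^2)
  set a := al (b^2+t^2)
  linear_combination (b^2 * g - 2 + a) * h2

lemma QQ_speed_sqrt (b γ t : ℝ) : Real.sqrt (QQ (zc b γ t) (zd b γ t)) = 1 - al (b^2+t^2) := by
  rw [QQ_speed]
  exact Real.sqrt_sq (by have := al_le (b^2+t^2); linarith)

/-- arc length -/
noncomputable def sl (b t : ℝ) : ℝ := ∫ τ in (0:ℝ)..t, (1 - al (b^2 + τ^2))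

lemma sl_hasDerivAt (b t : ℝ) : HasDerivAt (sl b) (1 - al (b^2+t^2)) t := by
  unfold sl
  have hc : Continuous fun τ : ℝ => 1 - al (b^2 + τ^2) := by
    have := al_cont
    fun_prop
  exact intervalIntegral.integral_hasDerivAt_right (hc.intervalIntegrable _ _)
    (hc.stronglyMeasurableAtFilter _ _) hc.continuousAt

noncomputable def FF (b r : ℝ) : ℝ := ∫ x in (1:ℝ)..r, (1 - al x) * Real.sqrt (x - b^2) / (2 * x)

lemma FF_hasDerivAt (b : ℝ) {r : ℝ} (hr : 0 < r) :
    HasDerivAt (FF b) ((1 - al r) * Real.sqrt (r - b^2) / (2 * r)) r := by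
  have hc : ContinuousOn (fun x : ℝ => (1 - al x) * Real.sqrt (x - b^2) / (2 * x)) (Ioi 0) := by
    intro x hx
    have hx' : (2 * x) ≠ 0 := by have : 0 < x := hx; positivity
    have h1 := al_cont
    exact (ContinuousAt.div (by fun_prop) (by fun_prop) hx').continuousWithinAt
  unfold FF
  apply intervalIntegral.integral_hasDerivAt_right
  · apply ContinuousOn.intervalIntegrable
    apply hc.mono
    intro x hx
    rcases le_total 1 r with h | h
    · rw [uIcc_of_le h] at hx; exact lt_of_lt_of_le one_pos hx.1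
    · rw [uIcc_of_ge h] at hx; exact lt_of_lt_of_le hr hx.1
  · exact hc.stronglyMeasurableAtFilter isOpen_Ioi r hr
  · exact hc.continuousAt (Ioi_mem_nhds hr)

/-- the basic Cauchy-Schwarz inequality for the Hamilton-Jacobi form -/
lemma hj_ineq {b sg r a m R Y q : ℝ} (hr : 0 < r) (hq : q^2 = r - b^2) (hsg : sg^2 = 1)
    (hm : m * r = 1 - (1 - a)^2) {n : ℝ} (hn : R^2 + Y^2 = r * n) :
    ((-b) * (Y / r) + sg * ((1 - a) * q / (2 * r) * (2 * R)))^2 ≤ n - m * R^2 := by
  have e1 : n - m * R^2 = ((1-a)^2 * R^2 + Y^2) / r := by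
    rw [eq_div_iff hr.ne']
    linear_combination (-R^2) * hm - hn
  have e2 : (-b) * (Y / r) + sg * ((1 - a) * q / (2 * r) * (2 * R)) = (-b * Y + sg * (1 - a) * q * R) / r := by
    field_simp
  rw [e1, e2, div_pow, div_le_div_iff₀ (by positivity) hr]
  have e3 : (-b * Y + sg * (1 - a) * q * R)^2 ≤ (b^2 + q^2) * (Y^2 + (1-a)^2 * R^2) := by
    have : (b^2 + q^2) * (Y^2 + (1-a)^2 * R^2) - (-b * Y + sg * (1 - a) * q * R)^2 =
        (b * (1 - a) * R * sg + q * Y)^2 := by
      linear_combination (-(q^2 * (1-a)^2 * R^2) - b^2 * (1-a)^2*R^2) * hsg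
    nlinarith [sq_nonneg (b * (1 - a) * R * sg + q * Y)]
  have e4 : b^2 + q^2 = r := by linarith
  rw [e4] at e3
  nlinarith

theorem cal_exists {b γ t0 : ℝ} (hb : b^2 < 1/10000) :
    ∃ (S : ℂ → ℝ) (W : Set ℂ), IsOpen W ∧ ContinuousOn S W ∧
      (∀ (z : ℝ → ℂ) (v : ℂ) (u : ℝ), HasDerivAt z v u → z u ∈ W →
        ∃ s' : ℝ, HasDerivAt (S ∘ z) s' u ∧ s' ≤ Real.sqrt (QQ (z u) v)) ∧
      ∃ ε > 0, ∀ t, |t - t0| < ε → (zc b γ t ∈ W ∧ S (zc b γ t) = sl b t - sl b t0 + S (zc b γ t0)) := by
  rcases eq_or_ne t0 0 with ht0 | ht0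
  · subst ht0
    refine ⟨fun z => (z * Complex.exp (((-γ : ℝ) : ℂ) * Complex.I)).re, {z | Complex.normSq z < 1/10000}, ?_, ?_, ?_, ?_⟩
    · exact isOpen_lt Complex.continuous_normSq continuous_const
    · have : Continuous fun z : ℂ => (z * Complex.exp (((-γ : ℝ) : ℂ) * Complex.I)).re := by fun_prop
      exact this.continuousOn
    · intro z v u hz hW
      refine ⟨(v * Complex.exp (((-γ : ℝ) : ℂ) * Complex.I)).re, ?_, ?_⟩
      · have h1 := hz.mul_const (Complex.exp (((-γ : ℝ) : ℂ) * Complex.I))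
        exact (Complex.reCLM.hasFDerivAt.comp_hasDerivAt u h1)
      · have hM : MM (Complex.normSq (z u)) = 0 := MM_left (le_of_lt hW)
        unfold QQ
        rw [hM]
        apply Real.le_sqrt_of_sq_le
        have h2 : (v * Complex.exp (((-γ : ℝ) : ℂ) * Complex.I)).re ^ 2 ≤ Complex.normSq (v * Complex.exp (((-γ : ℝ) : ℂ) * Complex.I)) := by
          rw [Complex.normSq_apply]
          nlinarith [sq_nonneg (v * Complex.exp (((-γ : ℝ) : ℂ) * Complex.I)).im]
        have h3 : Complex.normSq (v * Complex.exp (((-γ : ℝ) : ℂ) * Complex.I)) = v.re^2 + v.im^2 := by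
          rw [Complex.normSq_mul, ← Complex.sq_norm (Complex.exp _), Complex.norm_exp_ofReal_mul_I, Complex.normSq_apply]
          ring
        linarith
    · -- core
      set ε := Real.sqrt (1/10000 - b^2) with hε
      have hεpos : 0 < ε := Real.sqrt_pos.2 (by linarith)
      have hε2 : ε^2 = 1/10000 - b^2 := Real.sq_sqrt (by linarith)
      have hcore : ∀ t, |t - 0| < ε → b^2 + t^2 < 1/10000 := by
        intro t ht
        rw [sub_zero] at ht
        have := abs_lt.1 ht
        nlinarith [sq_abs t, sq_nonneg (ε - |t|), sq_nonneg (ε + |t|), abs_nonneg t]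
      refine ⟨ε, hεpos, ?_⟩
      intro t ht
      have h1 := hcore t ht
      have h0 := hcore 0 (by simpa using hεpos)
      refine ⟨?_, ?_⟩
      · show Complex.normSq (zc b γ t) < 1/10000
        rw [normSq_zc]; exact h1
      · have key : ∀ s : ℝ, b^2 + s^2 < 1/10000 → (zc b γ s * Complex.exp (((-γ : ℝ) : ℂ) * Complex.I)).re = s := by
          intro s hs
          unfold zc
          rw [psi_core hs.le, mul_right_comm, ← Complex.exp_add]
          have : (((γ + 0 : ℝ) : ℂ) * Complex.I + ((-γ : ℝ) : ℂ) * Complex.I) = 0 := by push_cast; ring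
          rw [this]; simp
        have hsl : ∀ s : ℝ, b^2 + s^2 < 1/10000 → sl b s = s := by
          intro s hs
          unfold sl
          have : ∫ τ in (0:ℝ)..s, (1 - al (b^2 + τ^2)) = ∫ τ in (0:ℝ)..s, (1:ℝ) := by
            apply intervalIntegral.integral_congr
            intro τ hτ
            simp only
            rw [al_left, sub_zero]
            have : τ^2 ≤ s^2 := by
              rcases le_total 0 s with h0 | h0
              · rw [uIcc_of_le h0] at hτ; nlinarith [hτ.1, hτ.2]
              · rw [uIcc_of_ge h0] at hτ; nlinarith [hτ.1, hτ.2]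
            linarith
          rw [this]; simp
        simp only
        rw [key t h1, key 0 h0, hsl t h1, hsl 0 h0]; ring
  · -- Hamilton-Jacobi case
    set sg : ℝ := if 0 < t0 then 1 else -1 with hsg
    have hsg2 : sg^2 = 1 := by rw [hsg]; split_ifs <;> norm_num
    set z0 := zc b γ t0 with hz0
    have hz0n : Complex.normSq z0 = b^2 + t0^2 := normSq_zc b γ t0
    have ht0sq : 0 < t0^2 := by positivity
    have hz0ne : z0 ≠ 0 := by
      intro h; rw [h] at hz0n; simp at hz0n; nlinarith [sq_nonneg b]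
    set S : ℂ → ℝ := fun z => (-b) * (Complex.log (z / z0)).im + sg * FF b (Complex.normSq z) with hS
    set W : Set ℂ := {z | z / z0 ∈ Complex.slitPlane ∧ b^2 < Complex.normSq z} with hW
    have hWo : IsOpen W := by
      apply IsOpen.inter
      · exact Complex.isOpen_slitPlane.preimage (by fun_prop)
      · exact isOpen_lt continuous_const Complex.continuous_normSq
    have hcurve : ∀ (z : ℝ → ℂ) (v : ℂ) (u : ℝ), HasDerivAt z v u → z u ∈ W →
        HasDerivAt (S ∘ z) ((-b) * (((z u).re * v.im - (z u).im * v.re) / Complex.normSq (z u)) +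
          sg * ((1 - al (Complex.normSq (z u))) * Real.sqrt (Complex.normSq (z u) - b^2) / (2 * Complex.normSq (z u)) *
            (2 * ((z u).re * v.re + (z u).im * v.im)))) u := by
      intro z v u hz hzW
      have hρ : 0 < Complex.normSq (z u) := lt_of_le_of_lt (sq_nonneg b) hzW.2
      have hzne : z u ≠ 0 := by intro h; rw [h] at hρ; simp at hρ
      have h1 : HasDerivAt (fun u => z u / z0) (v / z0) u := hz.div_const z0
      have h2 := h1.clog_real hzW.1
      have h3 : HasDerivAt (fun u => (Complex.log (z u / z0)).im) ((v / z0) / (z u / z0)).im u :=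
        Complex.imCLM.hasFDerivAt.comp_hasDerivAt u h2
      have e3 : ((v / z0) / (z u / z0)).im = ((z u).re * v.im - (z u).im * v.re) / Complex.normSq (z u) := by
        rw [div_div_div_cancel_right₀ hz0ne, Complex.div_im]; ring
      rw [e3] at h3
      have h4re : HasDerivAt (fun u => (z u).re) v.re u := Complex.reCLM.hasFDerivAt.comp_hasDerivAt u hz
      have h4im : HasDerivAt (fun u => (z u).im) v.im u := Complex.imCLM.hasFDerivAt.comp_hasDerivAt u hz
      have h4 : HasDerivAt (fun u => Complex.normSq (z u)) (2 * ((z u).re * v.re + (z u).im * v.im)) u := by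
        have := (h4re.mul h4re).add (h4im.mul h4im)
        refine HasDerivAt.congr_deriv (f := fun u => Complex.normSq (z u)) ?_ (show v.re * (z u).re + (z u).re * v.re + (v.im * (z u).im + (z u).im * v.im) = _ by ring)
        exact this
      have h5 := (FF_hasDerivAt b hρ).comp u h4
      exact (h3.const_mul (-b)).add (h5.const_mul sg)
    refine ⟨S, W, hWo, ?_, ?_, ?_⟩
    · intro z hz
      have hρ : 0 < Complex.normSq z := lt_of_le_of_lt (sq_nonneg b) hz.2
      have c1 : ContinuousAt (fun z : ℂ => (Complex.log (z / z0)).im) z := by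
        have : ContinuousAt (fun z : ℂ => z / z0) z := by fun_prop
        exact Complex.continuous_im.continuousAt.comp (this.clog hz.1)
      have c2 : ContinuousAt (fun z : ℂ => FF b (Complex.normSq z)) z :=
        ContinuousAt.comp (f := Complex.normSq) (g := FF b) (FF_hasDerivAt b hρ).continuousAt Complex.continuous_normSq.continuousAt
      exact ((c1.const_mul (-b)).add (c2.const_mul sg)).continuousWithinAt
    · intro z v u hz hzW
      refine ⟨_, hcurve z v u hz hzW, ?_⟩
      have hρ : 0 < Complex.normSq (z u) := lt_of_le_of_lt (sq_nonneg b) hzW.2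
      apply Real.le_sqrt_of_sq_le
      unfold QQ
      apply hj_ineq hρ (Real.sq_sqrt (by linarith [hzW.2])) hsg2 (MM_mul _)
      rw [Complex.normSq_apply]; ring
    · -- along the geodesic
      have hW0 : z0 ∈ W := by
        refine ⟨?_, ?_⟩
        · rw [div_self hz0ne]; exact Complex.one_mem_slitPlane
        · rw [hz0n]; linarith
      have hopen : {t : ℝ | zc b γ t ∈ W ∧ 0 < sg * t} ∈ 𝓝 t0 := by
        have hcz : Continuous (zc b γ) := continuous_iff_continuousAt.2 fun t => (zc_hasDerivAt b γ t).continuousAt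
        apply IsOpen.mem_nhds
        · exact (hWo.preimage hcz).inter (isOpen_lt (f := fun _ : ℝ => (0:ℝ)) (g := fun t : ℝ => sg * t) continuous_const (by fun_prop))
        · refine ⟨hW0, ?_⟩
          rw [hsg]
          split_ifs with h
          · linarith
          · have : t0 < 0 := lt_of_le_of_ne (not_lt.1 h) ht0
            linarith
      obtain ⟨ε, hε, hball⟩ := Metric.mem_nhds_iff.1 hopen
      refine ⟨ε, hε, ?_⟩
      have hder : ∀ t ∈ Metric.ball t0 ε, HasDerivAt (fun t => S (zc b γ t) - sl b t) 0 t := by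
        intro t ht
        have hmem := hball ht
        have h1 := hcurve (zc b γ) (zd b γ t) t (zc_hasDerivAt b γ t) hmem.1
        have h2 := h1.sub (sl_hasDerivAt b t)
        refine HasDerivAt.congr_deriv (f := fun t => S (zc b γ t) - sl b t) h2 ?_
        rw [normSq_zc, zz_inner, zz_cross]
        have hρ : 0 < b^2 + t^2 := by
          have := hmem.1.2; rw [normSq_zc] at this; linarith [sq_nonneg b]
        rw [show b^2 + t^2 - b^2 = t^2 by ring, Real.sqrt_sq_eq_abs]
        have habs : |t| = sg * t := by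
          rw [hsg]
          have h3 := hmem.2
          rw [hsg] at h3
          split_ifs at h3 ⊢ with h
          · rw [abs_of_pos (by linarith)]; ring
          · rw [abs_of_neg (by linarith)]; ring
        rw [habs]
        field_simp
        have : sg^2 = 1 := hsg2
        linear_combination (t^2 * (1 - al (b^2+t^2))) * this
      intro t ht
      have htb : t ∈ Metric.ball t0 ε := by rw [Metric.mem_ball, Real.dist_eq]; exact ht
      refine ⟨(hball htb).1, ?_⟩
      have hconst := IsOpen.is_const_of_deriv_eq_zero Metric.isOpen_ball (convex_ball t0 ε).isPreconnected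
        (f := fun t => S (zc b γ t) - sl b t)
        (fun x hx => (hder x hx).differentiableAt.differentiableWithinAt)
        (fun x hx => (hder x hx).deriv) htb (Metric.mem_ball_self hε)
      linarith

end Pool.Agent.H790
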