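import Mathlib
import Pool.Agent.H790.Curve

set_option autoImplicit false
open Real Set MeasureTheory Filter Topology

namespace Pool.Agent.H790

lemma psi_cont_uncurry : Continuous fun p : ℝ × ℝ => psi p.1 p.2 := by
  unfold psi
  have hg := gg_cont
  apply intervalIntegral.continuous_parametric_intervalIntegral_of_continuous (f := fun (p : ℝ × ℝ) τ => p.1 * gg (p.1^2 + τ^2))
  · fun_prop
  · fun_prop

lemma psi_cont_left (t : ℝ) : Continuous fun b => psi b t :=
  psi_cont_uncurry.comp (by fun_prop : Continuous fun b : ℝ => (b, t))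

lemma Th_cont : Continuous Th := by
  unfold Th
  have := psi_cont_left (1/10)
  fun_prop

lemma Th_zero : Th 0 = 0 := by
  have := Th_neg 0
  rw [neg_zero] at this; linarith

/-- inverse of the deflection function -/
lemma exists_Xi : ∃ X : ℝ → ℝ, (∀ y, |X y| ≤ 9/1000) ∧ (∀ y, |y| ≤ 1 → Th (X y) = y) ∧
    (∀ x y, |x| ≤ 1 → |y| ≤ 1 → |X x - X y| ≤ |x - y| / 122) := by
  have h1 : 1 ≤ Th (9/1000) := by
    have := Th_mono (b := 0) (c := 9/1000) (by norm_num) (by norm_num) (by norm_num)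
    rw [Th_zero] at this; linarith
  have h2 : Th (-(9/1000)) ≤ -1 := by rw [Th_neg]; linarith
  have hex : ∀ y : ℝ, |y| ≤ 1 → ∃ b ∈ Icc (-(9/1000) : ℝ) (9/1000), Th b = y := by
    intro y hy
    have hy' := abs_le.1 hy
    have := intermediate_value_Icc (show -(9/1000:ℝ) ≤ 9/1000 by norm_num) Th_cont.continuousOn
    exact this ⟨h2.trans hy'.1, hy'.2.trans h1⟩
  classical
  refine ⟨fun y => if h : |y| ≤ 1 then (hex y h).choose else 0, ?_, ?_, ?_⟩
  · intro y
    by_cases h : |y| ≤ 1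
    · simp only [h, dif_pos]
      exact abs_le.2 ⟨(hex y h).choose_spec.1.1, (hex y h).choose_spec.1.2⟩
    · simp only [h, dif_neg, not_false_eq_true, abs_zero]; norm_num
  · intro y h
    simp only [h, dif_pos]
    exact (hex y h).choose_spec.2
  · intro x y hx hy
    simp only [hx, hy, dif_pos]
    set p := (hex x hx).choose
    set q := (hex y hy).choose
    have hp := (hex x hx).choose_spec
    have hq := (hex y hy).choose_spec
    have hp2 : p^2 < 1/10000 := by
      have h1 : -(9/1000) ≤ p := hp.1.1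
      have h2 : p ≤ 9/1000 := hp.1.2
      nlinarith
    have hq2 : q^2 < 1/10000 := by
      have h1 : -(9/1000) ≤ q := hq.1.1
      have h2 : q ≤ 9/1000 := hq.1.2
      nlinarith
    have ep : Th p = x := hp.2
    have eq' : Th q = y := hq.2
    rcases le_total p q with h | h
    · have := Th_mono hp2 hq2 h
      rw [ep, eq'] at this
      rw [abs_of_nonpos (by linarith), abs_of_nonpos (by linarith)]
      linarith
    · have := Th_mono hq2 hp2 h
      rw [ep, eq'] at this
      rw [abs_of_nonneg (by linarith), abs_of_nonneg (by linarith)]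
      linarith

lemma arcsin_lip {x y : ℝ} (hx : |x| ≤ 1/2) (hy : |y| ≤ 1/2) : |Real.arcsin x - Real.arcsin y| ≤ 2 * |x - y| := by
  have hx' := abs_le.1 hx
  have hy' := abs_le.1 hy
  have hD : Convex ℝ (Icc (-(1/2):ℝ) (1/2)) := convex_Icc _ _
  have h := hD.norm_image_sub_le_of_norm_hasDerivWithin_le (f := Real.arcsin) (f' := fun x => 1 / Real.sqrt (1 - x^2)) (C := 2)
    (fun z hz => by
      exact (Real.hasDerivAt_arcsin (by linarith [hz.1]) (by linarith [hz.2])).hasDerivWithinAt)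
    (fun z hz => by
      have h1 : (1/2:ℝ) ≤ Real.sqrt (1 - z^2) := by
        apply Real.le_sqrt_of_sq_le
        nlinarith [hz.1, hz.2]
      rw [Real.norm_eq_abs, abs_of_nonneg (by positivity)]
      rw [div_le_iff₀ (by linarith)]; linarith)
    (x := y) (y := x) ⟨hy'.1, hy'.2⟩ ⟨hx'.1, hx'.2⟩
  simpa [Real.norm_eq_abs] using h

lemma arcsin_exp {x y : ℝ} (hx : -1 ≤ x) (hxy : x ≤ y) (hy : y ≤ 1) :
    y - x ≤ Real.arcsin y - Real.arcsin x := by
  have h1 := Real.sin_arcsin hx (hxy.trans hy)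
  have h2 := Real.sin_arcsin (hx.trans hxy) hy
  have h3 : Real.arcsin x ≤ Real.arcsin y := Real.arcsin_le_arcsin hxy
  have h4 : |Real.sin (Real.arcsin y) - Real.sin (Real.arcsin x)| ≤ |Real.arcsin y - Real.arcsin x| := by
    have := Real.lipschitzWith_sin.dist_le_mul (Real.arcsin y) (Real.arcsin x)
    simpa [Real.dist_eq] using this
  rw [h1, h2, abs_of_nonneg (by linarith), abs_of_nonneg (by linarith)] at h4
  exact h4

structure LeafData (m : ℤ → ℤ) (b a : ℤ → ℝ) : Prop where
  step : ∀ n, m (n+1) = m n ∨ m (n+1) = m n + 1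
  bb : ∀ n, |b n| ≤ 9/1000
  tr : ∀ n, b (n+1) = b n + Real.sin (a n) - (m (n+1) - m n : ℝ) * Real.cos (a n)
  kick : ∀ n, a n - a (n-1) = Th (b n)
  dir : ∀ n, |a n - (m (n+1) - m n : ℝ) * (π/4)| ≤ 1/25

/-- the direction as a function of the drift -/
noncomputable def AA (δ d : ℝ) : ℝ := δ * (π/4) + Real.arcsin (d / Real.sqrt (1 + δ^2))

lemma AA_eq {δ d : ℝ} (hδ : δ = 0 ∨ δ = 1) (hd : |d| ≤ 1/2) :
    Real.sin (AA δ d) - δ * Real.cos (AA δ d) = d := by
  have hd' := abs_le.1 hd
  unfold AA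
  rcases hδ with h | h <;> subst h
  · have : Real.sqrt (1 + 0^2) = 1 := by norm_num
    rw [this]
    simp only [zero_mul, zero_add, sub_zero, div_one]
    exact Real.sin_arcsin (by linarith) (by linarith)
  · have h2 : Real.sqrt (1 + 1^2) = Real.sqrt 2 := by norm_num
    rw [h2]
    have hs : 0 < Real.sqrt 2 := by positivity
    have hs1 : 1 ≤ Real.sqrt 2 := Real.le_sqrt_of_sq_le (by norm_num)
    have hss : Real.sqrt 2 * Real.sqrt 2 = 2 := Real.mul_self_sqrt (by norm_num)
    rw [one_mul, Real.sin_add, Real.cos_add, Real.sin_pi_div_four, Real.cos_pi_div_four]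
    have h3 : -1 ≤ d / Real.sqrt 2 := by rw [le_div_iff₀ hs]; nlinarith
    have h4 : d / Real.sqrt 2 ≤ 1 := by rw [div_le_iff₀ hs]; nlinarith
    rw [Real.sin_arcsin h3 h4]
    field_simp
    ring

lemma AA_lip {δ d e : ℝ} (hd : |d| ≤ 1/2) (he : |e| ≤ 1/2) : |AA δ d - AA δ e| ≤ 2 * |d - e| := by
  unfold AA
  have hs : 1 ≤ Real.sqrt (1 + δ^2) := Real.le_sqrt_of_sq_le (by nlinarith [sq_nonneg δ])
  have hs0 : 0 < Real.sqrt (1 + δ^2) := by linarith
  have key : ∀ x : ℝ, |x / Real.sqrt (1 + δ^2)| ≤ |x| := by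
    intro x
    rw [abs_div, abs_of_pos hs0]
    exact div_le_self (abs_nonneg _) hs
  have h := arcsin_lip ((key d).trans hd) ((key e).trans he)
  have h2 : |d / Real.sqrt (1 + δ^2) - e / Real.sqrt (1 + δ^2)| ≤ |d - e| := by
    rw [← sub_div]; exact key _
  calc _ = |Real.arcsin (d / Real.sqrt (1 + δ^2)) - Real.arcsin (e / Real.sqrt (1 + δ^2))| := by congr 1; ring
    _ ≤ _ := by linarith

lemma AA_near {δ d : ℝ} (hd : |d| ≤ 1/2) : |AA δ d - δ * (π/4)| ≤ 2 * |d| := by
  have h := AA_lip (δ := δ) hd (e := 0) (by simp)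
  have h2 : AA δ 0 = δ * (π/4) := by unfold AA; simp
  rw [h2, sub_zero] at h
  exact h

theorem exists_leaf (m : ℤ → ℤ) (hm : ∀ n, m (n+1) = m n ∨ m (n+1) = m n + 1) :
    ∃ b a, LeafData m b a := by
  obtain ⟨X, hX1, hX2, hX3⟩ := exists_Xi
  set δ : ℤ → ℝ := fun n => (m (n+1) - m n : ℝ) with hδ
  have hδ01 : ∀ n, δ n = 0 ∨ δ n = 1 := by
    intro n
    rcases hm n with h | h
    · left; simp [hδ, h]
    · right; simp [hδ, h]
  set cl : ℝ → ℝ := fun x => max (-(9/1000)) (min x (9/1000)) with hcl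
  have hclb : ∀ x, |cl x| ≤ 9/1000 := by
    intro x
    rw [abs_le]
    refine ⟨le_max_left _ _, max_le (by norm_num) (min_le_right _ _)⟩
  have hcll : ∀ x y, |cl x - cl y| ≤ |x - y| := by
    intro x y
    simp only [hcl]
    calc |max (-(9/1000)) (min x (9/1000)) - max (-(9/1000)) (min y (9/1000))|
        ≤ |min x (9/1000) - min y (9/1000)| := by
          have := abs_max_sub_max_le_abs (min x (9/1000)) (min y (9/1000)) (-(9/1000:ℝ))
          rw [max_comm, max_comm (-(9/1000:ℝ))]; exact this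
      _ ≤ |x - y| := by
          have := abs_min_sub_min_le_max x (9/1000) y (9/1000)
          simpa using this
  have hclid : ∀ x, |x| ≤ 9/1000 → cl x = x := by
    intro x hx
    have := abs_le.1 hx
    simp only [hcl]
    rw [min_eq_left this.2, max_eq_right this.1]
  set R : (ℤ → ℝ) → ℤ → ℝ := fun f n =>
    AA (δ n) (cl (f (n+1)) - cl (f n)) - AA (δ (n-1)) (cl (f n) - cl (f (n-1))) with hR
  have hdiff : ∀ x y : ℝ, |cl x - cl y| ≤ 18/1000 := by
    intro x y
    have h1 := abs_le.1 (hclb x)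
    have h2 := abs_le.1 (hclb y)
    rw [abs_le]; constructor <;> linarith
  have hpi : π < 3.15 := Real.pi_lt_d2
  have hpi0 := Real.pi_pos
  have hR1 : ∀ f n, |R f n| ≤ 1 := by
    intro f n
    simp only [hR]
    have h1 := abs_le.1 ((AA_near (δ := δ n) (d := cl (f (n+1)) - cl (f n)) ((hdiff _ _).trans (by norm_num))).trans
      (mul_le_mul_of_nonneg_left (hdiff _ _) (by norm_num)))
    have h2 := abs_le.1 ((AA_near (δ := δ (n-1)) (d := cl (f n) - cl (f (n-1))) ((hdiff _ _).trans (by norm_num))).trans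
      (mul_le_mul_of_nonneg_left (hdiff _ _) (by norm_num)))
    rcases hδ01 n with e1 | e1 <;> rcases hδ01 (n-1) with e2 | e2 <;> rw [e1] at h1 ⊢ <;> rw [e2] at h2 ⊢ <;>
      rw [abs_le] <;> constructor <;> linarith
  have hRl : ∀ f g : ℤ → ℝ, ∀ C : ℝ, (∀ n, |f n - g n| ≤ C) → ∀ n, |R f n - R g n| ≤ 8 * C := by
    intro f g C hC n
    simp only [hR]
    have q : ∀ i j : ℤ, |(cl (f i) - cl (f j)) - (cl (g i) - cl (g j))| ≤ 2 * C := by
      intro i j
      have h1 := abs_le.1 ((hcll (f i) (g i)).trans (hC i))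
      have h2 := abs_le.1 ((hcll (f j) (g j)).trans (hC j))
      rw [abs_le]; constructor <;> linarith
    have h1 := abs_le.1 (AA_lip (δ := δ n) (d := cl (f (n+1)) - cl (f n)) (e := cl (g (n+1)) - cl (g n))
      ((hdiff _ _).trans (by norm_num)) ((hdiff _ _).trans (by norm_num)))
    have h2 := abs_le.1 (AA_lip (δ := δ (n-1)) (d := cl (f n) - cl (f (n-1))) (e := cl (g n) - cl (g (n-1)))
      ((hdiff _ _).trans (by norm_num)) ((hdiff _ _).trans (by norm_num)))
    have q1 := q (n+1) n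
    have q2 := q n (n-1)
    rw [abs_le]; constructor <;> linarith
  -- Banach fixed point
  have hbd : ∀ f : ℤ → ℝ, ∀ n, ‖X (R f n)‖ ≤ 9/1000 := fun f n => by
    rw [Real.norm_eq_abs]; exact hX1 _
  set T : BoundedContinuousFunction ℤ ℝ → BoundedContinuousFunction ℤ ℝ := fun f =>
    BoundedContinuousFunction.ofNormedAddCommGroupDiscrete (fun n => X (R f n)) (9/1000) (hbd f) with hT
  have hTc : ContractingWith (1/2) T := by
    refine ⟨by norm_num, ?_⟩
    apply LipschitzWith.of_dist_le_mul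
    intro f g
    rw [BoundedContinuousFunction.dist_le (by positivity)]
    intro n
    have h1 : ∀ k, |f k - g k| ≤ dist f g := fun k => by
      have := BoundedContinuousFunction.dist_coe_le_dist (f := f) (g := g) k
      rwa [Real.dist_eq] at this
    have h2 := hRl f g (dist f g) h1 n
    have h3 := hX3 (R f n) (R g n) (hR1 _ _) (hR1 _ _)
    rw [Real.dist_eq]
    have h4 : (T f) n = X (R f n) := rfl
    have h5 : (T g) n = X (R g n) := rfl
    rw [h4, h5]
    have h6 : ((1/2 : NNReal) : ℝ) = 1/2 := by norm_num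
    rw [h6]
    have h7 : (0:ℝ) ≤ dist f g := dist_nonneg
    calc _ ≤ |R f n - R g n| / 122 := h3
      _ ≤ 8 * dist f g / 122 := by gcongr
      _ ≤ _ := by linarith
  set f := hTc.fixedPoint T with hf
  have hfix : T f = f := hTc.fixedPoint_isFixedPt
  have hfn : ∀ n, f n = X (R f n) := by
    intro n
    conv_lhs => rw [← hfix]
    rfl
  have hfb : ∀ n, |f n| ≤ 9/1000 := fun n => by rw [hfn n]; exact hX1 _
  have hff : ∀ n, cl (f n) = f n := fun n => hclid _ (hfb n)
  have hd2 : ∀ n, |f (n+1) - f n| ≤ 18/1000 := by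
    intro n
    have := hdiff (f (n+1)) (f n)
    rwa [hff, hff] at this
  refine ⟨fun n => f n, fun n => AA (δ n) (f (n+1) - f n), hm, hfb, ?_, ?_, ?_⟩
  · intro n
    have := AA_eq (hδ01 n) (d := f (n+1) - f n) ((hd2 n).trans (by norm_num))
    show f (n+1) = f n + Real.sin (AA (δ n) (f (n+1) - f n)) - δ n * Real.cos (AA (δ n) (f (n+1) - f n))
    linarith
  · intro n
    show AA (δ n) (f (n+1) - f n) - AA (δ (n-1)) (f (n-1+1) - f (n-1)) = Th (f n)
    have h1 : Th (f n) = Th (X (R f n)) := congrArg Th (hfn n)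
    rw [h1, hX2 _ (hR1 _ _)]
    simp only [hR]
    rw [hff, hff, hff, sub_add_cancel]
  · intro n
    have := AA_near (δ := δ n) (d := f (n+1) - f n) ((hd2 n).trans (by norm_num))
    have h2 := hd2 n
    show |AA (δ n) (f (n+1) - f n) - δ n * (π/4)| ≤ 1/25
    linarith

end Pool.Agent.H790
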