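import Mathlib
import Pool.Agent.H790.Cal

set_option autoImplicit false
open Real Set MeasureTheory Filter Topology

namespace Pool.Agent.H790

abbrev E3 := EuclideanSpace ℝ (Fin 3)

/-- the pillow map (not normalised) -/
noncomputable def NN (P : ℂ) : E3 :=
  WithLp.toLp 2 ![Real.cos (π * P.re), Real.cos (π * P.im), Real.sin (π * P.re) * Real.sin (π * P.im)]

@[simp] lemma NN_0 (P : ℂ) : (NN P) 0 = Real.cos (π * P.re) := rfl
@[simp] lemma NN_1 (P : ℂ) : (NN P) 1 = Real.cos (π * P.im) := rfl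
@[simp] lemma NN_2 (P : ℂ) : (NN P) 2 = Real.sin (π * P.re) * Real.sin (π * P.im) := rfl

lemma coord_contDiff (i : Fin 3) : ContDiff ℝ ((⊤ : ℕ∞) : WithTop ℕ∞) (fun X : E3 => X i) :=
  (EuclideanSpace.proj i : E3 →L[ℝ] ℝ).contDiff

lemma norm_sq_E3 (X : E3) : ‖X‖^2 = X 0^2 + X 1^2 + X 2^2 := by
  rw [EuclideanSpace.norm_sq_eq, Fin.sum_univ_three]
  simp [Real.norm_eq_abs, sq_abs]

noncomputable def nn (X : E3) : ℝ := X 0^2 + X 1^2 + X 2^2
noncomputable def DD (X : E3) : ℝ := nn X^2 - 4 * X 0^2 * X 1^2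
noncomputable def EE (X : E3) : ℝ := (nn X + Real.sqrt (DD X)) / 2
noncomputable def cA (X : E3) : ℝ := X 0 / Real.sqrt (EE X)
noncomputable def cB (X : E3) : ℝ := X 1 / Real.sqrt (EE X)
noncomputable def cC (X : E3) : ℝ := X 2 / Real.sqrt (EE X)

lemma nn_contDiff : ContDiff ℝ ((⊤ : ℕ∞) : WithTop ℕ∞) nn := by
  have h0 := coord_contDiff 0
  have h1 := coord_contDiff 1
  have h2 := coord_contDiff 2
  unfold nn
  exact ((h0.pow 2).add (h1.pow 2)).add (h2.pow 2)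

lemma DD_contDiff : ContDiff ℝ ((⊤ : ℕ∞) : WithTop ℕ∞) DD := by
  have h0 := coord_contDiff 0
  have h1 := coord_contDiff 1
  unfold DD
  exact (nn_contDiff.pow 2).sub ((contDiff_const.mul (h0.pow 2)).mul (h1.pow 2))

lemma nn_nonneg (X : E3) : 0 ≤ nn X := by unfold nn; positivity

lemma nn_pos {X : E3} (h : 0 < DD X) : 0 < nn X := by
  unfold DD at h
  rcases (nn_nonneg X).lt_or_eq with h1 | h1
  · exact h1
  · rw [← h1] at h
    nlinarith [mul_nonneg (sq_nonneg (X 0)) (sq_nonneg (X 1))]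

lemma EE_pos {X : E3} (h : 0 < DD X) : 0 < EE X := by
  unfold EE
  have := nn_pos h
  have := Real.sqrt_nonneg (DD X)
  linarith

lemma EE_contDiffAt {X : E3} (h : 0 < DD X) : ContDiffAt ℝ ((⊤ : ℕ∞) : WithTop ℕ∞) EE X := by
  unfold EE
  exact (nn_contDiff.contDiffAt.add (DD_contDiff.contDiffAt.sqrt h.ne')).div_const 2

lemma sE_contDiffAt {X : E3} (h : 0 < DD X) :
    ContDiffAt ℝ ((⊤ : ℕ∞) : WithTop ℕ∞) (fun X => Real.sqrt (EE X)) X :=
  (EE_contDiffAt h).sqrt (EE_pos h).ne'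

lemma sE_pos {X : E3} (h : 0 < DD X) : 0 < Real.sqrt (EE X) := Real.sqrt_pos.2 (EE_pos h)

lemma cA_contDiffAt {X : E3} (h : 0 < DD X) : ContDiffAt ℝ ((⊤ : ℕ∞) : WithTop ℕ∞) cA X :=
  (coord_contDiff 0).contDiffAt.div (sE_contDiffAt h) (sE_pos h).ne'
lemma cB_contDiffAt {X : E3} (h : 0 < DD X) : ContDiffAt ℝ ((⊤ : ℕ∞) : WithTop ℕ∞) cB X :=
  (coord_contDiff 1).contDiffAt.div (sE_contDiffAt h) (sE_pos h).ne'
lemma cC_contDiffAt {X : E3} (h : 0 < DD X) : ContDiffAt ℝ ((⊤ : ℕ∞) : WithTop ℕ∞) cC X :=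
  (coord_contDiff 2).contDiffAt.div (sE_contDiffAt h) (sE_pos h).ne'

lemma EE_rel {X : E3} (h : 0 < DD X) : (EE X - X 0^2) * (EE X - X 1^2) = X 2^2 * EE X := by
  have h1 : Real.sqrt (DD X)^2 = DD X := Real.sq_sqrt h.le
  have h2 : DD X = nn X^2 - 4 * X 0^2 * X 1^2 := rfl
  have h3 : nn X = X 0^2 + X 1^2 + X 2^2 := rfl
  have h4 : EE X = (nn X + Real.sqrt (DD X)) / 2 := rfl
  have h5 : EE X^2 - nn X * EE X + X 0^2 * X 1^2 = 0 := by
    rw [h4]; linear_combination (1/4) * h1 + (1/4) * h2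
  rw [h3] at h5
  linear_combination h5

lemma EE_sum {X : E3} (h : 0 < DD X) : 0 < (EE X - X 0^2) + (EE X - X 1^2) := by
  have h1 : 0 < Real.sqrt (DD X) := Real.sqrt_pos.2 h
  have h3 : nn X = X 0^2 + X 1^2 + X 2^2 := rfl
  have h4 : EE X = (nn X + Real.sqrt (DD X)) / 2 := rfl
  rw [h4, h3]; nlinarith [sq_nonneg (X 2)]

lemma cc_rel {X : E3} (h : 0 < DD X) : 0 ≤ 1 - cA X^2 ∧ 0 ≤ 1 - cB X^2 ∧
    0 < (1 - cA X^2) + (1 - cB X^2) ∧ cC X^2 = (1 - cA X^2) * (1 - cB X^2) := by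
  have hE := EE_pos h
  have hs : Real.sqrt (EE X)^2 = EE X := Real.sq_sqrt hE.le
  have hA : 1 - cA X^2 = (EE X - X 0^2) / EE X := by
    unfold cA; rw [div_pow, hs]; field_simp
  have hB : 1 - cB X^2 = (EE X - X 1^2) / EE X := by
    unfold cB; rw [div_pow, hs]; field_simp
  have h1 := EE_rel h
  have h2 := EE_sum h
  have h3 : 0 ≤ X 2^2 * EE X := by positivity
  have p1 : 0 ≤ EE X - X 0^2 := by
    by_contra hc
    push Not at hc
    nlinarith
  have p2 : 0 ≤ EE X - X 1^2 := by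
    by_contra hc
    push Not at hc
    nlinarith
  refine ⟨?_, ?_, ?_, ?_⟩
  · rw [hA]; positivity
  · rw [hB]; positivity
  · rw [hA, hB, ← add_div]; positivity
  · rw [hA, hB]; unfold cC; rw [div_pow, hs]
    field_simp
    linarith

/-- values on the cone -/
lemma DD_cone (r : ℝ) (P : ℂ) : DD (r • NN P) =
    (r^2 * (1 - (Real.cos (π * P.re) * Real.cos (π * P.im))^2))^2 := by
  unfold DD nn
  simp only [PiLp.smul_apply, NN_0, NN_1, NN_2, smul_eq_mul]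
  have h1 := Real.sin_sq (π * P.re)
  have h2 := Real.sin_sq (π * P.im)
  set a := Real.cos (π * P.re)
  set b := Real.cos (π * P.im)
  set s := Real.sin (π * P.re)
  set t := Real.sin (π * P.im)
  have h3 : (r * a)^2 + (r * b)^2 + (r * (s * t))^2 = r^2 * (1 + a^2 * b^2) := by
    have : (s * t)^2 = (1 - a^2) * (1 - b^2) := by rw [mul_pow, h1, h2]
    linear_combination r^2 * this
  rw [h3]; ring

lemma nn_cone (r : ℝ) (P : ℂ) : nn (r • NN P) =
    r^2 * (1 + (Real.cos (π * P.re) * Real.cos (π * P.im))^2) := by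
  unfold nn
  simp only [PiLp.smul_apply, NN_0, NN_1, NN_2, smul_eq_mul]
  have h1 := Real.sin_sq (π * P.re)
  have h2 := Real.sin_sq (π * P.im)
  have : (Real.sin (π * P.re) * Real.sin (π * P.im))^2 = (1 - Real.cos (π * P.re)^2) * (1 - Real.cos (π * P.im)^2) := by
    rw [mul_pow, h1, h2]
  linear_combination r^2 * this

lemma cos_mul_sq_le (P : ℂ) : (Real.cos (π * P.re) * Real.cos (π * P.im))^2 ≤ 1 := by
  rw [mul_pow]
  have h1 := Real.cos_sq_le_one (π * P.re)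
  have h2 := Real.cos_sq_le_one (π * P.im)
  have h3 := sq_nonneg (Real.cos (π * P.im))
  nlinarith [sq_nonneg (Real.cos (π * P.re))]

lemma sE_cone {r : ℝ} (hr : 0 < r) (P : ℂ) : Real.sqrt (EE (r • NN P)) = r := by
  have h : EE (r • NN P) = r^2 := by
    unfold EE
    rw [DD_cone, nn_cone, Real.sqrt_sq (mul_nonneg (sq_nonneg r) (by linarith [cos_mul_sq_le P]))]
    ring
  rw [h]; exact Real.sqrt_sq hr.le

lemma cA_cone {r : ℝ} (hr : 0 < r) (P : ℂ) : cA (r • NN P) = Real.cos (π * P.re) := by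
  unfold cA; rw [sE_cone hr]; simp only [PiLp.smul_apply, NN_0, smul_eq_mul]; field_simp
lemma cB_cone {r : ℝ} (hr : 0 < r) (P : ℂ) : cB (r • NN P) = Real.cos (π * P.im) := by
  unfold cB; rw [sE_cone hr]; simp only [PiLp.smul_apply, NN_1, smul_eq_mul]; field_simp
lemma cC_cone {r : ℝ} (hr : 0 < r) (P : ℂ) : cC (r • NN P) = Real.sin (π * P.re) * Real.sin (π * P.im) := by
  unfold cC; rw [sE_cone hr]; simp only [PiLp.smul_apply, NN_2, smul_eq_mul]; field_simp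

end Pool.Agent.H790
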