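import Mathlib
import Pool.Agent.H790.Pillow

set_option autoImplicit false
open Real Set MeasureTheory Filter Topology

namespace Pool.Agent.H790

noncomputable def sq2 (φ : E3 →L[ℝ] ℝ) : E3 →L[ℝ] (E3 →L[ℝ] ℝ) := φ.smulRight φ

@[simp] lemma sq2_apply (φ : E3 →L[ℝ] ℝ) (v w : E3) : sq2 φ v w = φ v * φ w := by
  simp [sq2]

noncomputable def eta (X : E3) : E3 →L[ℝ] ℝ :=
  (1 - cB X^2) • fderiv ℝ cC X + (cC X * cB X) • fderiv ℝ cB X
noncomputable def zet (X : E3) : E3 →L[ℝ] ℝ :=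
  (1 - cA X^2) • fderiv ℝ cC X + (cC X * cA X) • fderiv ℝ cA X
noncomputable def w1 (X : E3) : ℝ := 1 / (π^2 * ((1 - cA X^2) + (1 - cB X^2)^3))
noncomputable def w2 (X : E3) : ℝ := 1 / (π^2 * ((1 - cB X^2) + (1 - cA X^2)^3))
noncomputable def Gf (X : E3) : E3 →L[ℝ] (E3 →L[ℝ] ℝ) :=
  w1 X • ((1 + (1 - cB X^2)^3) • sq2 (fderiv ℝ cA X) + sq2 (eta X)) +
  w2 X • ((1 + (1 - cA X^2)^3) • sq2 (fderiv ℝ cB X) + sq2 (zet X))
noncomputable def rho (X : E3) : ℝ :=
  (Real.arcsin (cC X / Real.sqrt (1 - cB X^2))^2 + Real.arcsin (cB X)^2) / π^2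
noncomputable def Gl (X : E3) : E3 →L[ℝ] (E3 →L[ℝ] ℝ) := (MM (rho X) / 4) • sq2 (fderiv ℝ rho X)
noncomputable def chi (X : E3) : ℝ := Real.smoothTransition (100 * (DD X - 1/100))
noncomputable def pj (i : Fin 3) : E3 →L[ℝ] ℝ := EuclideanSpace.proj i
noncomputable def G0 : E3 →L[ℝ] (E3 →L[ℝ] ℝ) := sq2 (pj 0) + sq2 (pj 1) + sq2 (pj 2)
noncomputable def GG (X : E3) : E3 →L[ℝ] (E3 →L[ℝ] ℝ) :=
  chi X • (Gf X - Gl X) + (1 - chi X) • G0

lemma Gf_apply (X v w : E3) : Gf X v w =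
    w1 X * ((1 + (1 - cB X^2)^3) * (fderiv ℝ cA X v * fderiv ℝ cA X w) + eta X v * eta X w) +
    w2 X * ((1 + (1 - cA X^2)^3) * (fderiv ℝ cB X v * fderiv ℝ cB X w) + zet X v * zet X w) := by
  unfold Gf
  simp only [_root_.add_apply, _root_.smul_apply, sq2_apply, smul_eq_mul]

lemma Gl_apply (X v w : E3) : Gl X v w = MM (rho X) / 4 * (fderiv ℝ rho X v * fderiv ℝ rho X w) := by
  unfold Gl
  simp only [_root_.smul_apply, sq2_apply, smul_eq_mul]

lemma G0_apply (v w : E3) : G0 v w = v 0 * w 0 + v 1 * w 1 + v 2 * w 2 := by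
  unfold G0 pj
  simp only [_root_.add_apply, sq2_apply]
  rfl

lemma GG_apply (X v w : E3) : GG X v w = chi X * (Gf X v w - Gl X v w) + (1 - chi X) * G0 v w := by
  unfold GG
  simp only [_root_.add_apply, _root_.smul_apply, _root_.sub_apply, smul_eq_mul]

lemma den1_pos {X : E3} (h : 0 < DD X) : 0 < (1 - cA X^2) + (1 - cB X^2)^3 := by
  obtain ⟨h1, h2, h3, _⟩ := cc_rel h
  rcases h1.lt_or_eq with h | h
  · positivity
  · rw [← h] at h3 ⊢
    rw [zero_add] at h3 ⊢; positivity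

lemma den2_pos {X : E3} (h : 0 < DD X) : 0 < (1 - cB X^2) + (1 - cA X^2)^3 := by
  obtain ⟨h1, h2, h3, _⟩ := cc_rel h
  rcases h2.lt_or_eq with h | h
  · positivity
  · rw [← h] at h3 ⊢
    rw [zero_add]; rw [add_zero] at h3; positivity

lemma fd_contDiffAt {f : E3 → ℝ} {X : E3} (h : ContDiffAt ℝ ((⊤ : ℕ∞) : WithTop ℕ∞) f X) (v : E3) :
    ContDiffAt ℝ ((⊤ : ℕ∞) : WithTop ℕ∞) (fun X => fderiv ℝ f X v) X :=
  (h.fderiv_right (by simp)).clm_apply contDiffAt_const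

lemma Gf_contDiffAt {X : E3} (h : 0 < DD X) (v w : E3) :
    ContDiffAt ℝ ((⊤ : ℕ∞) : WithTop ℕ∞) (fun X => Gf X v w) X := by
  have hA := cA_contDiffAt h
  have hB := cB_contDiffAt h
  have hC := cC_contDiffAt h
  have d1 := den1_pos h
  have d2 := den2_pos h
  have oneB : ContDiffAt ℝ ((⊤ : ℕ∞) : WithTop ℕ∞) (fun X => 1 - cB X^2) X := contDiffAt_const.sub (hB.pow 2)
  have oneA : ContDiffAt ℝ ((⊤ : ℕ∞) : WithTop ℕ∞) (fun X => 1 - cA X^2) X := contDiffAt_const.sub (hA.pow 2)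
  have heta : ∀ v, ContDiffAt ℝ ((⊤ : ℕ∞) : WithTop ℕ∞) (fun X => eta X v) X := fun v => by
    have : (fun X => eta X v) = fun X => (1 - cB X^2) * fderiv ℝ cC X v + (cC X * cB X) * fderiv ℝ cB X v := by
      ext X; simp [eta]
    rw [this]
    exact (oneB.mul (fd_contDiffAt hC v)).add ((hC.mul hB).mul (fd_contDiffAt hB v))
  have hzet : ∀ v, ContDiffAt ℝ ((⊤ : ℕ∞) : WithTop ℕ∞) (fun X => zet X v) X := fun v => by
    have : (fun X => zet X v) = fun X => (1 - cA X^2) * fderiv ℝ cC X v + (cC X * cA X) * fderiv ℝ cA X v := by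
      ext X; simp [zet]
    rw [this]
    exact (oneA.mul (fd_contDiffAt hC v)).add ((hC.mul hA).mul (fd_contDiffAt hA v))
  have hw1 : ContDiffAt ℝ ((⊤ : ℕ∞) : WithTop ℕ∞) w1 X :=
    contDiffAt_const.div (contDiffAt_const.mul (oneA.add (oneB.pow 3))) (by positivity)
  have hw2 : ContDiffAt ℝ ((⊤ : ℕ∞) : WithTop ℕ∞) w2 X :=
    contDiffAt_const.div (contDiffAt_const.mul (oneB.add (oneA.pow 3))) (by positivity)
  simp_rw [Gf_apply]
  exact (hw1.mul (((contDiffAt_const.add (oneB.pow 3)).mul ((fd_contDiffAt hA v).mul (fd_contDiffAt hA w))).add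
      ((heta v).mul (heta w)))).add
    (hw2.mul (((contDiffAt_const.add (oneA.pow 3)).mul ((fd_contDiffAt hB v).mul (fd_contDiffAt hB w))).add
      ((hzet v).mul (hzet w))))

lemma rho_contDiffAt {X : E3} (h : 0 < DD X) (hB1 : |cB X| < 1)
    (hC1 : |cC X / Real.sqrt (1 - cB X^2)| < 1) : ContDiffAt ℝ ((⊤ : ℕ∞) : WithTop ℕ∞) rho X := by
  have hB := cB_contDiffAt h
  have hC := cC_contDiffAt h
  have hB2 := abs_lt.1 hB1
  have hC2 := abs_lt.1 hC1
  have h1 : 0 < 1 - cB X^2 := by nlinarith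
  have oneB : ContDiffAt ℝ ((⊤ : ℕ∞) : WithTop ℕ∞) (fun X => 1 - cB X^2) X := contDiffAt_const.sub (hB.pow 2)
  have hs := oneB.sqrt h1.ne'
  have hq : ContDiffAt ℝ ((⊤ : ℕ∞) : WithTop ℕ∞) (fun X => cC X / Real.sqrt (1 - cB X^2)) X :=
    hC.div hs (Real.sqrt_pos.2 h1).ne'
  have q1 : ContDiffAt ℝ ((⊤ : ℕ∞) : WithTop ℕ∞) Real.arcsin (cC X / Real.sqrt (1 - cB X^2)) :=
    Real.contDiffAt_arcsin (ne_of_gt hC2.1) (ne_of_lt hC2.2)
  have q2 : ContDiffAt ℝ ((⊤ : ℕ∞) : WithTop ℕ∞) Real.arcsin (cB X) :=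
    Real.contDiffAt_arcsin (ne_of_gt hB2.1) (ne_of_lt hB2.2)
  have a1 : ContDiffAt ℝ ((⊤ : ℕ∞) : WithTop ℕ∞) (Real.arcsin ∘ (fun X => (cC X / Real.sqrt (1 - cB X^2)))) X :=
    ContDiffAt.comp (g := Real.arcsin) (f := fun X => (cC X / Real.sqrt (1 - cB X^2))) X q1 hq
  have a2 : ContDiffAt ℝ ((⊤ : ℕ∞) : WithTop ℕ∞) (Real.arcsin ∘ cB) X :=
    ContDiffAt.comp (g := Real.arcsin) (f := cB) X q2 hB
  exact ((a1.pow 2).add (a2.pow 2)).div_const _

lemma rho_ge1 (X : E3) : Real.arcsin (cB X)^2 / π^2 ≤ rho X := by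
  unfold rho
  have hpi := Real.pi_pos
  gcongr
  nlinarith [sq_nonneg (Real.arcsin (cC X / Real.sqrt (1 - cB X^2)))]

lemma rho_ge2 (X : E3) : Real.arcsin (cC X / Real.sqrt (1 - cB X^2))^2 / π^2 ≤ rho X := by
  unfold rho
  have hpi := Real.pi_pos
  gcongr
  nlinarith [sq_nonneg (Real.arcsin (cB X))]

lemma arcsin_small {y : ℝ} (h : Real.arcsin y^2 / π^2 ≤ 1/100) : |Real.arcsin y| ≤ π/10 ∧ |y| < 1 := by
  have hpi := Real.pi_pos
  have h1 : Real.arcsin y^2 ≤ (π/10)^2 := by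
    rw [div_le_iff₀ (by positivity)] at h; nlinarith
  have h2 : |Real.arcsin y| ≤ π/10 := abs_le_of_sq_le_sq h1 (by positivity)
  refine ⟨h2, ?_⟩
  have h3 := abs_le.1 h2
  rw [abs_lt]
  constructor
  · exact Real.neg_pi_div_two_lt_arcsin.1 (by linarith)
  · exact Real.arcsin_lt_pi_div_two.1 (by linarith)

lemma Gl_contDiffAt {X : E3} (h : 0 < DD X) (v w : E3) :
    ContDiffAt ℝ ((⊤ : ℕ∞) : WithTop ℕ∞) (fun X => Gl X v w) X := by
  have hB := cB_contDiffAt h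
  have hC := cC_contDiffAt h
  have hzero : (∀ᶠ Y in 𝓝 X, 1/100 < rho Y) → ContDiffAt ℝ ((⊤ : ℕ∞) : WithTop ℕ∞) (fun X => Gl X v w) X := by
    intro hev
    apply (contDiffAt_const (c := (0 : ℝ))).congr_of_eventuallyEq
    filter_upwards [hev] with Y hY
    rw [Gl_apply, MM_right hY.le, zero_div, zero_mul]
  by_cases h1 : 1/100 < Real.arcsin (cB X)^2 / π^2
  · apply hzero
    have hc : ContinuousAt (fun Y => Real.arcsin (cB Y)^2 / π^2) X :=
      ((Real.continuous_arcsin.continuousAt.comp hB.continuousAt).pow 2).div_const _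
    filter_upwards [hc.eventually (lt_mem_nhds h1)] with Y hY
    exact lt_of_lt_of_le hY (rho_ge1 Y)
  · rw [not_lt] at h1
    obtain ⟨_, h2⟩ := arcsin_small h1
    have h2' := abs_lt.1 h2
    have h3 : 0 < 1 - cB X^2 := by nlinarith
    have hrc : ContinuousAt rho X := by
      have c1 : ContinuousAt (fun X => cC X / Real.sqrt (1 - cB X^2)) X :=
        hC.continuousAt.div (Real.continuous_sqrt.continuousAt.comp (continuousAt_const.sub (hB.continuousAt.pow 2)))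
          (Real.sqrt_pos.2 h3).ne'
      exact (((Real.continuous_arcsin.continuousAt.comp c1).pow 2).add
        ((Real.continuous_arcsin.continuousAt.comp hB.continuousAt).pow 2)).div_const _
    by_cases h4 : 1/100 < rho X
    · exact hzero (hrc.eventually (lt_mem_nhds h4))
    · rw [not_lt] at h4
      obtain ⟨_, h5⟩ := arcsin_small ((rho_ge2 X).trans h4)
      have hr := rho_contDiffAt h h2 h5
      simp_rw [Gl_apply]
      have hM : ContDiffAt ℝ ((⊤ : ℕ∞) : WithTop ℕ∞) (fun X => MM (rho X)) X :=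
        ContDiffAt.comp (g := MM) (f := rho) X MM_contDiff.contDiffAt hr
      exact (hM.div_const 4).mul ((fd_contDiffAt hr v).mul (fd_contDiffAt hr w))

lemma chi_contDiff : ContDiff ℝ ((⊤ : ℕ∞) : WithTop ℕ∞) chi :=
  Real.smoothTransition.contDiff.comp (contDiff_const.mul (DD_contDiff.sub contDiff_const))

theorem GG_contDiff : ContDiff ℝ ((⊤ : ℕ∞) : WithTop ℕ∞) GG := by
  rw [contDiff_clm_apply_iff]
  intro v
  rw [contDiff_clm_apply_iff]
  intro w
  rw [contDiff_iff_contDiffAt]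
  intro X
  simp_rw [GG_apply]
  by_cases h : 0 < DD X
  · exact (chi_contDiff.contDiffAt.mul ((Gf_contDiffAt h v w).sub (Gl_contDiffAt h v w))).add
      ((contDiffAt_const.sub chi_contDiff.contDiffAt).mul contDiffAt_const)
  · rw [not_lt] at h
    apply (contDiffAt_const (c := G0 v w)).congr_of_eventuallyEq
    have : ∀ᶠ Y in 𝓝 X, DD Y < 1/100 :=
      DD_contDiff.continuous.continuousAt.eventually (gt_mem_nhds (by linarith))
    filter_upwards [this] with Y hY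
    unfold chi
    rw [Real.smoothTransition.zero_of_nonpos (by linarith)]
    ring

lemma GG_symm (X v w : E3) : GG X v w = GG X w v := by
  rw [GG_apply, GG_apply, Gf_apply, Gf_apply, Gl_apply, Gl_apply, G0_apply, G0_apply]
  ring

end Pool.Agent.H790
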