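import Mathlib
import Pool.Agent.H790.Metric

set_option autoImplicit false
open Real Set MeasureTheory Filter Topology

namespace Pool.Agent.H790

lemma fderiv_along {f : E3 → ℝ} {σ : ℝ → E3} {v : E3} {u : ℝ} {g : ℝ → ℝ} {g' : ℝ}
    (hf : DifferentiableAt ℝ f (σ u)) (hσ : HasDerivAt σ v u) (hg : HasDerivAt g g' u)
    (he : (fun t => f (σ t)) =ᶠ[𝓝 u] g) : fderiv ℝ f (σ u) v = g' := by
  have h1 : HasDerivAt (fun t => f (σ t)) (fderiv ℝ f (σ u) v) u := hf.hasFDerivAt.comp_hasDerivAt u hσ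
  exact h1.unique (hg.congr_of_eventuallyEq he)

/-- data of a curve on the cone, lifted -/
structure Lift (σ : ℝ → E3) (v : E3) (z : ℝ → ℂ) (ξ : ℂ) (r : ℝ → ℝ) (s u : ℝ) : Prop where
  hσ : HasDerivAt σ v u
  hz : HasDerivAt z ξ u
  hr : HasDerivAt r s u
  pos : 0 < r u
  eq : ∀ᶠ t in 𝓝 u, σ t = r t • NN (z t)
  hD : 0 < DD (σ u)

section lift
variable {σ : ℝ → E3} {v : E3} {z : ℝ → ℂ} {ξ : ℂ} {r : ℝ → ℝ} {s u : ℝ}

lemma Lift.re (h : Lift σ v z ξ r s u) : HasDerivAt (fun t => (z t).re) ξ.re u :=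
  Complex.reCLM.hasFDerivAt.comp_hasDerivAt u h.hz
lemma Lift.im (h : Lift σ v z ξ r s u) : HasDerivAt (fun t => (z t).im) ξ.im u :=
  Complex.imCLM.hasFDerivAt.comp_hasDerivAt u h.hz
lemma Lift.rpos (h : Lift σ v z ξ r s u) : ∀ᶠ t in 𝓝 u, 0 < r t :=
  h.hr.continuousAt.eventually (lt_mem_nhds h.pos)
lemma Lift.equ (h : Lift σ v z ξ r s u) : σ u = r u • NN (z u) := h.eq.self_of_nhds

lemma Lift.dA (h : Lift σ v z ξ r s u) :
    fderiv ℝ cA (σ u) v = -Real.sin (π * (z u).re) * (π * ξ.re) := by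
  apply fderiv_along ((cA_contDiffAt h.hD).differentiableAt (by simp)) h.hσ
    (g := fun t => Real.cos (π * (z t).re))
  · exact (h.re.const_mul π).cos
  · filter_upwards [h.eq, h.rpos] with t ht hp
    rw [ht, cA_cone hp]

lemma Lift.dB (h : Lift σ v z ξ r s u) :
    fderiv ℝ cB (σ u) v = -Real.sin (π * (z u).im) * (π * ξ.im) := by
  apply fderiv_along ((cB_contDiffAt h.hD).differentiableAt (by simp)) h.hσ
    (g := fun t => Real.cos (π * (z t).im))
  · exact (h.im.const_mul π).cos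
  · filter_upwards [h.eq, h.rpos] with t ht hp
    rw [ht, cB_cone hp]

lemma Lift.dC (h : Lift σ v z ξ r s u) :
    fderiv ℝ cC (σ u) v = Real.cos (π * (z u).re) * (π * ξ.re) * Real.sin (π * (z u).im) +
      Real.sin (π * (z u).re) * (Real.cos (π * (z u).im) * (π * ξ.im)) := by
  apply fderiv_along ((cC_contDiffAt h.hD).differentiableAt (by simp)) h.hσ
    (g := fun t => Real.sin (π * (z t).re) * Real.sin (π * (z t).im))
  · exact ((h.re.const_mul π).sin).mul ((h.im.const_mul π).sin)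
  · filter_upwards [h.eq, h.rpos] with t ht hp
    rw [ht, cC_cone hp]

lemma Lift.Gf_eq (h : Lift σ v z ξ r s u) : Gf (σ u) v v = ξ.re^2 + ξ.im^2 := by
  have hA : cA (σ u) = Real.cos (π * (z u).re) := by rw [h.equ, cA_cone h.pos]
  have hB : cB (σ u) = Real.cos (π * (z u).im) := by rw [h.equ, cB_cone h.pos]
  have hC : cC (σ u) = Real.sin (π * (z u).re) * Real.sin (π * (z u).im) := by rw [h.equ, cC_cone h.pos]
  have d1 := den1_pos h.hD
  have d2 := den2_pos h.hD
  have e1 : eta (σ u) v = (1 - cB (σ u)^2) * fderiv ℝ cC (σ u) v + (cC (σ u) * cB (σ u)) * fderiv ℝ cB (σ u) v := by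
    simp [eta]
  have e2 : zet (σ u) v = (1 - cA (σ u)^2) * fderiv ℝ cC (σ u) v + (cC (σ u) * cA (σ u)) * fderiv ℝ cA (σ u) v := by
    simp [zet]
  rw [Gf_apply, e1, e2, h.dA, h.dB, h.dC]
  unfold w1 w2
  rw [hA, hB, hC] at *
  have s1 := Real.sin_sq (π * (z u).re)
  have s2 := Real.sin_sq (π * (z u).im)
  set sx := Real.sin (π * (z u).re)
  set sy := Real.sin (π * (z u).im)
  set cx := Real.cos (π * (z u).re)
  set cy := Real.cos (π * (z u).im)
  have hcx : cx^2 = 1 - sx^2 := by linarith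
  have hcy : cy^2 = 1 - sy^2 := by linarith
  have t1 : 1 - cx^2 = sx^2 := by linarith
  have t2 : 1 - cy^2 = sy^2 := by linarith
  rw [t1, t2] at d1 d2 ⊢
  have n1 : (1 + (sy^2)^3) * (-sx * (π * ξ.re) * (-sx * (π * ξ.re))) +
      (sy^2 * (cx * (π * ξ.re) * sy + sx * (cy * (π * ξ.im))) + sx * sy * cy * (-sy * (π * ξ.im))) *
      (sy^2 * (cx * (π * ξ.re) * sy + sx * (cy * (π * ξ.im))) + sx * sy * cy * (-sy * (π * ξ.im))) =
      π^2 * (sx^2 + (sy^2)^3) * ξ.re^2 := by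
    linear_combination (sy^6 * π^2 * ξ.re^2) * hcx
  have n2 : (1 + (sx^2)^3) * (-sy * (π * ξ.im) * (-sy * (π * ξ.im))) +
      (sx^2 * (cx * (π * ξ.re) * sy + sx * (cy * (π * ξ.im))) + sx * sy * cx * (-sx * (π * ξ.re))) *
      (sx^2 * (cx * (π * ξ.re) * sy + sx * (cy * (π * ξ.im))) + sx * sy * cx * (-sx * (π * ξ.re))) =
      π^2 * (sy^2 + (sx^2)^3) * ξ.im^2 := by
    linear_combination (sx^6 * π^2 * ξ.im^2) * hcy
  rw [n1, n2]
  have hpi := Real.pi_pos
  have g1 : 0 < π^2 * (sx^2 + (sy^2)^3) := by positivity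
  have g2 : 0 < π^2 * (sy^2 + (sx^2)^3) := by positivity
  rw [one_div, one_div, inv_mul_cancel_left₀ g1.ne', inv_mul_cancel_left₀ g2.ne']

end lift

/-- trigonometric reduction to a lens centre -/
lemma trig_center (P : ℂ) (n m : ℤ) : ∃ ε δ : ℝ, (ε = 1 ∨ ε = -1) ∧ (δ = 1 ∨ δ = -1) ∧
    Real.sin (π * P.im) = ε * Real.cos (π * (P.im - (m + 1/2))) ∧
    Real.cos (π * P.im) = -ε * Real.sin (π * (P.im - (m + 1/2))) ∧
    Real.sin (π * P.re) = δ * Real.sin (π * (P.re - n)) := by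
  refine ⟨(-1)^m, (-1)^n, ?_, ?_, ?_, ?_, ?_⟩
  · rcases Int.even_or_odd m with h | h
    · left; exact h.neg_one_zpow
    · right; exact h.neg_one_zpow
  · rcases Int.even_or_odd n with h | h
    · left; exact h.neg_one_zpow
    · right; exact h.neg_one_zpow
  · have : π * P.im = (π * (P.im - (m + 1/2)) + π/2) + m * π := by ring
    rw [this, Real.sin_add_int_mul_pi, Real.sin_add_pi_div_two]
  · have : π * P.im = (π * (P.im - (m + 1/2)) + π/2) + m * π := by ring
    rw [this, Real.cos_add_int_mul_pi, Real.cos_add_pi_div_two]; ring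
  · have : π * P.re = π * (P.re - n) + n * π := by ring
    rw [this, Real.sin_add_int_mul_pi]

lemma arcsin_sign_sq {ε y : ℝ} (hε : ε = 1 ∨ ε = -1) : Real.arcsin (ε * y)^2 = Real.arcsin y^2 := by
  rcases hε with h | h <;> subst h
  · rw [one_mul]
  · rw [neg_one_mul, Real.arcsin_neg]; ring

lemma rho_cone {r : ℝ} (hr : 0 < r) (P : ℂ) (n m : ℤ) (hc : Real.cos (π * (P.im - (m + 1/2))) ≠ 0) :
    rho (r • NN P) = (Real.arcsin (Real.sin (π * (P.re - n)))^2 + Real.arcsin (Real.sin (π * (P.im - (m + 1/2))))^2) / π^2 := by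
  obtain ⟨ε, δ, hε, hδ, h1, h2, h3⟩ := trig_center P n m
  unfold rho
  rw [cC_cone hr, cB_cone hr, h1, h2, h3]
  set c := Real.cos (π * (P.im - (m + 1/2)))
  set s := Real.sin (π * (P.im - (m + 1/2)))
  set t := Real.sin (π * (P.re - n))
  have hε2 : ε^2 = 1 := by rcases hε with h | h <;> rw [h] <;> norm_num
  have hcs : 1 - (-ε * s)^2 = c^2 := by
    have := Real.sin_sq_add_cos_sq (π * (P.im - (m + 1/2)))
    have e : s^2 + c^2 = 1 := this
    linear_combination (-s^2) * hε2 - e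
  rw [hcs, Real.sqrt_sq_eq_abs]
  have hsgn : ∃ κ : ℝ, (κ = 1 ∨ κ = -1) ∧ δ * t * (ε * c) / |c| = κ * t := by
    rcases lt_or_gt_of_ne hc with h | h
    · rw [abs_of_neg h]
      rcases hε with e1 | e1 <;> rcases hδ with e2 | e2 <;> rw [e1, e2]
      · exact ⟨-1, Or.inr rfl, by field_simp⟩
      · exact ⟨1, Or.inl rfl, by field_simp⟩
      · exact ⟨1, Or.inl rfl, by field_simp⟩
      · exact ⟨-1, Or.inr rfl, by field_simp⟩
    · rw [abs_of_pos h]
      rcases hε with e1 | e1 <;> rcases hδ with e2 | e2 <;> rw [e1, e2]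
      · exact ⟨1, Or.inl rfl, by field_simp⟩
      · exact ⟨-1, Or.inr rfl, by field_simp⟩
      · exact ⟨-1, Or.inr rfl, by field_simp⟩
      · exact ⟨1, Or.inl rfl, by field_simp⟩
  obtain ⟨κ, hκ, hκe⟩ := hsgn
  rw [hκe, arcsin_sign_sq hκ, arcsin_sign_sq (ε := -ε) (by rcases hε with h | h <;> rw [h] <;> simp)]

lemma arcsin_sin_pi {x : ℝ} (h : |x| ≤ 1/2) : Real.arcsin (Real.sin (π * x)) = π * x := by
  have h' := abs_le.1 h
  have hpi := Real.pi_pos
  apply Real.arcsin_sin <;> nlinarith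

lemma rho_near {r : ℝ} (hr : 0 < r) (P : ℂ) (n m : ℤ) (h1 : |P.re - n| ≤ 1/2) (h2 : |P.im - (m + 1/2)| < 1/2) :
    rho (r • NN P) = (P.re - n)^2 + (P.im - (m + 1/2))^2 := by
  have hpi := Real.pi_pos
  have h2' := abs_lt.1 h2
  rw [rho_cone hr P n m, arcsin_sin_pi h1, arcsin_sin_pi h2.le]
  · field_simp
  · apply ne_of_gt
    apply Real.cos_pos_of_mem_Ioo
    constructor <;> nlinarith

lemma sin_far {t : ℝ} (h1 : 1/10 ≤ |t|) (h2 : |t| ≤ 4/5) : Real.sin (π/10) ≤ |Real.sin (π * t)| := by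
  have hpi := Real.pi_pos
  have key : ∀ t : ℝ, 1/10 ≤ t → t ≤ 4/5 → Real.sin (π/10) ≤ Real.sin (π * t) := by
    intro t h1 h2
    rcases le_total t (1/2) with h | h
    · apply Real.sin_le_sin_of_le_of_le_pi_div_two <;> nlinarith
    · rw [← Real.sin_pi_sub (π * t)]
      apply Real.sin_le_sin_of_le_of_le_pi_div_two <;> nlinarith
  rcases le_total 0 t with h | h
  · rw [abs_of_nonneg h] at h1 h2
    exact (key t h1 h2).trans (le_abs_self _)
  · rw [abs_of_nonpos h] at h1 h2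
    have := key (-t) h1 h2
    rw [mul_neg, Real.sin_neg] at this
    exact this.trans (neg_le_abs _)

lemma arcsin_lt_sin {y : ℝ} (hy : |y| ≤ 1) (h : Real.arcsin y^2 / π^2 < 1/100) : |y| < Real.sin (π/10) := by
  have hpi := Real.pi_pos
  have h1 : Real.arcsin y^2 < (π/10)^2 := by
    rw [div_lt_iff₀ (by positivity)] at h; nlinarith
  have h2 : |Real.arcsin y| < π/10 := abs_lt_of_sq_lt_sq h1 (by positivity)
  have h3 := abs_lt.1 h2
  have hy' := abs_le.1 hy
  rw [abs_lt]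
  constructor
  · have := Real.sin_lt_sin_of_lt_of_le_pi_div_two (x := -(π/10)) (y := Real.arcsin y) (by linarith) (by linarith) (by linarith)
    rw [Real.sin_arcsin hy'.1 hy'.2, Real.sin_neg] at this
    exact this
  · have := Real.sin_lt_sin_of_lt_of_le_pi_div_two (x := Real.arcsin y) (y := π/10) (by linarith) (by linarith) (by linarith)
    rw [Real.sin_arcsin hy'.1 hy'.2] at this
    exact this

lemma rho_far {r : ℝ} (hr : 0 < r) (P : ℂ) (n m : ℤ) (h : (P.re - n)^2 + (P.im - (m + 1/2))^2 < 16/25)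
    (h' : 1/4 ≤ (P.re - n)^2 + (P.im - (m + 1/2))^2) : 1/100 ≤ rho (r • NN P) := by
  by_contra hcon
  push Not at hcon
  have hx : |P.re - n| ≤ 4/5 := abs_le_of_sq_le_sq (by nlinarith [sq_nonneg (P.im - (m + 1/2))]) (by norm_num)
  have hy : |P.im - (m + 1/2)| ≤ 4/5 := abs_le_of_sq_le_sq (by nlinarith [sq_nonneg (P.re - n)]) (by norm_num)
  obtain ⟨ε, δ, hε, hδ, h1, h2, h3⟩ := trig_center P n m
  have hB := lt_of_le_of_lt (rho_ge1 (r • NN P)) hcon
  rw [cB_cone hr, h2, arcsin_sign_sq (ε := -ε) (by rcases hε with h | h <;> rw [h] <;> simp)] at hB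
  have b1 := arcsin_lt_sin (Real.abs_sin_le_one _) hB
  have b2 : |P.im - (m + 1/2)| < 1/10 := by
    by_contra hc; push Not at hc
    have := sin_far hc hy; linarith
  have hcne : Real.cos (π * (P.im - (m + 1/2))) ≠ 0 := by
    apply ne_of_gt
    have hpi := Real.pi_pos
    have b2' := abs_lt.1 b2
    apply Real.cos_pos_of_mem_Ioo
    constructor <;> nlinarith
  rw [rho_cone hr P n m hcne] at hcon
  have hA : Real.arcsin (Real.sin (π * (P.re - n)))^2 / π^2 < 1/100 := by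
    refine lt_of_le_of_lt ?_ hcon
    have hpi := Real.pi_pos
    gcongr
    nlinarith [sq_nonneg (Real.arcsin (Real.sin (π * (P.im - (m + 1/2)))))]
  have a1 := arcsin_lt_sin (Real.abs_sin_le_one _) hA
  have a2 : |P.re - n| < 1/10 := by
    by_contra hc; push Not at hc
    have := sin_far hc hx; linarith
  have a3 := abs_lt.1 a2
  have b3 := abs_lt.1 b2
  nlinarith

/-- lens centre -/
noncomputable def ctr (n m : ℤ) : ℂ := ⟨(n : ℝ), (m : ℝ) + 1/2⟩

section lift2
variable {σ : ℝ → E3} {v : E3} {z : ℝ → ℂ} {ξ : ℂ} {r : ℝ → ℝ} {s u : ℝ}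

lemma Lift.Gl_eq (h : Lift σ v z ξ r s u) (n m : ℤ) (hc : Complex.normSq (z u - ctr n m) < 16/25) :
    Gl (σ u) v v = MM (Complex.normSq (z u - ctr n m)) *
      ((z u - ctr n m).re * ξ.re + (z u - ctr n m).im * ξ.im)^2 := by
  have hre : (z u - ctr n m).re = (z u).re - n := by simp [ctr]
  have him : (z u - ctr n m).im = (z u).im - (m + 1/2) := by simp [ctr]
  have hns : Complex.normSq (z u - ctr n m) = ((z u).re - n)^2 + ((z u).im - (m + 1/2))^2 := by
    rw [Complex.normSq_apply, hre, him]; ring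
  rw [hns] at hc ⊢
  rw [Gl_apply, hre, him]
  rcases lt_or_ge (((z u).re - n)^2 + ((z u).im - (m + 1/2))^2) (1/4) with h4 | h4
  · have q1 : |(z u).re - n| < 1/2 := abs_lt_of_sq_lt_sq (by nlinarith [sq_nonneg ((z u).im - (m + 1/2))]) (by norm_num)
    have q2 : |(z u).im - (m + 1/2)| < 1/2 := abs_lt_of_sq_lt_sq (by nlinarith [sq_nonneg ((z u).re - n)]) (by norm_num)
    have hrho : rho (σ u) = ((z u).re - n)^2 + ((z u).im - (m + 1/2))^2 := by
      rw [h.equ]; exact rho_near h.pos _ n m q1.le q2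
    have hdiff : DifferentiableAt ℝ rho (σ u) := by
      apply (rho_contDiffAt h.hD ?_ ?_).differentiableAt (by simp)
      · have : Real.arcsin (cB (σ u))^2 / π^2 < 1/4 := lt_of_le_of_lt (rho_ge1 _) (by rw [hrho]; exact h4)
        have hpi := Real.pi_pos
        have h1 : Real.arcsin (cB (σ u))^2 < (π/2)^2 := by
          rw [div_lt_iff₀ (by positivity)] at this; nlinarith
        have h3 := abs_lt.1 (abs_lt_of_sq_lt_sq h1 (by positivity))
        rw [abs_lt]
        exact ⟨Real.neg_pi_div_two_lt_arcsin.1 h3.1, Real.arcsin_lt_pi_div_two.1 h3.2⟩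
      · have : Real.arcsin (cC (σ u) / Real.sqrt (1 - cB (σ u)^2))^2 / π^2 < 1/4 :=
          lt_of_le_of_lt (rho_ge2 _) (by rw [hrho]; exact h4)
        have hpi := Real.pi_pos
        have h1 : Real.arcsin (cC (σ u) / Real.sqrt (1 - cB (σ u)^2))^2 < (π/2)^2 := by
          rw [div_lt_iff₀ (by positivity)] at this; nlinarith
        have h3 := abs_lt.1 (abs_lt_of_sq_lt_sq h1 (by positivity))
        rw [abs_lt]
        exact ⟨Real.neg_pi_div_two_lt_arcsin.1 h3.1, Real.arcsin_lt_pi_div_two.1 h3.2⟩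
    have hg : HasDerivAt (fun t => ((z t).re - n)^2 + ((z t).im - (m + 1/2))^2)
        (2 * (((z u).re - n) * ξ.re + ((z u).im - (m + 1/2)) * ξ.im)) u := by
      have e1 := (h.re.sub_const (n : ℝ)).pow 2
      have e2 := (h.im.sub_const ((m : ℝ) + 1/2)).pow 2
      exact (e1.add e2).congr_deriv (by push_cast; ring)
    have hfd := fderiv_along hdiff h.hσ hg (by
      have c1 : ∀ᶠ t in 𝓝 u, |(z t).re - n| < 1/2 :=
        ((h.re.continuousAt.sub continuousAt_const).abs).eventually (gt_mem_nhds q1)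
      have c2 : ∀ᶠ t in 𝓝 u, |(z t).im - (m + 1/2)| < 1/2 :=
        ((h.im.continuousAt.sub continuousAt_const).abs).eventually (gt_mem_nhds q2)
      filter_upwards [h.eq, h.rpos, c1, c2] with t ht hp h1 h2
      rw [ht]; exact rho_near hp _ n m h1.le h2)
    rw [hfd, hrho]; ring
  · have : 1/100 ≤ rho (σ u) := by rw [h.equ]; exact rho_far h.pos _ n m hc h4
    rw [MM_right this, MM_right (show 1/100 ≤ ((z u).re - n)^2 + ((z u).im - (m + 1/2))^2 by linarith)]
    ring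

theorem Lift.GG_eq (h : Lift σ v z ξ r s u) (n m : ℤ) (hc : Complex.normSq (z u - ctr n m) < 16/25)
    (hchi : 1/50 ≤ DD (σ u)) : GG (σ u) v v = QQ (z u - ctr n m) ξ := by
  rw [GG_apply, h.Gf_eq, h.Gl_eq n m hc]
  have : chi (σ u) = 1 := by
    unfold chi; exact Real.smoothTransition.one_of_one_le (by linarith)
  rw [this]; unfold QQ; ring

end lift2

lemma near_ctr (P : ℂ) : ∃ n m : ℤ, Complex.normSq (P - ctr n m) < 16/25 := by
  refine ⟨round P.re, round (P.im - 1/2), ?_⟩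
  have h1 := abs_le.1 (abs_sub_round P.re)
  have h2 := abs_le.1 (abs_sub_round (P.im - 1/2))
  rw [Complex.normSq_apply]
  simp only [ctr, Complex.sub_re, Complex.sub_im]
  nlinarith

lemma QQ_pos {z ξ : ℂ} (h : ξ ≠ 0) : 0 < QQ z ξ := by
  unfold QQ
  have h1 : 0 < ξ.re^2 + ξ.im^2 := by
    have := Complex.normSq_pos.2 h
    rw [Complex.normSq_apply] at this; nlinarith
  have h2 := MM_mul (Complex.normSq z)
  have h3 : MM (Complex.normSq z) * Complex.normSq z ≤ 99/100 := by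
    have := al_le (Complex.normSq z)
    rw [h2]; nlinarith [al_nonneg (Complex.normSq z)]
  have h4 : 0 ≤ MM (Complex.normSq z) := MM_nonneg (Complex.normSq_nonneg z)
  have h5 : (z.re * ξ.re + z.im * ξ.im)^2 ≤ Complex.normSq z * (ξ.re^2 + ξ.im^2) := by
    rw [Complex.normSq_apply]; nlinarith [sq_nonneg (z.re * ξ.im - z.im * ξ.re)]
  nlinarith [mul_le_mul_of_nonneg_left h5 h4]

end Pool.Agent.H790
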