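import Mathlib
import Pool.Agent.H790.Pull

set_option autoImplicit false
open Real Set MeasureTheory Filter Topology

namespace Pool.Agent.H790

lemma exists_rep {X : E3} (h : 0 < DD X) : ∃ (P : ℂ) (r : ℝ), 0 < r ∧ X = r • NN P := by
  obtain ⟨h1, h2, h3, h4⟩ := cc_rel h
  have hs := sE_pos h
  have hpi := Real.pi_pos
  have a1 : -1 ≤ cA X := by nlinarith
  have a2 : cA X ≤ 1 := by nlinarith
  have b1 : -1 ≤ cB X := by nlinarith
  have b2 : cB X ≤ 1 := by nlinarith
  set ε : ℝ := if 0 ≤ cC X then 1 else -1 with hε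
  have hcos : Real.cos (π * (ε * Real.arccos (cB X) / π)) = cB X := by
    rw [mul_div_cancel₀ _ hpi.ne']
    rw [hε]; split_ifs
    · rw [one_mul, Real.cos_arccos b1 b2]
    · rw [neg_one_mul, Real.cos_neg, Real.cos_arccos b1 b2]
  have hsin : Real.sin (π * (ε * Real.arccos (cB X) / π)) = ε * Real.sqrt (1 - cB X^2) := by
    rw [mul_div_cancel₀ _ hpi.ne']
    rw [hε]; split_ifs
    · rw [one_mul, one_mul, Real.sin_arccos]
    · rw [neg_one_mul, Real.sin_neg, neg_one_mul, Real.sin_arccos]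
  have hcos2 : Real.cos (π * (Real.arccos (cA X) / π)) = cA X := by
    rw [mul_div_cancel₀ _ hpi.ne', Real.cos_arccos a1 a2]
  have hsin2 : Real.sin (π * (Real.arccos (cA X) / π)) = Real.sqrt (1 - cA X^2) := by
    rw [mul_div_cancel₀ _ hpi.ne', Real.sin_arccos]
  have hC : Real.sqrt (1 - cA X^2) * (ε * Real.sqrt (1 - cB X^2)) = cC X := by
    have : Real.sqrt (1 - cA X^2) * Real.sqrt (1 - cB X^2) = |cC X| := by
      rw [← Real.sqrt_mul h1, ← h4, Real.sqrt_sq_eq_abs]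
    calc _ = ε * (Real.sqrt (1 - cA X^2) * Real.sqrt (1 - cB X^2)) := by ring
      _ = ε * |cC X| := by rw [this]
      _ = cC X := by
        rw [hε]; split_ifs with h
        · rw [abs_of_nonneg h, one_mul]
        · rw [abs_of_neg (not_le.1 h)]; ring
  refine ⟨⟨Real.arccos (cA X) / π, ε * Real.arccos (cB X) / π⟩, Real.sqrt (EE X), hs, ?_⟩
  have key : ∀ i : Fin 3, X i = (Real.sqrt (EE X) • NN ⟨Real.arccos (cA X) / π, ε * Real.arccos (cB X) / π⟩) i := by
    intro i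
    fin_cases i
    · show X 0 = Real.sqrt (EE X) * Real.cos (π * (Real.arccos (cA X) / π))
      rw [hcos2]; unfold cA; field_simp
    · show X 1 = Real.sqrt (EE X) * Real.cos (π * (ε * Real.arccos (cB X) / π))
      rw [hcos]; unfold cB; field_simp
    · show X 2 = Real.sqrt (EE X) * (Real.sin (π * (Real.arccos (cA X) / π)) * Real.sin (π * (ε * Real.arccos (cB X) / π)))
      rw [hsin, hsin2, hC]; unfold cC; field_simp
  ext i
  exact key i

lemma NN_contDiff : ContDiff ℝ ((⊤ : ℕ∞) : WithTop ℕ∞) NN := by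
  rw [contDiff_euclidean]
  have hre : ContDiff ℝ ((⊤ : ℕ∞) : WithTop ℕ∞) (fun P : ℂ => π * P.re) := contDiff_const.mul Complex.reCLM.contDiff
  have him : ContDiff ℝ ((⊤ : ℕ∞) : WithTop ℕ∞) (fun P : ℂ => π * P.im) := contDiff_const.mul Complex.imCLM.contDiff
  intro i
  fin_cases i
  · exact hre.cos
  · exact him.cos
  · exact hre.sin.mul him.sin

noncomputable def cone (p : ℂ × ℝ) : E3 := p.2 • NN p.1

lemma cone_contDiff : ContDiff ℝ ((⊤ : ℕ∞) : WithTop ℕ∞) cone :=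
  contDiff_snd.smul (NN_contDiff.comp contDiff_fst)

section lift3
variable {σ : ℝ → E3} {v : E3} {z : ℝ → ℂ} {ξ : ℂ} {r : ℝ → ℝ} {s u : ℝ}

lemma Lift.dr (h : Lift σ v z ξ r s u) : fderiv ℝ (fun X => Real.sqrt (EE X)) (σ u) v = s := by
  apply fderiv_along ((sE_contDiffAt h.hD).differentiableAt (by simp)) h.hσ h.hr
  filter_upwards [h.eq, h.rpos] with t ht hp
  rw [ht, sE_cone hp]

lemma Lift.inj (h : Lift σ 0 z ξ r s u) : ξ = 0 ∧ s = 0 := by
  have e1 := h.dA
  have e2 := h.dB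
  have e3 := h.dC
  have e4 := h.dr
  rw [map_zero] at e1 e2 e3 e4
  have hpi := Real.pi_pos
  have hD := h.hD
  rw [h.equ, DD_cone] at hD
  have s1 := Real.sin_sq_add_cos_sq (π * (z u).re)
  have s2 := Real.sin_sq_add_cos_sq (π * (z u).im)
  set sx := Real.sin (π * (z u).re)
  set sy := Real.sin (π * (z u).im)
  set cx := Real.cos (π * (z u).re)
  set cy := Real.cos (π * (z u).im)
  have f1 : sx * ξ.re = 0 := by
    have : π * (sx * ξ.re) = 0 := by linarith
    exact (mul_eq_zero.1 this).resolve_left hpi.ne'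
  have f2 : sy * ξ.im = 0 := by
    have : π * (sy * ξ.im) = 0 := by linarith
    exact (mul_eq_zero.1 this).resolve_left hpi.ne'
  have f3 : cx * ξ.re * sy + sx * (cy * ξ.im) = 0 := by
    have : π * (cx * ξ.re * sy + sx * (cy * ξ.im)) = 0 := by linarith
    exact (mul_eq_zero.1 this).resolve_left hpi.ne'
  refine ⟨?_, e4.symm⟩
  rcases eq_or_ne sx 0 with hx | hx
  · have hy : sy ≠ 0 := by
      intro hy
      rw [hx] at s1; rw [hy] at s2
      have : (cx * cy)^2 = 1 := by rw [mul_pow]; nlinarith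
      rw [this] at hD; simp at hD
    have g2 : ξ.im = 0 := (mul_eq_zero.1 f2).resolve_left hy
    have g1 : ξ.re = 0 := by
      rw [g2, hx] at f3
      have hcx : cx ≠ 0 := by
        intro hc; rw [hc, hx] at s1; norm_num at s1
      have : cx * sy * ξ.re = 0 := by linarith
      exact (mul_eq_zero.1 this).resolve_left (mul_ne_zero hcx hy)
    exact Complex.ext g1 g2
  · have g1 : ξ.re = 0 := (mul_eq_zero.1 f1).resolve_left hx
    have g2 : ξ.im = 0 := by
      rw [g1] at f3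
      have f4 : cy * ξ.im = 0 := by
        have : sx * (cy * ξ.im) = 0 := by linarith
        exact (mul_eq_zero.1 this).resolve_left hx
      have : ξ.im = (sy^2 + cy^2) * ξ.im := by rw [s2, one_mul]
      rw [this]
      linear_combination sy * f2 + cy * f4
    exact Complex.ext g1 g2

end lift3

/-- straight line lift -/
lemma lift_line {P : ℂ} {r : ℝ} (hr : 0 < r) (hD : 0 < DD (r • NN P)) (ξ : ℂ) (s : ℝ) :
    Lift (fun t => cone (P + (t : ℂ) * ξ, r + t * s)) (fderiv ℝ cone (P, r) (ξ, s))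
      (fun t => P + (t : ℂ) * ξ) ξ (fun t => r + t * s) s 0 := by
  have h1 : HasDerivAt (fun t : ℝ => P + (t : ℂ) * ξ) ξ 0 := by
    have := (((hasDerivAt_id (0:ℝ)).ofReal_comp).mul_const ξ).const_add P
    simpa using this
  have h2 : HasDerivAt (fun t : ℝ => r + t * s) s 0 := by
    have := ((hasDerivAt_id (0:ℝ)).mul_const s).const_add r
    simpa using this
  have e0 : ((P + ((0:ℝ) : ℂ) * ξ, r + 0 * s) : ℂ × ℝ) = (P, r) := by simp
  refine ⟨?_, h1, h2, by simpa using hr, Eventually.of_forall fun t => rfl, ?_⟩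
  · have h3 : HasDerivAt (fun t : ℝ => ((P + (t : ℂ) * ξ, r + t * s) : ℂ × ℝ)) (ξ, s) 0 := h1.prodMk h2
    have h4 : HasFDerivAt cone (fderiv ℝ cone (P, r)) ((P + ((0:ℝ) : ℂ) * ξ, r + 0 * s) : ℂ × ℝ) := by
      rw [e0]
      exact (cone_contDiff.differentiable (by simp)).differentiableAt.hasFDerivAt
    exact h4.comp_hasDerivAt (0:ℝ) h3
  · show 0 < DD (cone (P + ((0:ℝ) : ℂ) * ξ, r + 0 * s))
    rw [e0]; exact hD

lemma fderiv_cone_inj {P : ℂ} {r : ℝ} (hr : 0 < r) (hD : 0 < DD (r • NN P)) :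
    Function.Injective (fderiv ℝ cone (P, r)) := by
  rw [injective_iff_map_eq_zero]
  rintro ⟨ξ, s⟩ h
  have hl := lift_line hr hD ξ s
  rw [h] at hl
  have := hl.inj
  rw [this.1, this.2]; rfl

lemma finrank_eq : Module.finrank ℝ (ℂ × ℝ) = Module.finrank ℝ E3 := by
  rw [Module.finrank_prod, Complex.finrank_real_complex, Module.finrank_self, finrank_euclideanSpace, Fintype.card_fin]

noncomputable def coneEquiv {P : ℂ} {r : ℝ} (hr : 0 < r) (hD : 0 < DD (r • NN P)) : (ℂ × ℝ) ≃L[ℝ] E3 :=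
  (LinearMap.linearEquivOfInjective (fderiv ℝ cone (P, r) : (ℂ × ℝ) →ₗ[ℝ] E3) (fderiv_cone_inj hr hD) finrank_eq).toContinuousLinearEquiv

lemma coneEquiv_coe {P : ℂ} {r : ℝ} (hr : 0 < r) (hD : 0 < DD (r • NN P)) :
    (coneEquiv hr hD : (ℂ × ℝ) →L[ℝ] E3) = fderiv ℝ cone (P, r) :=
  ContinuousLinearMap.ext fun _ => rfl

theorem local_inv {P : ℂ} {r : ℝ} (hr : 0 < r) (hD : 0 < DD (r • NN P)) :
    ∃ Ψ : E3 → ℂ × ℝ, Ψ (cone (P, r)) = (P, r) ∧ (∀ᶠ X in 𝓝 (cone (P, r)), DifferentiableAt ℝ Ψ X) ∧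
      (∀ᶠ X in 𝓝 (cone (P, r)), cone (Ψ X) = X) ∧ (∀ᶠ p in 𝓝 (P, r), Ψ (cone p) = p) := by
  have h1 : ContDiffAt ℝ ((⊤ : ℕ∞) : WithTop ℕ∞) cone (P, r) := cone_contDiff.contDiffAt
  have h2 : HasFDerivAt cone (coneEquiv hr hD : (ℂ × ℝ) →L[ℝ] E3) (P, r) := by
    rw [coneEquiv_coe]
    exact (cone_contDiff.differentiable (by simp)).differentiableAt.hasFDerivAt
  have hn : ((⊤ : ℕ∞) : WithTop ℕ∞) ≠ 0 := by simp
  have h3 := h1.hasStrictFDerivAt' h2 hn
  refine ⟨h1.localInverse h2 hn, ?_, ?_, ?_, ?_⟩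
  · exact h3.localInverse_apply_image
  · have h4 := h1.to_localInverse h2 hn
    have h5 : ContDiffAt ℝ 1 (h1.localInverse h2 hn) (cone (P, r)) := h4.of_le (by exact_mod_cast le_top)
    have h6 := h5.eventually (by simp)
    filter_upwards [h6] with X hX
    exact hX.differentiableAt (by simp)
  · exact h3.eventually_right_inverse
  · exact h3.eventually_left_inverse

end Pool.Agent.H790
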