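import Mathlib
import Pool.Agent.H790.Sph

set_option autoImplicit false
open Real Set MeasureTheory Filter Topology

namespace Pool.Agent.H790

lemma G0_self (v : E3) : G0 v v = ‖v‖^2 := by
  rw [G0_apply, norm_sq_E3]; ring

lemma inner_E3 (v w : E3) : inner ℝ v w = G0 v w := by
  rw [G0_apply, EuclideanSpace.inner_eq_star_dotProduct]
  simp [dotProduct, Fin.sum_univ_three]
  ring

theorem GG_pos {X v : E3} (hX : ‖X‖ = 1) (hv : inner ℝ X v = (0:ℝ)) (hne : v ≠ 0) : 0 < GG X v v := by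
  have hn : 0 < ‖v‖^2 := by have := norm_pos_iff.2 hne; positivity
  rcases le_or_gt (DD X) (1/100) with h | h
  · rw [GG_apply, G0_self]
    have : chi X = 0 := by unfold chi; exact Real.smoothTransition.zero_of_nonpos (by linarith)
    rw [this]; linarith
  · have hD : 0 < DD X := by linarith
    obtain ⟨P, r, hr, hXe⟩ := exists_rep hD
    rw [hXe] at hD
    obtain ⟨⟨ξ, s⟩, hξ⟩ := (coneEquiv hr hD).surjective v
    have hξ' : fderiv ℝ cone (P, r) (ξ, s) = v := by
      rw [← coneEquiv_coe hr hD]; exact hξ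
    have hl := lift_line hr hD ξ s
    rw [hξ'] at hl
    have hξne : ξ ≠ 0 := by
      intro h0
      subst h0
      have h1 : HasDerivAt (fun t : ℝ => cone (P + (t : ℂ) * 0, r + t * s)) (s • NN P) 0 := by
        have e : (fun t : ℝ => cone (P + (t : ℂ) * 0, r + t * s)) = fun t : ℝ => (r + t * s) • NN P := by
          ext t : 1; simp [cone]
        rw [e]
        have := (((hasDerivAt_id (0:ℝ)).mul_const s).const_add r).smul_const (NN P)
        simpa using this
      have h2 := hl.hσ.unique h1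
      have h3 : s * r * ‖NN P‖^2 = 0 := by
        rw [hXe, h2, real_inner_smul_left, real_inner_smul_right, real_inner_self_eq_norm_sq] at hv
        linarith
      have hN : ‖NN P‖ ≠ 0 := by
        intro h0
        rw [hXe, norm_smul, h0, mul_zero] at hX
        exact zero_ne_one hX
      have hs : s = 0 := by
        rcases mul_eq_zero.1 h3 with h4 | h4
        · exact (mul_eq_zero.1 h4).resolve_right hr.ne'
        · exact absurd (pow_eq_zero_iff (two_ne_zero)|>.1 h4) hN
      apply hne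
      rw [h2, hs, zero_smul]
    obtain ⟨n, m, hnm⟩ := near_ctr P
    have e0 : cone (P + ((0:ℝ) : ℂ) * ξ, r + (0:ℝ) * s) = X := by
      simp only [Complex.ofReal_zero, zero_mul, add_zero]; rw [hXe]; rfl
    have e1 : P + ((0:ℝ) : ℂ) * ξ = P := by simp
    have g1 := hl.Gf_eq
    have g2 := hl.Gl_eq n m (by rw [e1]; exact hnm)
    rw [e0] at g1 g2
    rw [e1] at g2
    have g3 := QQ_pos (z := P - ctr n m) hξne
    unfold QQ at g3
    rw [GG_apply, G0_self, g1, g2]
    have c0 : 0 ≤ chi X := Real.smoothTransition.nonneg _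
    have c1 : chi X ≤ 1 := Real.smoothTransition.le_one _
    rcases c0.lt_or_eq with hc | hc
    · have := mul_pos hc g3
      nlinarith [mul_nonneg (show 0 ≤ 1 - chi X by linarith) hn.le]
    · rw [← hc]; linarith

theorem lower_bound : ∃ m : ℝ, 0 < m ∧ ∀ X v : E3, ‖X‖ = 1 → inner ℝ X v = (0:ℝ) → m * ‖v‖ ≤ Real.sqrt (GG X v v) := by
  set K : Set (E3 × E3) := {p | ‖p.1‖ = 1 ∧ ‖p.2‖ = 1 ∧ inner ℝ p.1 p.2 = (0:ℝ)} with hK
  have hKc : IsCompact K := by
    apply Metric.isCompact_of_isClosed_isBounded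
    · apply IsClosed.inter
      · exact isClosed_eq (by fun_prop) continuous_const
      · apply IsClosed.inter
        · exact isClosed_eq (by fun_prop) continuous_const
        · exact isClosed_eq (by fun_prop) continuous_const
    · apply (Metric.isBounded_closedBall (x := (0 : E3 × E3)) (r := 1)).subset
      intro p hp
      rw [mem_closedBall_zero_iff, Prod.norm_def]
      exact max_le hp.1.le hp.2.1.le
  have hcont : Continuous fun p : E3 × E3 => GG p.1 p.2 p.2 := by
    have h1 : Continuous fun p : E3 × E3 => GG p.1 p.2 :=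
      (GG_contDiff.continuous.comp continuous_fst).clm_apply continuous_snd
    exact h1.clm_apply continuous_snd
  have key : ∀ μ : ℝ, 0 < μ → (∀ p ∈ K, μ ≤ GG p.1 p.2 p.2) →
      ∀ X v : E3, ‖X‖ = 1 → inner ℝ X v = (0:ℝ) → Real.sqrt μ * ‖v‖ ≤ Real.sqrt (GG X v v) := by
    intro μ hμ hp X v hX hv
    rcases eq_or_ne v 0 with h0 | h0
    · subst h0; simp
    · have hn : 0 < ‖v‖ := norm_pos_iff.2 h0
      have h1 := hp (X, (‖v‖)⁻¹ • v) ⟨hX, by
        simp only
        rw [norm_smul, norm_inv, norm_norm, inv_mul_cancel₀ hn.ne'], by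
        simp only
        rw [real_inner_smul_right, hv, mul_zero]⟩
      simp only [map_smul, _root_.smul_apply, smul_eq_mul] at h1
      have h2 : μ * ‖v‖^2 ≤ GG X v v := by
        have h3 : ‖v‖⁻¹ * (‖v‖⁻¹ * GG X v v) = GG X v v / ‖v‖^2 := by field_simp
        rw [h3, le_div_iff₀ (by positivity)] at h1
        exact h1
      calc Real.sqrt μ * ‖v‖ = Real.sqrt (μ * ‖v‖^2) := by
            rw [Real.sqrt_mul hμ.le, Real.sqrt_sq hn.le]
        _ ≤ _ := Real.sqrt_le_sqrt h2
  rcases K.eq_empty_or_nonempty with hE | hN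
  · refine ⟨Real.sqrt 1, by positivity, key 1 one_pos (by rw [hE]; simp)⟩
  · obtain ⟨p, hpK, hpm⟩ := hKc.exists_isMinOn hN hcont.continuousOn
    have hpos : 0 < GG p.1 p.2 p.2 := GG_pos hpK.1 hpK.2.2 (by
      intro h0
      have := hpK.2.1
      rw [h0, norm_zero] at this
      exact zero_ne_one this)
    exact ⟨_, Real.sqrt_pos.2 hpos, key _ hpos (fun q hq => hpm hq)⟩

noncomputable def len (σ : ℝ → E3) : ℝ :=
  ∫ u in (0:ℝ)..1, Real.sqrt (GG (σ u) (deriv σ u) (deriv σ u))

lemma len_cont {σ : ℝ → E3} (hσ : ContDiff ℝ 1 σ) :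
    Continuous fun u => Real.sqrt (GG (σ u) (deriv σ u) (deriv σ u)) := by
  have hd : Continuous (deriv σ) := hσ.continuous_deriv le_rfl
  have h1 : Continuous fun u => GG (σ u) (deriv σ u) :=
    (GG_contDiff.continuous.comp hσ.continuous).clm_apply hd
  exact Real.continuous_sqrt.comp (h1.clm_apply hd)

lemma tangent {σ : ℝ → E3} (hσ : ContDiff ℝ 1 σ) (hs : ∀ u ∈ Icc (0:ℝ) 1, ‖σ u‖ = 1) :
    ∀ u ∈ Icc (0:ℝ) 1, inner ℝ (σ u) (deriv σ u) = (0:ℝ) := by
  have hd : Continuous (deriv σ) := hσ.continuous_deriv le_rfl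
  have hcl : IsClosed {u : ℝ | inner ℝ (σ u) (deriv σ u) = (0:ℝ)} :=
    isClosed_eq (hσ.continuous.inner hd) continuous_const
  have hsub : Ioo (0:ℝ) 1 ⊆ {u : ℝ | inner ℝ (σ u) (deriv σ u) = (0:ℝ)} := by
    intro u hu
    have hdσ : HasDerivAt σ (deriv σ u) u := (hσ.differentiable (by simp)).differentiableAt.hasDerivAt
    have h1 : HasDerivAt (fun u => inner ℝ (σ u) (σ u)) (inner ℝ (σ u) (deriv σ u) + inner ℝ (deriv σ u) (σ u)) u :=
      hdσ.inner ℝ hdσ
    have h2 : (fun u => inner ℝ (σ u) (σ u)) =ᶠ[𝓝 u] fun _ => (1:ℝ) := by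
      filter_upwards [Ioo_mem_nhds hu.1 hu.2] with t ht
      rw [real_inner_self_eq_norm_sq, hs t ⟨ht.1.le, ht.2.le⟩]; norm_num
    have h3 := h1.unique ((hasDerivAt_const u (1:ℝ)).congr_of_eventuallyEq h2)
    rw [real_inner_comm (σ u) (deriv σ u)] at h3
    show inner ℝ (σ u) (deriv σ u) = (0:ℝ)
    have h4 : inner ℝ (deriv σ u) (σ u) = inner ℝ (σ u) (deriv σ u) := real_inner_comm _ _
    linarith
  intro u hu
  have : closure (Ioo (0:ℝ) 1) ⊆ _ := hcl.closure_subset_iff.2 hsub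
  rw [closure_Ioo zero_ne_one] at this
  exact this hu

lemma len_ge {m : ℝ} (hm : 0 < m)
    (hlow : ∀ X v : E3, ‖X‖ = 1 → inner ℝ X v = (0:ℝ) → m * ‖v‖ ≤ Real.sqrt (GG X v v))
    {σ : ℝ → E3} (hσ : ContDiff ℝ 1 σ) (hs : ∀ u ∈ Icc (0:ℝ) 1, ‖σ u‖ = 1) {a : ℝ} (ha : a ∈ Icc (0:ℝ) 1) :
    m * ‖σ a - σ 0‖ ≤ len σ := by
  have hd : Continuous (deriv σ) := hσ.continuous_deriv le_rfl
  have hdσ : ∀ u, HasDerivAt σ (deriv σ u) u := fun u =>
    (hσ.differentiable (by simp)).differentiableAt.hasDerivAt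
  have h1 : ∫ u in (0:ℝ)..a, deriv σ u = σ a - σ 0 :=
    intervalIntegral.integral_eq_sub_of_hasDerivAt (fun u _ => hdσ u) (hd.intervalIntegrable _ _)
  have hc := len_cont hσ
  rw [← h1]
  calc m * ‖∫ u in (0:ℝ)..a, deriv σ u‖ ≤ m * ∫ u in (0:ℝ)..a, ‖deriv σ u‖ := by
        gcongr
        exact intervalIntegral.norm_integral_le_integral_norm ha.1
    _ = ∫ u in (0:ℝ)..a, m * ‖deriv σ u‖ := by rw [intervalIntegral.integral_const_mul]
    _ ≤ ∫ u in (0:ℝ)..a, Real.sqrt (GG (σ u) (deriv σ u) (deriv σ u)) := by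
        apply intervalIntegral.integral_mono_on ha.1
        · exact (continuous_const.mul hd.norm).intervalIntegrable _ _
        · exact hc.intervalIntegrable _ _
        · intro u hu
          have hu' : u ∈ Icc (0:ℝ) 1 := ⟨hu.1, hu.2.trans ha.2⟩
          exact hlow _ _ (hs u hu') (tangent hσ hs u hu')
    _ ≤ len σ := by
        unfold len
        rw [← intervalIntegral.integral_add_adjacent_intervals (hc.intervalIntegrable 0 a) (hc.intervalIntegrable a 1)]
        have : 0 ≤ ∫ u in a..1, Real.sqrt (GG (σ u) (deriv σ u) (deriv σ u)) :=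
          intervalIntegral.integral_nonneg ha.2 (fun u _ => Real.sqrt_nonneg _)
        linarith

end Pool.Agent.H790
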