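import Mathlib
import Pool.Agent.H790.Len

set_option autoImplicit false
open Real Set MeasureTheory Filter Topology

namespace Pool.Agent.H790

noncomputable def kap (P : ℂ) : ℝ := (Real.cos (π * P.re) * Real.cos (π * P.im))^2

lemma NN_norm_sq (P : ℂ) : ‖NN P‖^2 = 1 + kap P := by
  have h := nn_cone 1 P
  rw [one_smul] at h
  rw [norm_sq_E3]
  unfold nn at h
  rw [h]; unfold kap; ring

lemma kap_nonneg (P : ℂ) : 0 ≤ kap P := sq_nonneg _

lemma NN_norm_pos (P : ℂ) : 0 < ‖NN P‖ := by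
  have h := NN_norm_sq P
  have := kap_nonneg P
  rcases (norm_nonneg (NN P)).lt_or_eq with h1 | h1
  · exact h1
  · rw [← h1] at h; nlinarith

noncomputable def Ph (P : ℂ) : E3 := (‖NN P‖)⁻¹ • NN P

lemma norm_Ph (P : ℂ) : ‖Ph P‖ = 1 := by
  unfold Ph
  rw [norm_smul, norm_inv, norm_norm, inv_mul_cancel₀ (NN_norm_pos P).ne']

lemma Ph_cone (P : ℂ) : Ph P = cone (P, (‖NN P‖)⁻¹) := rfl

lemma DD_Ph (P : ℂ) : DD (Ph P) = ((1 - kap P) / (1 + kap P))^2 := by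
  unfold Ph
  rw [DD_cone, inv_pow, NN_norm_sq]
  have := kap_nonneg P
  have h : (Real.cos (π * P.re) * Real.cos (π * P.im))^2 = kap P := rfl
  rw [h]
  congr 1
  field_simp

lemma DD_Ph_gt {P : ℂ} (h : kap P ≤ 3/4) : 1/50 < DD (Ph P) := by
  rw [DD_Ph]
  have h0 := kap_nonneg P
  have h1 : (1/7:ℝ) ≤ (1 - kap P) / (1 + kap P) := by
    rw [le_div_iff₀ (by linarith)]; linarith
  nlinarith

lemma Ph_contDiff : ContDiff ℝ ((⊤ : ℕ∞) : WithTop ℕ∞) Ph := by
  have h1 : ContDiff ℝ ((⊤ : ℕ∞) : WithTop ℕ∞) (fun P : ℂ => (‖NN P‖)⁻¹) :=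
    (NN_contDiff.norm ℝ (fun P => norm_pos_iff.1 (NN_norm_pos P))).inv (fun P => (NN_norm_pos P).ne')
  exact h1.smul NN_contDiff

lemma zc_contDiff (b γ : ℝ) : ContDiff ℝ 1 (zc b γ) := by
  rw [contDiff_one_iff_deriv]
  refine ⟨fun t => (zc_hasDerivAt b γ t).differentiableAt, ?_⟩
  have : deriv (zc b γ) = zd b γ := by ext t; exact (zc_hasDerivAt b γ t).deriv
  rw [this]; exact zd_cont b γ

lemma sl_le {b t1 t2 : ℝ} (h : t1 ≤ t2) : sl b t2 - sl b t1 ≤ t2 - t1 := by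
  have := image_sub_le_mul_sub_of_deriv_le (f := sl b) (fun t => (sl_hasDerivAt b t).differentiableAt) (C := 1)
    (fun t => by rw [(sl_hasDerivAt b t).deriv]; have := al_nonneg (b^2+t^2); linarith) h
  linarith

lemma sl_ge {b t1 t2 : ℝ} (h : t1 ≤ t2) : (1/10) * (t2 - t1) ≤ sl b t2 - sl b t1 :=
  mul_sub_le_image_sub_of_le_deriv (f := sl b) (fun t => (sl_hasDerivAt b t).differentiableAt)
    (fun t => by rw [(sl_hasDerivAt b t).deriv]; have := al_le (b^2+t^2); linarith) h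

lemma len_leaf {b γ t1 t2 : ℝ} (n m : ℤ)
    (hgood : ∀ t ∈ Icc t1 t2, b^2 + t^2 < 16/25 ∧ 1/50 < DD (Ph (ctr n m + zc b γ t))) (h12 : t1 ≤ t2) :
    ContDiff ℝ 1 (fun u : ℝ => Ph (ctr n m + zc b γ (t1 + u * (t2 - t1)))) ∧
    len (fun u : ℝ => Ph (ctr n m + zc b γ (t1 + u * (t2 - t1)))) = sl b t2 - sl b t1 := by
  have hz : ∀ u : ℝ, HasDerivAt (fun u : ℝ => ctr n m + zc b γ (t1 + u * (t2 - t1)))
      (((t2 - t1 : ℝ) : ℂ) * zd b γ (t1 + u * (t2 - t1))) u := by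
    intro u
    have h1 : HasDerivAt (fun u : ℝ => t1 + u * (t2 - t1)) (t2 - t1) u := by
      have := ((hasDerivAt_id u).mul_const (t2 - t1)).const_add t1
      simpa using this
    have h2 := (zc_hasDerivAt b γ (t1 + u * (t2 - t1))).scomp u h1
    have h3 := h2.const_add (ctr n m)
    exact h3.congr_deriv (by rw [Complex.real_smul])
  have hzc : ContDiff ℝ 1 (fun u : ℝ => ctr n m + zc b γ (t1 + u * (t2 - t1))) := by
    have h1 : ContDiff ℝ 1 (fun u : ℝ => t1 + u * (t2 - t1)) := by fun_prop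
    exact contDiff_const.add ((zc_contDiff b γ).comp h1)
  have hσ : ContDiff ℝ 1 (fun u : ℝ => Ph (ctr n m + zc b γ (t1 + u * (t2 - t1)))) :=
    (Ph_contDiff.of_le (by exact_mod_cast le_top)).comp hzc
  refine ⟨hσ, ?_⟩
  unfold len
  have hsl : ∀ u : ℝ, HasDerivAt (fun u : ℝ => sl b (t1 + u * (t2 - t1)))
      ((t2 - t1) * (1 - al (b^2 + (t1 + u * (t2 - t1))^2))) u := by
    intro u
    have h1 : HasDerivAt (fun u : ℝ => t1 + u * (t2 - t1)) (t2 - t1) u := by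
      have := ((hasDerivAt_id u).mul_const (t2 - t1)).const_add t1
      simpa using this
    have h2 := (sl_hasDerivAt b (t1 + u * (t2 - t1))).comp u h1
    refine HasDerivAt.congr_deriv (f := fun u : ℝ => sl b (t1 + u * (t2 - t1))) h2 ?_
    ring
  have hint : ∫ u in (0:ℝ)..1, (t2 - t1) * (1 - al (b^2 + (t1 + u * (t2 - t1))^2)) = sl b t2 - sl b t1 := by
    have hcont : Continuous fun u : ℝ => (t2 - t1) * (1 - al (b^2 + (t1 + u * (t2 - t1))^2)) := by
      have := al_cont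
      fun_prop
    rw [intervalIntegral.integral_eq_sub_of_hasDerivAt (fun u _ => hsl u) (hcont.intervalIntegrable _ _)]
    congr 2 <;> ring
  rw [← hint]
  apply intervalIntegral.integral_congr
  intro u hu
  rw [uIcc_of_le zero_le_one] at hu
  simp only
  set t := t1 + u * (t2 - t1) with ht
  have htI : t ∈ Icc t1 t2 := by
    constructor
    · nlinarith [hu.1, hu.2]
    · nlinarith [hu.1, hu.2]
  obtain ⟨hg1, hg2⟩ := hgood t htI
  set σ : ℝ → E3 := fun u : ℝ => Ph (ctr n m + zc b γ (t1 + u * (t2 - t1))) with hσd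
  have hdσ : HasDerivAt σ (deriv σ u) u := (hσ.differentiable (by simp)).differentiableAt.hasDerivAt
  have hr : DifferentiableAt ℝ (fun u : ℝ => (‖NN (ctr n m + zc b γ (t1 + u * (t2 - t1)))‖)⁻¹) u := by
    have h1 : ContDiff ℝ ((⊤ : ℕ∞) : WithTop ℕ∞) (fun P : ℂ => (‖NN P‖)⁻¹) :=
      (NN_contDiff.norm ℝ (fun P => norm_pos_iff.1 (NN_norm_pos P))).inv (fun P => (NN_norm_pos P).ne')
    exact DifferentiableAt.comp (g := fun P : ℂ => (‖NN P‖)⁻¹) (f := fun u : ℝ => ctr n m + zc b γ (t1 + u * (t2 - t1))) u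
      ((h1.differentiable (by simp)).differentiableAt (x := ctr n m + zc b γ (t1 + u * (t2 - t1))))
      (hz u).differentiableAt
  have hl : Lift σ (deriv σ u) (fun u : ℝ => ctr n m + zc b γ (t1 + u * (t2 - t1)))
      (((t2 - t1 : ℝ) : ℂ) * zd b γ (t1 + u * (t2 - t1)))
      (fun u : ℝ => (‖NN (ctr n m + zc b γ (t1 + u * (t2 - t1)))‖)⁻¹) _ u :=
    ⟨hdσ, hz u, hr.hasDerivAt, inv_pos.2 (NN_norm_pos _), Eventually.of_forall fun _ => rfl, by
      show 0 < DD (Ph (ctr n m + zc b γ t)); linarith⟩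
  have hGG := hl.GG_eq n m (by
    show Complex.normSq (ctr n m + zc b γ t - ctr n m) < 16/25
    rw [add_sub_cancel_left, normSq_zc]; exact hg1) hg2.le
  rw [hGG]
  have e1 : ctr n m + zc b γ t - ctr n m = zc b γ t := add_sub_cancel_left _ _
  show Real.sqrt (QQ (ctr n m + zc b γ t - ctr n m) (((t2 - t1 : ℝ) : ℂ) * zd b γ t)) = _
  rw [e1]
  have e2 : QQ (zc b γ t) (((t2 - t1 : ℝ) : ℂ) * zd b γ t) = (t2 - t1)^2 * QQ (zc b γ t) (zd b γ t) := by
    unfold QQ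
    rw [Complex.re_ofReal_mul, Complex.im_ofReal_mul]; ring
  rw [e2, Real.sqrt_mul (sq_nonneg _), QQ_speed_sqrt, Real.sqrt_sq (by linarith)]

theorem local_geo {b γ t0 : ℝ} (hb : b^2 < 1/10000) (n m : ℤ) (hr : b^2 + t0^2 < 16/25)
    (hk : kap (ctr n m + zc b γ t0) ≤ 3/4) :
    ∃ ε > 0, ∀ t1 t2 : ℝ, |t1 - t0| < ε → |t2 - t0| < ε → t1 ≤ t2 →
      (∀ σ : ℝ → E3, ContDiff ℝ 1 σ → (∀ u ∈ Icc (0:ℝ) 1, σ u ∈ Metric.sphere (0 : E3) 1) →
        σ 0 = Ph (ctr n m + zc b γ t1) → σ 1 = Ph (ctr n m + zc b γ t2) → sl b t2 - sl b t1 ≤ len σ) ∧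
      (∃ σ : ℝ → E3, ContDiff ℝ 1 σ ∧ (∀ u ∈ Icc (0:ℝ) 1, σ u ∈ Metric.sphere (0 : E3) 1) ∧
        σ 0 = Ph (ctr n m + zc b γ t1) ∧ σ 1 = Ph (ctr n m + zc b γ t2) ∧ len σ = sl b t2 - sl b t1) := by
  obtain ⟨m0, hm0, hlow⟩ := lower_bound
  set P0 := ctr n m + zc b γ t0 with hP0
  have hr0 : 0 < (‖NN P0‖)⁻¹ := inv_pos.2 (NN_norm_pos P0)
  have hD1 : 1/50 < DD (Ph P0) := DD_Ph_gt hk
  have hD0 : 0 < DD ((‖NN P0‖)⁻¹ • NN P0) := by
    have : 0 < DD (Ph P0) := by linarith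
    exact this
  obtain ⟨Ψ, hΨ0, hΨd, hΨr, hΨl⟩ := local_inv hr0 hD0
  obtain ⟨S, W, hWo, hSc, hScal, ε1, hε1, hSl⟩ := cal_exists (γ := γ) (t0 := t0) hb
  have hX0 : Ph P0 = cone (P0, (‖NN P0‖)⁻¹) := rfl
  rw [← hX0] at hΨ0 hΨd hΨr
  have hΨc : ContinuousAt Ψ (Ph P0) := hΨd.self_of_nhds.continuousAt
  have hcomp : ContinuousAt (fun X => (Ψ X).1 - ctr n m) (Ph P0) :=
    (continuous_fst.continuousAt.comp hΨc).sub continuousAt_const
  have hval : (Ψ (Ph P0)).1 - ctr n m = zc b γ t0 := by rw [hΨ0]; simp [hP0]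
  have hV : ∀ᶠ X in 𝓝 (Ph P0), DifferentiableAt ℝ Ψ X ∧ (∀ᶠ Y in 𝓝 X, cone (Ψ Y) = Y) ∧
      (Ψ X).1 - ctr n m ∈ W ∧ Complex.normSq ((Ψ X).1 - ctr n m) < 16/25 ∧ 0 < (Ψ X).2 ∧ 1/50 < DD X := by
    have c1 : ∀ᶠ X in 𝓝 (Ph P0), (Ψ X).1 - ctr n m ∈ W := by
      refine hcomp.eventually (hWo.mem_nhds ?_)
      show (Ψ (Ph P0)).1 - ctr n m ∈ W
      rw [hval]
      exact (hSl t0 (by simpa using hε1)).1
    have c2 : ∀ᶠ X in 𝓝 (Ph P0), Complex.normSq ((Ψ X).1 - ctr n m) < 16/25 := by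
      have : ContinuousAt (fun X => Complex.normSq ((Ψ X).1 - ctr n m)) (Ph P0) :=
        ContinuousAt.comp (f := fun X => (Ψ X).1 - ctr n m) (g := Complex.normSq)
          Complex.continuous_normSq.continuousAt hcomp
      refine this.eventually (gt_mem_nhds ?_)
      show Complex.normSq ((Ψ (Ph P0)).1 - ctr n m) < 16/25
      rw [hval, normSq_zc]; exact hr
    have c3 : ∀ᶠ X in 𝓝 (Ph P0), 0 < (Ψ X).2 := by
      have : ContinuousAt (fun X => (Ψ X).2) (Ph P0) := continuous_snd.continuousAt.comp hΨc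
      refine this.eventually (lt_mem_nhds ?_)
      show 0 < (Ψ (Ph P0)).2
      rw [hΨ0]; exact hr0
    have c4 : ∀ᶠ X in 𝓝 (Ph P0), 1/50 < DD X := DD_contDiff.continuous.continuousAt.eventually (lt_mem_nhds hD1)
    filter_upwards [hΨd, hΨr.eventually_nhds, c1, c2, c3, c4] with X h1 h2 h3 h4 h5 h6
    exact ⟨h1, h2, h3, h4, h5, h6⟩
  obtain ⟨δ, hδ, hball⟩ := Metric.eventually_nhds_iff_ball.1 hV
  -- the leaf near t0
  have hzcc : Continuous (zc b γ) := (zc_contDiff b γ).continuous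
  have hPc : Continuous fun t => ctr n m + zc b γ t := continuous_const.add hzcc
  have hPhc : Continuous fun t => Ph (ctr n m + zc b γ t) := Ph_contDiff.continuous.comp hPc
  have hev : ∀ᶠ t in 𝓝 t0, dist (Ph (ctr n m + zc b γ t)) (Ph P0) < δ/2 ∧
      Ψ (Ph (ctr n m + zc b γ t)) = (ctr n m + zc b γ t, (‖NN (ctr n m + zc b γ t)‖)⁻¹) ∧
      b^2 + t^2 < 16/25 ∧ 1/50 < DD (Ph (ctr n m + zc b γ t)) := by
    have d1 : ∀ᶠ t in 𝓝 t0, dist (Ph (ctr n m + zc b γ t)) (Ph P0) < δ/2 :=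
      Metric.continuousAt_iff'.1 hPhc.continuousAt (δ/2) (by linarith)
    have d2 : ∀ᶠ t in 𝓝 t0, Ψ (cone (ctr n m + zc b γ t, (‖NN (ctr n m + zc b γ t)‖)⁻¹)) =
        (ctr n m + zc b γ t, (‖NN (ctr n m + zc b γ t)‖)⁻¹) := by
      have hc : ContinuousAt (fun t => ((ctr n m + zc b γ t, (‖NN (ctr n m + zc b γ t)‖)⁻¹) : ℂ × ℝ)) t0 := by
        apply ContinuousAt.prodMk hPc.continuousAt
        have : Continuous fun t => ‖NN (ctr n m + zc b γ t)‖ := (NN_contDiff.continuous.comp hPc).norm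
        exact this.continuousAt.inv₀ (NN_norm_pos _).ne'
      exact hc.eventually hΨl
    have d3 : ∀ᶠ t in 𝓝 t0, b^2 + t^2 < 16/25 :=
      ((by fun_prop : Continuous fun t : ℝ => b^2 + t^2).continuousAt).eventually (gt_mem_nhds hr)
    have d4 : ∀ᶠ t in 𝓝 t0, 1/50 < DD (Ph (ctr n m + zc b γ t)) :=
      ((DD_contDiff.continuous.comp hPhc).continuousAt).eventually (lt_mem_nhds hD1)
    filter_upwards [d1, d2, d3, d4] with t h1 h2 h3 h4
    exact ⟨h1, h2, h3, h4⟩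
  obtain ⟨ε2, hε2, hev2⟩ := Metric.eventually_nhds_iff.1 hev
  refine ⟨min (min ε1 ε2) (m0 * δ / 8), by positivity, ?_⟩
  intro t1 t2 h1 h2 h12
  have h1a : |t1 - t0| < ε1 := h1.trans_le ((min_le_left _ _).trans (min_le_left _ _))
  have h1b : |t1 - t0| < ε2 := h1.trans_le ((min_le_left _ _).trans (min_le_right _ _))
  have h1c : |t1 - t0| < m0 * δ / 8 := h1.trans_le (min_le_right _ _)
  have h2a : |t2 - t0| < ε1 := h2.trans_le ((min_le_left _ _).trans (min_le_left _ _))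
  have h2b : |t2 - t0| < ε2 := h2.trans_le ((min_le_left _ _).trans (min_le_right _ _))
  have h2c : |t2 - t0| < m0 * δ / 8 := h2.trans_le (min_le_right _ _)
  obtain ⟨f1, f2, f3, f4⟩ := hev2 (y := t1) (by rw [Real.dist_eq]; exact h1b)
  obtain ⟨g1, g2, g3, g4⟩ := hev2 (y := t2) (by rw [Real.dist_eq]; exact h2b)
  constructor
  · intro σ hσ hsph hs0 hs1
    have hsph' : ∀ u ∈ Icc (0:ℝ) 1, ‖σ u‖ = 1 := fun u hu => by
      have := hsph u hu; rwa [mem_sphere_zero_iff_norm] at this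
    by_contra hcon
    push Not at hcon
    have hlt : len σ < m0 * δ / 4 := by
      have e1 := sl_le (b := b) h12
      have e2 := abs_lt.1 h1c
      have e3 := abs_lt.1 h2c
      linarith
    have hin : ∀ u ∈ Icc (0:ℝ) 1, σ u ∈ Metric.ball (Ph P0) δ := by
      intro u hu
      have e1 := len_ge hm0 hlow hσ hsph' hu
      have e2 : ‖σ u - σ 0‖ < δ/4 := by
        have : m0 * ‖σ u - σ 0‖ < m0 * (δ/4) := by linarith
        exact lt_of_mul_lt_mul_left this hm0.le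
      rw [Metric.mem_ball]
      have e3 : dist (σ 0) (Ph P0) < δ/2 := by rw [hs0]; exact f1
      have e4 : dist (σ u) (σ 0) < δ/4 := by rw [dist_eq_norm]; exact e2
      have e5 := dist_triangle (σ u) (σ 0) (Ph P0)
      linarith
    set g : ℝ → ℝ := fun u => S ((Ψ (σ u)).1 - ctr n m) with hg
    have hdσ : ∀ u, HasDerivAt σ (deriv σ u) u := fun u =>
      (hσ.differentiable (by simp)).differentiableAt.hasDerivAt
    have hgc : ContinuousOn g (Icc 0 1) := by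
      intro u hu
      obtain ⟨k1, _, k3, _, _, _⟩ := hball _ (hin u hu)
      have c1 : ContinuousAt (fun u => (Ψ (σ u)).1 - ctr n m) u :=
        (continuous_fst.continuousAt.comp (ContinuousAt.comp (f := σ) (g := Ψ) k1.continuousAt hσ.continuous.continuousAt)).sub continuousAt_const
      have c2 : ContinuousAt S ((Ψ (σ u)).1 - ctr n m) := hSc.continuousAt (hWo.mem_nhds k3)
      exact (ContinuousAt.comp (f := fun u => (Ψ (σ u)).1 - ctr n m) (g := S) c2 c1).continuousWithinAt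
    have hgd : ∀ u ∈ Ioo (0:ℝ) 1, ∃ s', HasDerivAt g s' u ∧ s' ≤ Real.sqrt (GG (σ u) (deriv σ u) (deriv σ u)) := by
      intro u hu
      obtain ⟨k1, k2, k3, k4, k5, k6⟩ := hball _ (hin u ⟨hu.1.le, hu.2.le⟩)
      have hΨσ : HasDerivAt (fun u => Ψ (σ u)) (fderiv ℝ Ψ (σ u) (deriv σ u)) u :=
        k1.hasFDerivAt.comp_hasDerivAt u (hdσ u)
      have hz : HasDerivAt (fun u => (Ψ (σ u)).1) (fderiv ℝ Ψ (σ u) (deriv σ u)).1 u :=
        (ContinuousLinearMap.fst ℝ ℂ ℝ).hasFDerivAt.comp_hasDerivAt u hΨσ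
      have hrr : HasDerivAt (fun u => (Ψ (σ u)).2) (fderiv ℝ Ψ (σ u) (deriv σ u)).2 u :=
        (ContinuousLinearMap.snd ℝ ℂ ℝ).hasFDerivAt.comp_hasDerivAt u hΨσ
      have heq : ∀ᶠ t in 𝓝 u, σ t = (Ψ (σ t)).2 • NN (Ψ (σ t)).1 := by
        have := hσ.continuous.continuousAt.eventually k2
        filter_upwards [this] with t ht
        exact ht.symm
      have hl : Lift σ (deriv σ u) (fun u => (Ψ (σ u)).1) _ (fun u => (Ψ (σ u)).2) _ u :=
        ⟨hdσ u, hz, hrr, k5, heq, by linarith⟩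
      have hGG := hl.GG_eq n m k4 k6.le
      have hz' := hz.sub_const (ctr n m)
      obtain ⟨s', hs', hle⟩ := hScal _ _ u hz' k3
      refine ⟨s', hs', ?_⟩
      rw [hGG]; exact hle
    have hineq := intervalIntegral.sub_le_integral_of_hasDeriv_right_of_le (a := 0) (b := 1)
      (g := g) (g' := deriv g) (φ := fun u => Real.sqrt (GG (σ u) (deriv σ u) (deriv σ u))) zero_le_one hgc
      (fun u hu => by
        obtain ⟨s', hs', _⟩ := hgd u hu
        rw [hs'.deriv]; exact hs'.hasDerivWithinAt)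
      ((len_cont hσ).continuousOn.integrableOn_Icc)
      (fun u hu => by
        obtain ⟨s', hs', hle⟩ := hgd u hu
        rw [hs'.deriv]; exact hle)
    have e0 : g 0 = S (zc b γ t1) := by
      simp only [hg]; rw [hs0, f2]; simp
    have e1 : g 1 = S (zc b γ t2) := by
      simp only [hg]; rw [hs1, g2]; simp
    rw [e0, e1, (hSl t1 h1a).2, (hSl t2 h2a).2] at hineq
    have : ∫ u in (0:ℝ)..1, Real.sqrt (GG (σ u) (deriv σ u) (deriv σ u)) = len σ := rfl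
    linarith
  · have hgood : ∀ t ∈ Icc t1 t2, b^2 + t^2 < 16/25 ∧ 1/50 < DD (Ph (ctr n m + zc b γ t)) := by
      intro t ht
      have : |t - t0| < ε2 := by
        have e2 := abs_lt.1 h1b
        have e3 := abs_lt.1 h2b
        rw [abs_lt]; constructor <;> linarith [ht.1, ht.2]
      obtain ⟨_, _, q3, q4⟩ := hev2 (y := t) (by rw [Real.dist_eq]; exact this)
      exact ⟨q3, q4⟩
    obtain ⟨hc, hlen⟩ := len_leaf n m hgood h12
    refine ⟨_, hc, ?_, ?_, ?_, hlen⟩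
    · intro u _; rw [mem_sphere_zero_iff_norm]; exact norm_Ph _
    · simp
    · simp

end Pool.Agent.H790
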