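import Mathlib
import Pool.Agent.H790.Dyn

set_option autoImplicit false
open Real Set MeasureTheory Filter Topology

namespace Pool.Agent.H790

lemma sin_strong {s t : ℝ} (hs : |s| ≤ 1/25) (ht : |t| ≤ 1/25) (hst : s ≤ t) :
    (9/10) * (t - s) ≤ Real.sin t - Real.sin s := by
  have hs' := abs_le.1 hs
  have ht' := abs_le.1 ht
  have h := Convex.mul_sub_le_image_sub_of_le_deriv (convex_Icc (-(1/25):ℝ) (1/25)) (f := Real.sin)
    Real.continuous_sin.continuousOn Real.differentiable_sin.differentiableOn (C := 9/10)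
    (fun x hx => by
      rw [Real.deriv_sin]
      have hx' := interior_subset hx
      have := Real.one_sub_sq_div_two_le_cos (x := x)
      nlinarith [hx'.1, hx'.2])
  exact h s ⟨hs'.1, hs'.2⟩ t ⟨ht'.1, ht'.2⟩ hst

lemma f_strong {δ x y : ℝ} (hδ : δ = 0 ∨ δ = 1) (hx : |x - δ * (π/4)| ≤ 1/25) (hy : |y - δ * (π/4)| ≤ 1/25)
    (hxy : x ≤ y) :
    (9/10) * (y - x) ≤ (Real.sin y - δ * Real.cos y) - (Real.sin x - δ * Real.cos x) := by
  rcases hδ with h | h <;> subst h
  · simp only [zero_mul, sub_zero] at hx hy ⊢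
    exact sin_strong hx hy hxy
  · rw [one_mul] at hx hy
    have h1 := sin_strong hx hy (by linarith)
    have key : ∀ z : ℝ, Real.sin z - 1 * Real.cos z = Real.sqrt 2 * Real.sin (z - π/4) := by
      intro z
      rw [Real.sin_sub, Real.sin_pi_div_four, Real.cos_pi_div_four]
      have hss : Real.sqrt 2 * Real.sqrt 2 = 2 := Real.mul_self_sqrt (by norm_num)
      linear_combination (-(Real.sin z)/2 + Real.cos z/2) * hss
    rw [key, key]
    have hs1 : 1 ≤ Real.sqrt 2 := Real.le_sqrt_of_sq_le (by norm_num)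
    nlinarith

lemma LeafData.delta {m : ℤ → ℤ} {b a : ℤ → ℝ} (L : LeafData m b a) (n : ℤ) :
    ((m (n+1) : ℝ) - m n = 0) ∨ ((m (n+1) : ℝ) - m n = 1) := by
  rcases L.step n with h | h
  · left; rw [h]; ring
  · right; rw [h]; push_cast; ring

lemma LeafData.bsq {m : ℤ → ℤ} {b a : ℤ → ℝ} (L : LeafData m b a) (n : ℤ) : (b n)^2 < 1/10000 := by
  have h := abs_le.1 (L.bb n)
  nlinarith

lemma Th_lt {b c : ℝ} (hb : b^2 < 1/10000) (hc : c^2 < 1/10000) (h : b ≤ c) : Th b ≤ Th c := by
  have := Th_mono hb hc h
  linarith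

section two
variable {m m' : ℤ → ℤ} {b a b' a' : ℤ → ℝ}

/-- same increments: drift comparison -/
lemma drift (L : LeafData m b a) (L' : LeafData m' b' a') {n : ℤ}
    (h : (m (n+1) : ℝ) - m n = (m' (n+1) : ℝ) - m' n) :
    (a n ≤ a' n → (9/10) * (a' n - a n) ≤ (b' (n+1) - b (n+1)) - (b' n - b n)) ∧
    (a' n ≤ a n → (9/10) * (a n - a' n) ≤ (b (n+1) - b' (n+1)) - (b n - b' n)) := by
  have t1 := L.tr n
  have t2 := L'.tr n
  have d1 := L.dir n
  have d2 := L'.dir n
  rw [← h] at t2 d2
  constructor
  · intro hle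
    have := f_strong (L.delta n) d1 d2 hle
    linarith
  · intro hle
    have := f_strong (L.delta n) d2 d1 hle
    linarith

lemma right_end (L : LeafData m b a) (L' : LeafData m' b' a') {n : ℤ}
    (h0 : m n = m' n) (h1 : m (n+1) < m' (n+1)) : a n < a' n := by
  have d1 := abs_le.1 (L.dir n)
  have d2 := abs_le.1 (L'.dir n)
  have e1 : (m (n+1) : ℝ) - m n = 0 := by
    rcases L.step n with h | h
    · rw [h]; ring
    · rcases L'.step n with h' | h' <;> omega
  have e2 : (m' (n+1) : ℝ) - m' n = 1 := by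
    rcases L'.step n with h | h
    · rcases L.step n with h' | h' <;> omega
    · rw [h]; push_cast; ring
  rw [e1] at d1; rw [e2] at d2
  have := Real.pi_gt_three
  linarith [d1.1, d1.2, d2.1, d2.2]

lemma left_end (L : LeafData m b a) (L' : LeafData m' b' a') {n : ℤ}
    (h0 : m (n+1) = m' (n+1)) (h1 : m n < m' n) : a' n < a n := by
  have d1 := abs_le.1 (L.dir n)
  have d2 := abs_le.1 (L'.dir n)
  have e1 : (m (n+1) : ℝ) - m n = 1 := by
    rcases L.step n with h | h
    · rcases L'.step n with h' | h' <;> omega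
    · rw [h]; push_cast; ring
  have e2 : (m' (n+1) : ℝ) - m' n = 0 := by
    rcases L'.step n with h | h
    · rw [h]; ring
    · rcases L.step n with h' | h' <;> omega
  rw [e1] at d1; rw [e2] at d2
  have := Real.pi_gt_three
  linarith [d1.1, d1.2, d2.1, d2.2]

theorem order_pos (L : LeafData m b a) (L' : LeafData m' b' a') (hle : ∀ n, m n ≤ m' n)
    (hl : ∀ n, ∃ i ≤ n, m i < m' i) (hr : ∀ n, ∃ j, n ≤ j ∧ m j < m' j) (n : ℤ) (hn : m n = m' n) :
    b n < b' n := by
  by_contra hcon
  rw [not_lt] at hcon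
  rcases le_or_gt (a' n) (a n) with hA | hA
  · have key : ∀ k, n ≤ k → (m k = m' k ∧ b' k ≤ b k ∧ a' k ≤ a k) := by
      intro k hk
      induction k, hk using Int.le_induction with
      | base => exact ⟨hn, hcon, hA⟩
      | succ k hk ih =>
        obtain ⟨i1, i2, i3⟩ := ih
        have e : m (k+1) = m' (k+1) := by
          by_contra hne
          have := right_end L L' i1 (lt_of_le_of_ne (hle _) hne)
          linarith
        have hd := (drift L L' (n := k) (by rw [e, i1])).2 i3
        have hb : b' (k+1) ≤ b (k+1) := by linarith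
        refine ⟨e, hb, ?_⟩
        have k1 := L.kick (k+1)
        have k2 := L'.kick (k+1)
        rw [add_sub_cancel_right] at k1 k2
        have := Th_lt (L'.bsq (k+1)) (L.bsq (k+1)) hb
        linarith
    obtain ⟨j, hj, hlt⟩ := hr n
    have := (key j hj).1
    omega
  · have hA' : a (n-1) < a' (n-1) := by
      have k1 := L.kick n
      have k2 := L'.kick n
      have := Th_lt (L'.bsq n) (L.bsq n) hcon
      linarith
    have key : ∀ k, k ≤ n → (m k = m' k ∧ b' k ≤ b k ∧ a (k-1) < a' (k-1)) := by
      intro k hk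
      induction k, hk using Int.le_induction_down with
      | base => exact ⟨hn, hcon, hA'⟩
      | pred k hk ih =>
        obtain ⟨i1, i2, i3⟩ := ih
        have e : m (k-1) = m' (k-1) := by
          by_contra hne
          have := left_end L L' (n := k-1) (by rw [sub_add_cancel]; exact i1) (lt_of_le_of_ne (hle _) hne)
          linarith
        have hd := (drift L L' (n := k-1) (by rw [sub_add_cancel, e, i1])).1 i3.le
        rw [sub_add_cancel] at hd
        have hb : b' (k-1) ≤ b (k-1) := by linarith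
        refine ⟨e, hb, ?_⟩
        have k1 := L.kick (k-1)
        have k2 := L'.kick (k-1)
        have := Th_lt (L'.bsq (k-1)) (L.bsq (k-1)) hb
        linarith
    obtain ⟨j, hj, hlt⟩ := hl n
    have := (key j hj).1
    omega

noncomputable def gam (b a : ℤ → ℝ) (n : ℤ) : ℝ := a n - Th (b n) / 2

lemma JJ_nine (b : ℝ) (hb : b^2 < 1/10000) : JJ b (9/16) = Real.arcsin (b / (3/4)) + Th b / 2 := by
  unfold JJ
  rw [pk_far hb.le (by norm_num)]
  have : Real.sqrt (9/16) = 3/4 := by
    rw [show (9/16:ℝ) = (3/4)^2 by norm_num]; exact Real.sqrt_sq (by norm_num)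
  rw [this]; unfold Th; ring

theorem no_cross_leaf (L : LeafData m b a) (L' : LeafData m' b' a') (hle : ∀ n, m n ≤ m' n)
    (hl : ∀ n, ∃ i ≤ n, m i < m' i) (hr : ∀ n, ∃ j, n ≤ j ∧ m j < m' j) (n : ℤ) (hn : m n = m' n)
    {t t' : ℝ} (ht : (b n)^2 + t^2 ≤ 9/16) :
    zc (b n) (gam b a n) t ≠ zc (b' n) (gam b' a' n) t' := by
  have hlt := order_pos L L' hle hl hr n hn
  have hb := abs_le.1 (L.bb n)
  have hb' := abs_le.1 (L'.bb n)
  have harc : (b' n - b n) * (4/3) ≤ Real.arcsin (b' n / (3/4)) - Real.arcsin (b n / (3/4)) := by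
    have := arcsin_exp (x := b n / (3/4)) (y := b' n / (3/4)) (by linarith) (by linarith) (by linarith)
    linarith
  have k1 := L.kick n
  have k2 := L'.kick n
  apply no_cross (L.bsq n) (L'.bsq n) hlt _ _ ht
  · -- upper bound
    rw [JJ_nine _ (L.bsq n), JJ_nine _ (L'.bsq n)]
    unfold gam
    have hup : a' (n-1) - a (n-1) < (b' n - b n) * (4/3) := by
      by_cases e : m (n-1) = m' (n-1)
      · rcases le_total (a' (n-1)) (a (n-1)) with h | h
        · linarith
        · have hd := (drift L L' (n := n-1) (by rw [sub_add_cancel, e, hn])).1 h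
          rw [sub_add_cancel] at hd
          have := order_pos L L' hle hl hr (n-1) e
          linarith
      · have := left_end L L' (n := n-1) (by rw [sub_add_cancel]; exact hn) (lt_of_le_of_ne (hle _) e)
        linarith
    linarith
  · rw [JJ_nine _ (L.bsq n), JJ_nine _ (L'.bsq n)]
    unfold gam
    have hlo : a n - a' n < (b' n - b n) * (4/3) := by
      by_cases e : m (n+1) = m' (n+1)
      · rcases le_total (a n) (a' n) with h | h
        · linarith
        · have hd := (drift L L' (n := n) (by rw [e, hn])).2 h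
          have := order_pos L L' hle hl hr (n+1) e
          linarith
      · have := right_end L L' (n := n) hn (lt_of_le_of_ne (hle _) e)
        linarith
    linarith

lemma drift_abs (L : LeafData m b a) (L' : LeafData m' b' a') {n : ℤ}
    (h : m (n+1) - m n = m' (n+1) - m' n) :
    (9/10) * |a n - a' n| ≤ |b (n+1) - b' (n+1)| + |b n - b' n| := by
  have h' : (m (n+1) : ℝ) - m n = (m' (n+1) : ℝ) - m' n := by exact_mod_cast h
  have hd := drift L L' h'
  have q1 := abs_le.1 (le_refl |b (n+1) - b' (n+1)|)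
  have q2 := abs_le.1 (le_refl |b n - b' n|)
  rcases le_total (a n) (a' n) with hh | hh
  · have := hd.1 hh
    rw [abs_of_nonpos (by linarith : a n - a' n ≤ 0)]
    linarith [q1.1, q2.2]
  · have := hd.2 hh
    rw [abs_of_nonneg (by linarith : 0 ≤ a n - a' n)]
    linarith [q1.2, q2.1]

theorem close (L : LeafData m b a) (L' : LeafData m' b' a') (K : ℕ) :
    ∀ n : ℤ, (∀ k : ℤ, |k - n| ≤ K → m (k+1) - m k = m' (k+1) - m' k) → |b n - b' n| ≤ (1/50) * (1/2)^K := by
  induction K with
  | zero =>
    intro n _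
    have h1 := abs_le.1 (L.bb n)
    have h2 := abs_le.1 (L'.bb n)
    rw [pow_zero, abs_le]; constructor <;> linarith
  | succ K ih =>
    intro n hn
    have i1 := ih (n+1) (fun k hk => hn k (by
      have := abs_le.1 hk
      rw [abs_le]; push_cast; constructor <;> linarith))
    have i2 := ih (n-1) (fun k hk => hn k (by
      have := abs_le.1 hk
      rw [abs_le]; push_cast; constructor <;> linarith))
    have e1 := hn n (by simp; positivity)
    have e2 := hn (n-1) (by
      rw [show n - 1 - n = (-1:ℤ) by ring]; simp)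
    have d1 := drift_abs L L' e1
    have d2 := drift_abs L L' e2
    rw [sub_add_cancel] at d2
    have k1 := L.kick n
    have k2 := L'.kick n
    have hTh : 122 * |b n - b' n| ≤ |(a n - a' n) - (a (n-1) - a' (n-1))| := by
      have e : (a n - a' n) - (a (n-1) - a' (n-1)) = Th (b n) - Th (b' n) := by linarith
      rw [e]
      rcases le_total (b n) (b' n) with h | h
      · have := Th_mono (L.bsq n) (L'.bsq n) h
        rw [abs_of_nonpos (by linarith), abs_of_nonpos (by linarith)]; linarith
      · have := Th_mono (L'.bsq n) (L.bsq n) h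
        rw [abs_of_nonneg (by linarith), abs_of_nonneg (by linarith)]; linarith
    have h3 := abs_sub (a n - a' n) (a (n-1) - a' (n-1))
    have hp : (0:ℝ) ≤ (1/2)^K := by positivity
    rw [pow_succ]
    linarith

end two

end Pool.Agent.H790
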