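import Mathlib
import Pool.Agent.H790.Geo
import Pool.Agent.H790.Order

set_option autoImplicit false
open Real Set MeasureTheory Filter Topology

namespace Pool.Agent.H790

noncomputable def ell (m : ℤ → ℤ) (a : ℤ → ℝ) (n : ℤ) : ℝ :=
  Real.cos (a n) + ((m (n+1) : ℝ) - m n) * Real.sin (a n)

section one
variable {m : ℤ → ℤ} {b a : ℤ → ℝ}

lemma LeafData.a_bd (L : LeafData m b a) (n : ℤ) : -(1/25) ≤ a n ∧ a n ≤ 83/100 := by
  have d := abs_le.1 (L.dir n)
  have hpi : π < 3.15 := Real.pi_lt_d2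
  have hpi0 := Real.pi_pos
  rcases L.delta n with h | h <;> rw [h] at d <;> constructor <;> linarith [d.1, d.2]

lemma LeafData.cos_ge (L : LeafData m b a) (n : ℤ) : 13/20 ≤ Real.cos (a n) := by
  have h := L.a_bd n
  have := Real.one_sub_sq_div_two_le_cos (x := a n)
  nlinarith [h.1, h.2]

lemma LeafData.drift_small (L : LeafData m b a) (n : ℤ) :
    |Real.sin (a n) - ((m (n+1) : ℝ) - m n) * Real.cos (a n)| ≤ 18/1000 := by
  have t := L.tr n
  have h1 := abs_le.1 (L.bb n)
  have h2 := abs_le.1 (L.bb (n+1))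
  rw [abs_le]; constructor <;> linarith

lemma ell_bounds (L : LeafData m b a) (n : ℤ) : 9/10 ≤ ell m a n ∧ ell m a n^2 ≤ 2 := by
  have hs := Real.sin_sq_add_cos_sq (a n)
  have hd := abs_le.1 (L.drift_small n)
  have hc := L.cos_ge n
  unfold ell
  rcases L.delta n with h | h
  · rw [h] at hd ⊢
    rw [zero_mul, sub_zero] at hd
    rw [zero_mul, add_zero]
    constructor
    · nlinarith [hd.1, hd.2]
    · nlinarith
  · rw [h] at hd ⊢
    rw [one_mul] at hd ⊢
    constructor
    · nlinarith [hd.1, hd.2]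
    · nlinarith [sq_nonneg (Real.sin (a n) - Real.cos (a n))]

lemma ell_lt (L : LeafData m b a) (n : ℤ) : ell m a n ≤ 1415/1000 := by
  have h := ell_bounds L n
  nlinarith

lemma zc_right (L : LeafData m b a) (n : ℤ) {t : ℝ} (ht : 1/10 ≤ t) :
    zc (b n) (gam b a n) t = Complex.exp ((a n : ℂ) * Complex.I) * ((t : ℂ) + (b n : ℂ) * Complex.I) := by
  unfold zc gam
  rw [psi_far ht]
  congr 3
  have : Th (b n) = 2 * psi (b n) (1/10) := rfl
  rw [this]; congr 1; ring

lemma zc_left (L : LeafData m b a) (n : ℤ) {t : ℝ} (ht : t ≤ -(1/10)) :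
    zc (b n) (gam b a n) t = Complex.exp ((a (n-1) : ℂ) * Complex.I) * ((t : ℂ) + (b n : ℂ) * Complex.I) := by
  unfold zc gam
  have h1 : psi (b n) t = - psi (b n) (1/10) := by
    have := psi_neg_right (b n) (-t)
    rw [neg_neg] at this
    rw [this, psi_far (by linarith)]
  rw [h1]
  congr 3
  have h2 : Th (b n) = 2 * psi (b n) (1/10) := rfl
  have h3 := L.kick n
  rw [h2] at h3 ⊢
  congr 1; linarith

/-- matching of consecutive lens charts -/
lemma lens_match (L : LeafData m b a) (n : ℤ) {t : ℝ} (h1 : 1/10 ≤ t) (h2 : t - ell m a n ≤ -(1/10)) :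
    ctr n (m n) + zc (b n) (gam b a n) t =
      ctr (n+1) (m (n+1)) + zc (b (n+1)) (gam b a (n+1)) (t - ell m a n) := by
  rw [zc_right L n h1, zc_left L (n+1) h2, add_sub_cancel_right]
  have ht := L.tr n
  have hs := Real.sin_sq_add_cos_sq (a n)
  unfold ell ctr
  apply Complex.ext
  · simp only [Complex.add_re, Complex.mul_re, Complex.exp_ofReal_mul_I_re, Complex.exp_ofReal_mul_I_im,
      Complex.ofReal_re, Complex.ofReal_im, Complex.I_re, Complex.I_im, Complex.add_im, Complex.mul_im]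
    rw [ht]
    push_cast
    linear_combination hs
  · simp only [Complex.add_re, Complex.mul_re, Complex.exp_ofReal_mul_I_re, Complex.exp_ofReal_mul_I_im,
      Complex.ofReal_re, Complex.ofReal_im, Complex.I_re, Complex.I_im, Complex.add_im, Complex.mul_im]
    rw [ht]
    push_cast
    linear_combination ((m (n+1) : ℝ) - m n) * hs

/-- geometry of a straight piece -/
lemma straight {al δ t β β' l : ℝ} (hδ : δ = 0 ∨ δ = 1)
    (hc : 13/20 ≤ Real.cos al) (ha : -(1/25) ≤ al ∧ al ≤ 83/100)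
    (hdr : |Real.sin al - δ * Real.cos al| ≤ 18/1000) (hβ : |β| ≤ 9/1000)
    (hl : l = Real.cos al + δ * Real.sin al) (ht1 : 1/10 ≤ t) (ht2 : t ≤ l/2)
    (hβ' : β' = 1 ∨ β' = -1) :
    1/20 ≤ t * Real.cos al - β' * β * Real.sin al ∧ t * Real.cos al - β' * β * Real.sin al ≤ 53/100 ∧
    |(t * Real.sin al + β' * β * Real.cos al) - δ * (t * Real.cos al - β' * β * Real.sin al)| ≤ 3/100 := by
  have hs := Real.sin_sq_add_cos_sq al
  have hd := abs_le.1 hdr
  have hβ2 : |β' * β| ≤ 9/1000 := by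
    rcases hβ' with h | h <;> rw [h] <;> simpa using hβ
  have hb := abs_le.1 hβ2
  set κ := β' * β
  set s := Real.sin al
  set c := Real.cos al
  have hs1 : s ≤ 1 := Real.sin_le_one al
  have hs2 : -1 ≤ s := Real.neg_one_le_sin al
  have hc1 : c ≤ 1 := Real.cos_le_one al
  have h1 : |κ * s| ≤ 9/1000 := by
    rw [abs_mul]
    have : |s| ≤ 1 := abs_le.2 ⟨hs2, hs1⟩
    calc |κ| * |s| ≤ 9/1000 * 1 := by gcongr
      _ = 9/1000 := by ring
  have h1' := abs_le.1 h1
  have e : (t * s + κ * c) - δ * (t * c - κ * s) = t * (s - δ * c) + κ * l := by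
    rw [hl]; ring
  have hl2 : l ≤ 1415/1000 := by
    rw [hl]
    rcases hδ with h | h <;> rw [h]
    · linarith
    · nlinarith [sq_nonneg (s - c)]
  have hl0 : 0 ≤ l := by linarith
  have hlc : l * c ≤ 2 * (515/1000) := by
    rw [hl]
    rcases hδ with h | h
    · rw [h]; nlinarith
    · rw [h] at hd ⊢
      have g1 : (s - c)^2 ≤ (18/1000)^2 := by
        apply sq_le_sq'
        · linarith [hd.1]
        · linarith [hd.2]
      nlinarith [sq_nonneg (s + c), sq_nonneg (s - c)]
  refine ⟨?_, ?_, ?_⟩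
  · nlinarith [h1'.2]
  · nlinarith [h1'.1, h1'.2]
  · rw [e]
    have g1 : |t * (s - δ * c)| ≤ (7075/10000) * (18/1000) := by
      rw [abs_mul, abs_of_nonneg (by linarith : 0 ≤ t)]
      have : t ≤ 7075/10000 := by linarith
      gcongr
    have g2 : |κ * l| ≤ 9/1000 * (1415/1000) := by
      rw [abs_mul, abs_of_nonneg hl0]
      gcongr
    calc _ ≤ |t * (s - δ * c)| + |κ * l| := abs_add_le _ _
      _ ≤ _ := by norm_num at g1 g2 ⊢; linarith

lemma pos_right (L : LeafData m b a) (n : ℤ) {t : ℝ} (h1 : 1/10 ≤ t) (h2 : t ≤ ell m a n / 2) :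
    1/20 ≤ (zc (b n) (gam b a n) t).re ∧ (zc (b n) (gam b a n) t).re ≤ 53/100 ∧
    |(zc (b n) (gam b a n) t).im - ((m (n+1) : ℝ) - m n) * (zc (b n) (gam b a n) t).re| ≤ 3/100 := by
  have h := straight (β' := 1) (L.delta n) (L.cos_ge n) (L.a_bd n) (L.drift_small n) (L.bb n) (l := ell m a n) rfl h1 h2 (Or.inl rfl)
  have e1 : (zc (b n) (gam b a n) t).re = t * Real.cos (a n) - 1 * b n * Real.sin (a n) := by
    rw [zc_right L n h1, Complex.mul_re, Complex.exp_ofReal_mul_I_re, Complex.exp_ofReal_mul_I_im]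
    simp; ring
  have e2 : (zc (b n) (gam b a n) t).im = t * Real.sin (a n) + 1 * b n * Real.cos (a n) := by
    rw [zc_right L n h1, Complex.mul_im, Complex.exp_ofReal_mul_I_re, Complex.exp_ofReal_mul_I_im]
    simp; ring
  rw [e1, e2]; exact h

lemma pos_left (L : LeafData m b a) (n : ℤ) {t : ℝ} (h1 : t ≤ -(1/10)) (h2 : -(ell m a (n-1) / 2) ≤ t) :
    (zc (b n) (gam b a n) t).re ≤ -(1/20) ∧ -(53/100) ≤ (zc (b n) (gam b a n) t).re ∧
    |(zc (b n) (gam b a n) t).im - ((m n : ℝ) - m (n-1)) * (zc (b n) (gam b a n) t).re| ≤ 3/100 := by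
  have h := straight (t := -t) (β' := -1) (L.delta (n-1)) (L.cos_ge (n-1)) (L.a_bd (n-1)) (L.drift_small (n-1)) (L.bb n)
    (l := ell m a (n-1)) rfl (by linarith) (by linarith) (Or.inr rfl)
  rw [sub_add_cancel] at h
  have e1 : (zc (b n) (gam b a n) t).re = -(-t * Real.cos (a (n-1)) - -1 * b n * Real.sin (a (n-1))) := by
    rw [zc_left L n h1, Complex.mul_re, Complex.exp_ofReal_mul_I_re, Complex.exp_ofReal_mul_I_im]
    simp; ring
  have e2 : (zc (b n) (gam b a n) t).im = -(-t * Real.sin (a (n-1)) + -1 * b n * Real.cos (a (n-1))) := by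
    rw [zc_left L n h1, Complex.mul_im, Complex.exp_ofReal_mul_I_re, Complex.exp_ofReal_mul_I_im]
    simp; ring
  rw [e1, e2]
  refine ⟨by linarith [h.1], by linarith [h.2.1], ?_⟩
  have h3 := h.2.2
  rw [← abs_neg] at h3
  convert h3 using 2
  ring

lemma pos_core (L : LeafData m b a) (n : ℤ) {t : ℝ} (h1 : |t| ≤ 1/10) :
    |(zc (b n) (gam b a n) t).re| ≤ 11/100 ∧ |(zc (b n) (gam b a n) t).im| ≤ 11/100 := by
  have h := normSq_zc (b n) (gam b a n) t
  rw [Complex.normSq_apply] at h
  have hb := L.bsq n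
  have ht : t^2 ≤ 1/100 := by
    have := abs_le.1 h1; nlinarith
  constructor
  · apply abs_le_of_sq_le_sq _ (by norm_num)
    nlinarith [sq_nonneg (zc (b n) (gam b a n) t).im]
  · apply abs_le_of_sq_le_sq _ (by norm_num)
    nlinarith [sq_nonneg (zc (b n) (gam b a n) t).re]

/-- the allowed parameter range at lens `n` -/
def Rng (m : ℤ → ℤ) (a : ℤ → ℝ) (n : ℤ) (t : ℝ) : Prop := -(ell m a (n-1) / 2) ≤ t ∧ t ≤ ell m a n / 2

lemma tri (t : ℝ) : t ≤ -(1/10) ∨ |t| ≤ 1/10 ∨ 1/10 ≤ t := by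
  rcases le_or_gt t (-(1/10)) with h | h
  · left; exact h
  · rcases le_or_gt (1/10) t with h' | h'
    · right; right; exact h'
    · right; left; rw [abs_le]; constructor <;> linarith

lemma Rng.sq (L : LeafData m b a) {n : ℤ} {t : ℝ} (h : Rng m a n t) : t^2 ≤ 1/2 := by
  have h1 := ell_bounds L n
  have h2 := ell_bounds L (n-1)
  rcases le_total 0 t with h0 | h0
  · nlinarith [h.2]
  · nlinarith [h.1]

lemma kap_ok (n m : ℤ) (z : ℂ) (h : |z.im| ≤ 1/4 ∨ |z.re - z.im| ≤ 1/10) : kap (ctr n m + z) ≤ 3/4 := by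
  have e1 : (Real.cos (π * (ctr n m + z).re))^2 = (Real.cos (π * z.re))^2 := by
    have : π * (ctr n m + z).re = π * z.re + n * π := by simp [ctr]; ring
    rw [this, Real.cos_add_int_mul_pi, mul_pow]
    have : ((-1:ℝ)^n)^2 = 1 := by
      rcases Int.even_or_odd n with h | h
      · rw [h.neg_one_zpow]; norm_num
      · rw [h.neg_one_zpow]; norm_num
    rw [this, one_mul]
  have e2 : (Real.cos (π * (ctr n m + z).im))^2 = (Real.sin (π * z.im))^2 := by
    have : π * (ctr n m + z).im = (π * z.im + π/2) + m * π := by simp [ctr]; ring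
    rw [this, Real.cos_add_int_mul_pi, mul_pow, Real.cos_add_pi_div_two]
    have : ((-1:ℝ)^m)^2 = 1 := by
      rcases Int.even_or_odd m with h | h
      · rw [h.neg_one_zpow]; norm_num
      · rw [h.neg_one_zpow]; norm_num
    rw [this]; ring
  unfold kap
  rw [mul_pow, e1, e2]
  have hpi := Real.pi_pos
  have hpi2 : π < 3.15 := Real.pi_lt_d2
  rcases h with h | h
  · have h' := abs_le.1 h
    have c1 : (Real.cos (π * z.re))^2 ≤ 1 := Real.cos_sq_le_one _
    have s1 : (Real.sin (π * z.im))^2 ≤ 1/2 := by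
      have g : |Real.sin (π * z.im)| ≤ Real.sin (π/4) := by
        rw [abs_le]
        constructor
        · rw [← Real.sin_neg]
          apply Real.sin_le_sin_of_le_of_le_pi_div_two <;> nlinarith
        · apply Real.sin_le_sin_of_le_of_le_pi_div_two <;> nlinarith
      rw [Real.sin_pi_div_four] at g
      have g2 : (Real.sin (π * z.im))^2 ≤ (Real.sqrt 2/2)^2 := by
        rw [← sq_abs]; gcongr
      have g3 : (Real.sqrt 2/2)^2 = 1/2 := by rw [div_pow, Real.sq_sqrt (by norm_num)]; norm_num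
      linarith
    nlinarith [sq_nonneg (Real.cos (π * z.re)), sq_nonneg (Real.sin (π * z.im))]
  · have h1 : |Real.sin (π * z.im) - Real.sin (π * z.re)| ≤ π * (1/10) := by
      have := Real.lipschitzWith_sin.dist_le_mul (π * z.im) (π * z.re)
      rw [Real.dist_eq, Real.dist_eq] at this
      simp only [NNReal.coe_one, one_mul] at this
      calc _ ≤ |π * z.im - π * z.re| := this
        _ = π * |z.re - z.im| := by rw [← mul_sub, abs_mul, abs_of_pos hpi, abs_sub_comm]
        _ ≤ _ := by gcongr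
    have h2 : |Real.cos (π * z.re) * Real.sin (π * z.re)| ≤ 1/2 := by
      have := Real.sin_sq_add_cos_sq (π * z.re)
      rw [abs_le]; constructor
      · nlinarith [sq_nonneg (Real.cos (π * z.re) + Real.sin (π * z.re))]
      · nlinarith [sq_nonneg (Real.cos (π * z.re) - Real.sin (π * z.re))]
    have h3 : |Real.cos (π * z.re) * Real.sin (π * z.im)| ≤ 1/2 + π * (1/10) := by
      have e : Real.cos (π * z.re) * Real.sin (π * z.im) = Real.cos (π * z.re) * Real.sin (π * z.re) +
        Real.cos (π * z.re) * (Real.sin (π * z.im) - Real.sin (π * z.re)) := by ring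
      rw [e]
      refine (abs_add_le _ _).trans ?_
      rw [abs_mul (Real.cos (π * z.re)) (Real.sin (π * z.im) - Real.sin (π * z.re))]
      have := mul_le_mul (Real.abs_cos_le_one (π * z.re)) h1 (abs_nonneg _) zero_le_one
      linarith
    rw [← mul_pow, ← sq_abs]
    have h0 := abs_nonneg (Real.cos (π * z.re) * Real.sin (π * z.im))
    have h4 : |Real.cos (π * z.re) * Real.sin (π * z.im)| ≤ 0.815 := by linarith
    nlinarith

lemma kap_leaf (L : LeafData m b a) (n : ℤ) {t : ℝ} (h : Rng m a n t) :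
    kap (ctr n (m n) + zc (b n) (gam b a n) t) ≤ 3/4 := by
  apply kap_ok
  rcases tri t with h1 | h1 | h1
  · have hp := pos_left L n h1 h.1
    have h3 := abs_le.1 hp.2.2
    rcases L.delta (n-1) with hd | hd <;> rw [sub_add_cancel] at hd <;> rw [hd] at h3
    · left; rw [abs_le]; constructor <;> linarith
    · right; rw [abs_le]; constructor <;> linarith
  · left; linarith [(pos_core L n h1).2]
  · have hp := pos_right L n h1 h.2
    have h3 := abs_le.1 hp.2.2
    rcases L.delta n with hd | hd <;> rw [hd] at h3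
    · left; rw [abs_le]; constructor <;> linarith
    · right; rw [abs_le]; constructor <;> linarith

end one

end Pool.Agent.H790
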