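import Mathlib
import Pool.Agent.H790.Leaf

set_option autoImplicit false
open Real Set MeasureTheory Filter Topology

namespace Pool.Agent.H790

/-- the point of the leaf at lens `n` with parameter `t` -/
noncomputable def pt (m : ℤ → ℤ) (b a : ℤ → ℝ) (n : ℤ) (t : ℝ) : ℂ := ctr n (m n) + zc (b n) (gam b a n) t

lemma pt_re (m : ℤ → ℤ) (b a : ℤ → ℝ) (n : ℤ) (t : ℝ) :
    (pt m b a n t).re = n + (zc (b n) (gam b a n) t).re := by simp [pt, ctr]
lemma pt_im (m : ℤ → ℤ) (b a : ℤ → ℝ) (n : ℤ) (t : ℝ) :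
    (pt m b a n t).im = m n + 1/2 + (zc (b n) (gam b a n) t).im := by simp [pt, ctr]

section two
variable {m m' : ℤ → ℤ} {b a b' a' : ℤ → ℝ}

lemma pos_bd (L : LeafData m b a) {n : ℤ} {t : ℝ} (h : Rng m a n t) :
    |(zc (b n) (gam b a n) t).re| ≤ 53/100 ∧
    (0 ≤ (zc (b n) (gam b a n) t).re → -(11/100) ≤ (zc (b n) (gam b a n) t).im ∧
      (zc (b n) (gam b a n) t).im ≤ (zc (b n) (gam b a n) t).re + 11/100) ∧
    ((zc (b n) (gam b a n) t).re ≤ 0 → (zc (b n) (gam b a n) t).re - 11/100 ≤ (zc (b n) (gam b a n) t).im ∧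
      (zc (b n) (gam b a n) t).im ≤ 11/100) := by
  rcases tri t with h1 | h1 | h1
  · have hp := pos_left L n h1 h.1
    have h3 := abs_le.1 hp.2.2
    have hd := L.delta (n-1)
    rw [sub_add_cancel] at hd
    refine ⟨abs_le.2 ⟨hp.2.1, by linarith [hp.1]⟩, fun h0 => ?_, fun h0 => ?_⟩
    · exfalso; linarith [hp.1]
    · rcases hd with hd | hd <;> rw [hd] at h3 <;> constructor <;> linarith [hp.1, hp.2.1]
  · have hp := pos_core L n h1
    have h2 := abs_le.1 hp.1
    have h3 := abs_le.1 hp.2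
    refine ⟨hp.1.trans (by norm_num), fun h0 => ?_, fun h0 => ?_⟩ <;> constructor <;> linarith
  · have hp := pos_right L n h1 h.2
    have h3 := abs_le.1 hp.2.2
    refine ⟨abs_le.2 ⟨by linarith [hp.1], hp.2.1⟩, fun h0 => ?_, fun h0 => ?_⟩
    · rcases L.delta n with hd | hd <;> rw [hd] at h3 <;> constructor <;> linarith [hp.1, hp.2.1]
    · exfalso; linarith [hp.1]

lemma meet_next (L : LeafData m b a) (L' : LeafData m' b' a') {n : ℤ} {t t' : ℝ}
    (hR : Rng m a n t) (hR' : Rng m' a' (n+1) t') (heq : pt m b a n t = pt m' b' a' (n+1) t') :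
    m (n+1) = m' (n+1) ∧
      zc (b (n+1)) (gam b a (n+1)) (t - ell m a n) = zc (b' (n+1)) (gam b' a' (n+1)) t' := by
  have hre := congrArg Complex.re heq
  have him := congrArg Complex.im heq
  rw [pt_re, pt_re] at hre
  rw [pt_im, pt_im] at him
  push_cast at hre
  have b1 := abs_le.1 (pos_bd L hR).1
  have b2 := abs_le.1 (pos_bd L' hR').1
  have ht : 1/10 ≤ t := by
    rcases tri t with h1 | h1 | h1
    · have := (pos_left L n h1 hR.1).1; linarith
    · have := abs_le.1 (pos_core L n h1).1; linarith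
    · exact h1
  have ht' : t' ≤ -(1/10) := by
    rcases tri t' with h1 | h1 | h1
    · exact h1
    · have := abs_le.1 (pos_core L' (n+1) h1).1; linarith
    · have := (pos_right L' (n+1) h1 hR'.2).1; linarith
  have c1 := abs_le.1 (pos_right L n ht hR.2).2.2
  have c2 := abs_le.1 (pos_left L' (n+1) ht' hR'.1).2.2
  rw [add_sub_cancel_right] at c2
  have hm : m n = m' n ∧ m (n+1) = m' (n+1) := by
    have key : ∀ x : ℤ, -(1:ℝ) < x → (x:ℝ) < 1 → x = 0 := by
      intro x h1 h2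
      have h3 : -1 < x := by exact_mod_cast h1
      have h4 : x < 1 := by exact_mod_cast h2
      omega
    rcases L.delta n with e1 | e1 <;> rcases L'.delta n with e2 | e2 <;> rw [e1] at c1 <;> rw [e2] at c2
    · have := key (m n - m' n) (by push_cast; linarith) (by push_cast; linarith)
      have h1 : (m (n+1) : ℝ) = m n := by linarith
      have h2 : (m' (n+1) : ℝ) = m' n := by linarith
      have h1' : m (n+1) = m n := by exact_mod_cast h1
      have h2' : m' (n+1) = m' n := by exact_mod_cast h2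
      omega
    · exfalso
      have := key (m n - m' n) (by push_cast; linarith) (by push_cast; linarith)
      have : (m n : ℝ) = m' n := by exact_mod_cast (by omega : m n = m' n)
      linarith
    · exfalso
      have := key (m n - m' n) (by push_cast; linarith) (by push_cast; linarith)
      have : (m n : ℝ) = m' n := by exact_mod_cast (by omega : m n = m' n)
      linarith
    · have := key (m n - m' n) (by push_cast; linarith) (by push_cast; linarith)
      have h1 : (m (n+1) : ℝ) = (m n + 1 : ℤ) := by push_cast; linarith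
      have h2 : (m' (n+1) : ℝ) = (m' n + 1 : ℤ) := by push_cast; linarith
      have h1' : m (n+1) = m n + 1 := by exact_mod_cast h1
      have h2' : m' (n+1) = m' n + 1 := by exact_mod_cast h2
      omega
  refine ⟨hm.2, ?_⟩
  have hl := ell_bounds L n
  have hmatch := lens_match L n ht (by linarith [hR.2, hl.1])
  have h1 : pt m b a n t = ctr (n+1) (m (n+1)) + zc (b (n+1)) (gam b a (n+1)) (t - ell m a n) := hmatch
  rw [heq] at h1
  unfold pt at h1
  rw [hm.2] at h1
  exact (add_left_cancel h1).symm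

theorem meet (L : LeafData m b a) (L' : LeafData m' b' a') {n n' : ℤ} {t t' : ℝ}
    (hR : Rng m a n t) (hR' : Rng m' a' n' t') (heq : pt m b a n t = pt m' b' a' n' t') :
    ∃ N s s', m N = m' N ∧ zc (b N) (gam b a N) s = zc (b' N) (gam b' a' N) s' ∧ (b N)^2 + s^2 ≤ 9/16 ∧
      ((N = n ∧ s = t) ∨ (N = n + 1 ∧ s = t - ell m a n)) ∧
      ((N = n' ∧ s' = t') ∨ (N = n' + 1 ∧ s' = t' - ell m' a' n')) := by
  have hre := congrArg Complex.re heq
  have him := congrArg Complex.im heq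
  rw [pt_re, pt_re] at hre
  rw [pt_im, pt_im] at him
  have p1 := pos_bd L hR
  have p2 := pos_bd L' hR'
  have b1 := abs_le.1 p1.1
  have b2 := abs_le.1 p2.1
  have q1 := hR.sq L
  have q2 := hR'.sq L'
  have r1 := L.bsq n
  have r2 := L'.bsq n'
  have hn : n' = n ∨ n' = n + 1 ∨ n = n' + 1 := by
    have h1 : ((n' - n : ℤ) : ℝ) < 2 := by push_cast; linarith
    have h2 : (-2 : ℝ) < ((n' - n : ℤ) : ℝ) := by push_cast; linarith
    have h1' : n' - n < 2 := by exact_mod_cast h1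
    have h2' : -2 < n' - n := by exact_mod_cast h2
    omega
  rcases hn with h | h | h
  · subst h
    have hx : (zc (b n') (gam b a n') t).re = (zc (b' n') (gam b' a' n') t').re := by linarith
    have hm : m n' = m' n' := by
      have h3 : ((m n' - m' n' : ℤ) : ℝ) < 1 ∧ (-1:ℝ) < ((m n' - m' n' : ℤ) : ℝ) := by
        push_cast
        rcases le_total 0 (zc (b n') (gam b a n') t).re with h0 | h0
        · have e1 := p1.2.1 h0
          have e2 := p2.2.1 (by rw [← hx]; exact h0)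
          constructor <;> linarith
        · have e1 := p1.2.2 h0
          have e2 := p2.2.2 (by rw [← hx]; exact h0)
          constructor <;> linarith
      have h4 : m n' - m' n' < 1 := by exact_mod_cast h3.1
      have h5 : -1 < m n' - m' n' := by exact_mod_cast h3.2
      omega
    refine ⟨n', t, t', hm, ?_, by linarith, Or.inl ⟨rfl, rfl⟩, Or.inl ⟨rfl, rfl⟩⟩
    unfold pt at heq
    rw [hm] at heq
    exact add_left_cancel heq
  · subst h
    obtain ⟨h1, h2⟩ := meet_next L L' hR hR' heq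
    refine ⟨n+1, t - ell m a n, t', h1, h2, ?_, Or.inr ⟨rfl, rfl⟩, Or.inl ⟨rfl, rfl⟩⟩
    rw [zc_norm_eq h2]; linarith
  · subst h
    obtain ⟨h1, h2⟩ := meet_next L' L hR' hR heq.symm
    refine ⟨n'+1, t, t' - ell m' a' n', h1.symm, h2.symm, by linarith, Or.inl ⟨rfl, rfl⟩, Or.inr ⟨rfl, rfl⟩⟩

theorem no_meet (L : LeafData m b a) (L' : LeafData m' b' a') (hle : ∀ n, m n ≤ m' n)
    (hl : ∀ n, ∃ i ≤ n, m i < m' i) (hr : ∀ n, ∃ j, n ≤ j ∧ m j < m' j) {n n' : ℤ} {t t' : ℝ}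
    (hR : Rng m a n t) (hR' : Rng m' a' n' t') : pt m b a n t ≠ pt m' b' a' n' t' := by
  intro heq
  obtain ⟨N, s, s', h1, h2, h3, _, _⟩ := meet L L' hR hR' heq
  exact no_cross_leaf L L' hle hl hr N h1 h3 h2

end two

/-! ### symmetric images of a leaf -/
section sym
variable {m : ℤ → ℤ} {b a : ℤ → ℝ}

lemma LeafData.translate (L : LeafData m b a) (j k : ℤ) :
    LeafData (fun i => m (i - 2*j) + 2*k) (fun i => b (i - 2*j)) (fun i => a (i - 2*j)) := by
  have e : ∀ i : ℤ, i + 1 - 2*j = (i - 2*j) + 1 := fun i => by ring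
  have e' : ∀ i : ℤ, i - 1 - 2*j = (i - 2*j) - 1 := fun i => by ring
  refine ⟨?_, ?_, ?_, ?_, ?_⟩
  · intro n
    simp only [e]
    rcases L.step (n - 2*j) with h | h
    · left; rw [h]
    · right; rw [h]; ring
  · intro n; exact L.bb _
  · intro n
    simp only [e]
    rw [L.tr (n - 2*j)]
    push_cast; ring
  · intro n
    simp only [e']
    exact L.kick _
  · intro n
    simp only [e]
    have := L.dir (n - 2*j)
    push_cast
    convert this using 3
    ring

lemma LeafData.reflect (L : LeafData m b a) (j k : ℤ) :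
    LeafData (fun i => -m (2*j - i) - 1 + 2*k) (fun i => -b (2*j - i)) (fun i => a (2*j - i - 1)) := by
  have e : ∀ i : ℤ, 2*j - (i + 1) = 2*j - i - 1 := fun i => by ring
  have e' : ∀ i : ℤ, 2*j - (i - 1) - 1 = 2*j - i := fun i => by ring
  have e2 : ∀ i : ℤ, 2*j - i = (2*j - i - 1) + 1 := fun i => by ring
  refine ⟨?_, ?_, ?_, ?_, ?_⟩
  · intro n
    simp only [e]
    have h := L.step (2*j - n - 1)
    rw [sub_add_cancel] at h
    rcases h with h | h
    · left; rw [h]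
    · right; rw [h]; ring
  · intro n; rw [abs_neg]; exact L.bb _
  · intro n
    simp only [e]
    have h := L.tr (2*j - n - 1)
    rw [sub_add_cancel] at h
    rw [h]
    push_cast; ring
  · intro n
    simp only [e']
    have h := L.kick (2*j - n)
    rw [Th_neg, ← h]; ring
  · intro n
    simp only [e]
    have h := L.dir (2*j - n - 1)
    rw [sub_add_cancel] at h
    push_cast
    convert h using 3
    ring

lemma pt_translate (j k n : ℤ) (t : ℝ) :
    pt (fun i => m (i - 2*j) + 2*k) (fun i => b (i - 2*j)) (fun i => a (i - 2*j)) (n + 2*j) t =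
      pt m b a n t + ⟨2*j, 2*k⟩ := by
  unfold pt gam ctr
  simp only [add_sub_cancel_right]
  apply Complex.ext
  · simp; ring
  · simp; ring

lemma pt_reflect (L : LeafData m b a) (j k n : ℤ) (t : ℝ) :
    pt (fun i => -m (2*j - i) - 1 + 2*k) (fun i => -b (2*j - i)) (fun i => a (2*j - i - 1)) (2*j - n) (-t) =
      -pt m b a n t + ⟨2*j, 2*k⟩ := by
  have hg : gam (fun i => -b (2*j - i)) (fun i => a (2*j - i - 1)) (2*j - n) = gam b a n := by
    unfold gam
    simp only [sub_sub_cancel]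
    rw [Th_neg]
    have := L.kick n
    linarith
  have hz : zc (-b n) (gam b a n) (-t) = -zc (b n) (gam b a n) t := by
    unfold zc
    rw [psi_neg_left, psi_neg_right]
    push_cast
    ring_nf
  unfold pt
  rw [hg]
  simp only [sub_sub_cancel]
  rw [hz]
  unfold ctr
  apply Complex.ext
  · simp; ring
  · simp; ring

lemma Rng_translate (j k n : ℤ) {t : ℝ} (h : Rng m a n t) :
    Rng (fun i => m (i - 2*j) + 2*k) (fun i => a (i - 2*j)) (n + 2*j) t := by
  have e : ∀ i : ℤ, ell (fun i => m (i - 2*j) + 2*k) (fun i => a (i - 2*j)) (i + 2*j) = ell m a i := by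
    intro i
    unfold ell
    have e1 : i + 2*j + 1 - 2*j = i + 1 := by ring
    simp only [add_sub_cancel_right, e1]
    push_cast; ring
  unfold Rng at h ⊢
  have e2 := e (n - 1)
  have e3 : n - 1 + 2*j = n + 2*j - 1 := by ring
  rw [e3] at e2
  rw [e2, e n]; exact h

lemma Rng_reflect (j k n : ℤ) {t : ℝ} (h : Rng m a n t) :
    Rng (fun i => -m (2*j - i) - 1 + 2*k) (fun i => a (2*j - i - 1)) (2*j - n) (-t) := by
  have e : ∀ i : ℤ, ell (fun i => -m (2*j - i) - 1 + 2*k) (fun i => a (2*j - i - 1)) (2*j - i) = ell m a (i - 1) := by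
    intro i
    unfold ell
    have e1 : 2*j - (2*j - i + 1) = i - 1 := by ring
    simp only [sub_sub_cancel, e1, sub_add_cancel]
    push_cast; ring
  unfold Rng at h ⊢
  have e2 := e (n + 1)
  have e3 : 2*j - (n + 1) = 2*j - n - 1 := by ring
  rw [e3, add_sub_cancel_right] at e2
  rw [e2, e n]
  constructor <;> linarith [h.1, h.2]

end sym

/-! ### Sturmian itineraries -/

noncomputable def stm (ω θ : ℝ) (i : ℤ) : ℤ := ⌊(i : ℝ) * ω + θ⌋

lemma stm_step {ω θ : ℝ} (h0 : 0 < ω) (h1 : ω < 1) (n : ℤ) :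
    stm ω θ (n+1) = stm ω θ n ∨ stm ω θ (n+1) = stm ω θ n + 1 := by
  unfold stm
  have e1 := Int.floor_le ((n:ℝ) * ω + θ)
  have e2 := Int.lt_floor_add_one ((n:ℝ) * ω + θ)
  have a1 : ⌊(n:ℝ) * ω + θ⌋ ≤ ⌊((n+1:ℤ):ℝ) * ω + θ⌋ := Int.floor_le_floor (by push_cast; linarith)
  have a2 : ⌊((n+1:ℤ):ℝ) * ω + θ⌋ < ⌊(n:ℝ) * ω + θ⌋ + 2 := by
    rw [Int.floor_lt]; push_cast; linarith
  omega

lemma small_step {ω : ℝ} (hω : Irrational ω) {ε : ℝ} (hε : 0 < ε) :
    ∃ (k : ℕ) (p : ℤ), 0 < k ∧ k * ω - p ≠ 0 ∧ |k * ω - p| < ε := by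
  obtain ⟨n, hn⟩ := exists_nat_one_div_lt hε
  obtain ⟨k, hk, _, hk3⟩ := Real.exists_nat_abs_mul_sub_round_le ω (Nat.succ_pos n)
  refine ⟨k, round (k * ω), hk, ?_, ?_⟩
  · intro h
    apply hω
    refine ⟨(round (k * ω) : ℚ) / k, ?_⟩
    have hk' : (k : ℝ) ≠ 0 := by exact_mod_cast hk.ne'
    push_cast
    field_simp
    linarith
  · refine lt_of_le_of_lt hk3 (lt_of_le_of_lt ?_ hn)
    push_cast
    apply one_div_le_one_div_of_le <;> linarith [Nat.cast_nonneg (α := ℝ) n]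

lemma dens {ω : ℝ} (hω : Irrational ω) {ε : ℝ} (hε : 0 < ε) (x : ℝ) (N : ℤ) :
    ∃ i, N ≤ i ∧ ∃ M : ℤ, (M:ℝ) - ε < i * ω + x ∧ i * ω + x < M := by
  obtain ⟨k, p, hk, hne, hlt⟩ := small_step hω hε
  set η := k * ω - p with hη
  set x0 := N * ω + x with hx0
  have key : ∀ j : ℕ, ((N + j * k : ℤ) : ℝ) * ω + x = x0 + j * η + ((j * p : ℤ) : ℝ) := by
    intro j; push_cast; rw [hη, hx0]; ring
  rcases lt_or_gt_of_ne hne with h | h
  · have hpos : 0 < -η := by linarith
    have hlt' : -η < ε := by rwa [abs_of_neg h] at hlt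
    set y := (x0 - ⌊x0⌋) / (-η) with hy
    have hy0 : 0 ≤ y := div_nonneg (by linarith [Int.floor_le x0]) hpos.le
    have hyη : y * (-η) = x0 - ⌊x0⌋ := by rw [hy]; field_simp
    have f1 := Nat.floor_le hy0
    have f2 := Nat.lt_floor_add_one y
    refine ⟨N + ((⌊y⌋₊ + 1 : ℕ) : ℤ) * k, le_add_of_nonneg_right (by positivity), ⌊x0⌋ + ((⌊y⌋₊ + 1 : ℕ) : ℤ) * p, ?_, ?_⟩
    · rw [key]; push_cast; nlinarith
    · rw [key]; push_cast; nlinarith
  · have hlt' : η < ε := by rwa [abs_of_pos h] at hlt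
    set y := ((⌊x0⌋ : ℝ) + 1 - x0) / η with hy
    have hy0 : 0 < y := div_pos (by linarith [Int.lt_floor_add_one x0]) h
    have hyη : y * η = ⌊x0⌋ + 1 - x0 := by rw [hy]; field_simp
    have f1 := Nat.le_ceil y
    have f2 := Nat.ceil_lt_add_one hy0.le
    have f3 : 1 ≤ ⌈y⌉₊ := Nat.one_le_ceil_iff.2 hy0
    obtain ⟨j, hj⟩ : ∃ j : ℕ, ⌈y⌉₊ = j + 1 := ⟨⌈y⌉₊ - 1, by omega⟩
    rw [hj] at f1 f2
    push_cast at f1 f2
    refine ⟨N + (j : ℤ) * k, le_add_of_nonneg_right (by positivity), ⌊x0⌋ + 1 + (j : ℤ) * p, ?_, ?_⟩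
    · rw [key]; push_cast; nlinarith
    · rw [key]; push_cast; nlinarith

lemma stm_hr {ω θ θ' : ℝ} (hω : Irrational ω) (h : θ < θ') (N : ℤ) :
    ∃ j, N ≤ j ∧ stm ω θ j < stm ω θ' j := by
  obtain ⟨i, hi, M, h1, h2⟩ := dens hω (show 0 < θ' - θ by linarith) θ N
  refine ⟨i, hi, ?_⟩
  unfold stm
  have a1 : ⌊(i:ℝ) * ω + θ⌋ < M := Int.floor_lt.2 h2
  have a2 : M ≤ ⌊(i:ℝ) * ω + θ'⌋ := Int.le_floor.2 (by linarith)
  omega

lemma stm_hl {ω θ θ' : ℝ} (hω : Irrational ω) (h : θ < θ') (N : ℤ) :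
    ∃ j ≤ N, stm ω θ j < stm ω θ' j := by
  obtain ⟨i, hi, M, h1, h2⟩ := dens hω.neg (show 0 < θ' - θ by linarith) θ (-N)
  refine ⟨-i, by omega, ?_⟩
  unfold stm
  have e : ((-i : ℤ) : ℝ) * ω = i * (-ω) := by push_cast; ring
  rw [e]
  have a1 : ⌊(i:ℝ) * (-ω) + θ⌋ < M := Int.floor_lt.2 h2
  have a2 : M ≤ ⌊(i:ℝ) * (-ω) + θ'⌋ := Int.le_floor.2 (by linarith)
  omega

lemma stm_mono {ω θ θ' : ℝ} (h : θ ≤ θ') (n : ℤ) : stm ω θ n ≤ stm ω θ' n :=
  Int.floor_le_floor (by linarith)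

lemma stm_translate (ω θ : ℝ) (j k : ℤ) :
    (fun i => stm ω θ (i - 2*j) + 2*k) = stm ω (θ - 2*j*ω + 2*k) := by
  ext i
  unfold stm
  rw [← Int.floor_add_intCast]
  congr 1
  push_cast; ring

lemma stm_reflect {ω θ : ℝ} (hθ : ∀ i j : ℤ, θ ≠ i + j * ω) (j k : ℤ) :
    (fun i => -stm ω θ (2*j - i) - 1 + 2*k) = stm ω (-θ - 2*j*ω + 2*k) := by
  ext i
  unfold stm
  set x := ((2*j - i : ℤ) : ℝ) * ω + θ with hx
  have h1 : (i:ℝ) * ω + (-θ - 2*j*ω + 2*k) = -x + ((2*k : ℤ) : ℝ) := by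
    rw [hx]; push_cast; ring
  rw [h1, Int.floor_add_intCast, Int.floor_neg]
  have h2 : ⌈x⌉ = ⌊x⌋ + 1 := by
    rw [Int.ceil_eq_floor_add_one_iff_notMem]
    rintro ⟨l, hl⟩
    apply hθ l (-(2*j - i))
    push_cast
    rw [hx] at hl
    push_cast at hl
    linarith
  rw [h2]; ring

end Pool.Agent.H790
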