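import Mathlib
import Pool.Agent.H790.Meet

set_option autoImplicit false
open Real Set MeasureTheory Filter Topology

namespace Pool.Agent.H790

lemma sin_zero_int {x : ℝ} (h : Real.sin (π * x) = 0) : ∃ N : ℤ, x = N := by
  obtain ⟨N, hN⟩ := Real.sin_eq_zero_iff.1 h
  refine ⟨N, ?_⟩
  have hpi := Real.pi_pos
  have : π * (x - N) = 0 := by linarith
  have := (mul_eq_zero.1 this).resolve_left hpi.ne'
  linarith

lemma cos_eq_int {x y : ℝ} (h : Real.cos (π * x) = Real.cos (π * y)) :
    ∃ k : ℤ, y = 2 * k + x ∨ y = 2 * k - x := by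
  obtain ⟨k, hk⟩ := Real.cos_eq_cos_iff.1 h
  have hpi := Real.pi_pos
  refine ⟨k, ?_⟩
  rcases hk with hk | hk
  · left
    have : π * (y - (2 * k + x)) = 0 := by linarith
    have := (mul_eq_zero.1 this).resolve_left hpi.ne'
    linarith
  · right
    have : π * (y - (2 * k - x)) = 0 := by linarith
    have := (mul_eq_zero.1 this).resolve_left hpi.ne'
    linarith

lemma sin_shift_pos (x : ℝ) (k : ℤ) : Real.sin (π * (2 * k + x)) = Real.sin (π * x) := by
  have : π * (2 * k + x) = π * x + k * (2 * π) := by ring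
  rw [this, Real.sin_add_int_mul_two_pi]

lemma sin_shift_neg (x : ℝ) (k : ℤ) : Real.sin (π * (2 * k - x)) = -Real.sin (π * x) := by
  have : π * (2 * k - x) = -(π * x) + k * (2 * π) := by ring
  rw [this, Real.sin_add_int_mul_two_pi, Real.sin_neg]

theorem Ph_inj {P P' : ℂ} (h : Ph P = Ph P') :
    ∃ j k : ℤ, P' = P + ⟨2*j, 2*k⟩ ∨ P' = -P + ⟨2*j, 2*k⟩ := by
  have hA := congrArg cA h
  have hB := congrArg cB h
  have hC := congrArg cC h
  unfold Ph at hA hB hC
  rw [cA_cone (inv_pos.2 (NN_norm_pos P)), cA_cone (inv_pos.2 (NN_norm_pos P'))] at hA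
  rw [cB_cone (inv_pos.2 (NN_norm_pos P)), cB_cone (inv_pos.2 (NN_norm_pos P'))] at hB
  rw [cC_cone (inv_pos.2 (NN_norm_pos P)), cC_cone (inv_pos.2 (NN_norm_pos P'))] at hC
  obtain ⟨k, hk⟩ := cos_eq_int hA
  obtain ⟨l, hl⟩ := cos_eq_int hB
  rcases hk with hk | hk <;> rcases hl with hl | hl
  · refine ⟨k, l, Or.inl ?_⟩
    apply Complex.ext
    · simp; linarith
    · simp; linarith
  · rw [hk, hl, sin_shift_pos, sin_shift_neg] at hC
    have h0 : Real.sin (π * P.re) * Real.sin (π * P.im) = 0 := by linarith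
    rcases mul_eq_zero.1 h0 with h1 | h1
    · obtain ⟨N, hN⟩ := sin_zero_int h1
      refine ⟨k + N, l, Or.inr ?_⟩
      apply Complex.ext
      · simp; linarith
      · simp; linarith
    · obtain ⟨N, hN⟩ := sin_zero_int h1
      refine ⟨k, l - N, Or.inl ?_⟩
      apply Complex.ext
      · simp; linarith
      · simp; linarith
  · rw [hk, hl, sin_shift_pos, sin_shift_neg] at hC
    have h0 : Real.sin (π * P.re) * Real.sin (π * P.im) = 0 := by linarith
    rcases mul_eq_zero.1 h0 with h1 | h1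
    · obtain ⟨N, hN⟩ := sin_zero_int h1
      refine ⟨k - N, l, Or.inl ?_⟩
      apply Complex.ext
      · simp; linarith
      · simp; linarith
    · obtain ⟨N, hN⟩ := sin_zero_int h1
      refine ⟨k, l + N, Or.inr ?_⟩
      apply Complex.ext
      · simp; linarith
      · simp; linarith
  · refine ⟨k, l, Or.inr ?_⟩
    apply Complex.ext
    · simp; linarith
    · simp; linarith

lemma Ph_shift (P : ℂ) (j k : ℤ) : Ph (P + ⟨2*j, 2*k⟩) = Ph P := by
  have h : NN (P + ⟨2*j, 2*k⟩) = NN P := by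
    have e1 : π * (P + ⟨2*j, 2*k⟩ : ℂ).re = π * P.re + j * (2 * π) := by simp; ring
    have e2 : π * (P + ⟨2*j, 2*k⟩ : ℂ).im = π * P.im + k * (2 * π) := by simp; ring
    unfold NN
    rw [e1, e2, Real.cos_add_int_mul_two_pi, Real.cos_add_int_mul_two_pi, Real.sin_add_int_mul_two_pi,
      Real.sin_add_int_mul_two_pi]
  unfold Ph
  rw [h]

section inj
variable {ω θ : ℝ} {b a : ℤ → ℝ}

/-- comparing two Sturmian leaves with different offsets -/
lemma stm_no_meet {θ' : ℝ} {m m' : ℤ → ℤ} {b' a' : ℤ → ℝ} (hω : Irrational ω) (hne : θ ≠ θ')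
    (hm : m = stm ω θ) (hm' : m' = stm ω θ')
    (L : LeafData m b a) (L' : LeafData m' b' a')
    {n n' : ℤ} {t t' : ℝ} (hR : Rng m a n t) (hR' : Rng m' a' n' t') :
    pt m b a n t ≠ pt m' b' a' n' t' := by
  subst hm
  subst hm'
  rcases lt_or_gt_of_ne hne with h | h
  · exact no_meet L L' (fun n => stm_mono h.le n) (fun n => by
      obtain ⟨j, hj, hlt⟩ := stm_hl hω h n
      exact ⟨j, hj, hlt⟩) (fun n => by
      obtain ⟨j, hj, hlt⟩ := stm_hr hω h n
      exact ⟨j, hj, hlt⟩) hR hR'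
  · exact (no_meet L' L (fun n => stm_mono h.le n) (fun n => by
      obtain ⟨j, hj, hlt⟩ := stm_hl hω h n
      exact ⟨j, hj, hlt⟩) (fun n => by
      obtain ⟨j, hj, hlt⟩ := stm_hr hω h n
      exact ⟨j, hj, hlt⟩) hR' hR).symm

theorem leaf_inj (hω : Irrational ω) (hθ : ∀ i j : ℤ, θ ≠ i + j * ω)
    (L : LeafData (stm ω θ) b a) {n n' : ℤ} {t t' : ℝ}
    (hR : Rng (stm ω θ) a n t) (hR' : Rng (stm ω θ) a n' t')
    (heq : Ph (pt (stm ω θ) b a n t) = Ph (pt (stm ω θ) b a n' t')) :
    (n = n' ∧ t = t') ∨ (n' = n + 1 ∧ t' = t - ell (stm ω θ) a n) ∨ (n = n' + 1 ∧ t = t' - ell (stm ω θ) a n') := by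
  obtain ⟨j, k, h | h⟩ := Ph_inj heq
  · by_cases hjk : j = 0 ∧ k = 0
    · obtain ⟨rfl, rfl⟩ := hjk
      have h' : pt (stm ω θ) b a n t = pt (stm ω θ) b a n' t' := by
        rw [h]
        apply Complex.ext <;> simp
      obtain ⟨N, s, s', _, h2, _, h4, h5⟩ := meet L L hR hR' h'
      have hs := zc_inj (L.bsq N) h2
      rcases h4 with ⟨e1, e2⟩ | ⟨e1, e2⟩ <;> rcases h5 with ⟨e3, e4⟩ | ⟨e3, e4⟩
      · left; constructor
        · omega
        · linarith
      · right; right; constructor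
        · omega
        · linarith
      · right; left; constructor
        · omega
        · linarith
      · left
        have hn : n = n' := by omega
        subst hn
        exact ⟨rfl, by linarith⟩
    · exfalso
      have hne : θ - 2*j*ω + 2*k ≠ θ := by
        intro h0
        have h1 : (j:ℝ) * ω = k := by linarith
        by_cases hj : j = 0
        · apply hjk
          refine ⟨hj, ?_⟩
          rw [hj] at h1
          have : (k:ℝ) = 0 := by rw [← h1]; simp
          exact_mod_cast this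
        · apply hω
          refine ⟨(k:ℚ) / j, ?_⟩
          have hj' : (j:ℝ) ≠ 0 := by exact_mod_cast hj
          push_cast
          field_simp
          linarith
      have hT := pt_translate (m := stm ω θ) (b := b) (a := a) j k n t
      rw [← h] at hT
      exact stm_no_meet hω hne (stm_translate ω θ j k) rfl (L.translate j k) L (Rng_translate j k n hR) hR' hT
  · exfalso
    have hne : -θ - 2*j*ω + 2*k ≠ θ := by
      intro h0
      apply hθ k (-j)
      push_cast
      linarith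
    have hT := pt_reflect L j k n t
    rw [← h] at hT
    exact stm_no_meet hω hne (stm_reflect hθ j k) rfl (L.reflect j k) L (Rng_reflect j k n hR) hR' hT

/-- injectivity, normalised form -/
theorem leaf_inj' (hω : Irrational ω) (hθ : ∀ i j : ℤ, θ ≠ i + j * ω)
    (L : LeafData (stm ω θ) b a) {n n' : ℤ} {t t' : ℝ}
    (hR : Rng (stm ω θ) a n t) (hR' : Rng (stm ω θ) a n' t')
    (heq : Ph (pt (stm ω θ) b a n t) = Ph (pt (stm ω θ) b a n' t')) :
    (n = n' ∧ t = t') ∨ (n' = n + 1 ∧ t = ell (stm ω θ) a n / 2 ∧ t' = -(ell (stm ω θ) a n / 2)) ∨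
      (n = n' + 1 ∧ t' = ell (stm ω θ) a n' / 2 ∧ t = -(ell (stm ω θ) a n' / 2)) := by
  rcases leaf_inj hω hθ L hR hR' heq with h | ⟨h1, h2⟩ | ⟨h1, h2⟩
  · left; exact h
  · right; left
    subst h1
    have e1 := hR.2
    have e2 := hR'.1
    rw [add_sub_cancel_right] at e2
    refine ⟨rfl, by linarith, by linarith⟩
  · right; right
    subst h1
    have e1 := hR'.2
    have e2 := hR.1
    rw [add_sub_cancel_right] at e2
    refine ⟨rfl, by linarith, by linarith⟩

end inj

end Pool.Agent.H790
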