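import Mathlib
import Pool.Agent.H790.Inj

set_option autoImplicit false
open Real Set MeasureTheory Filter Topology

namespace Pool.Agent.H790

lemma sl_int_cont (b : ℝ) : Continuous fun τ : ℝ => 1 - al (b^2 + τ^2) := by
  have := al_cont
  fun_prop

lemma sl_cont (b : ℝ) : Continuous (sl b) :=
  continuous_iff_continuousAt.2 fun t => (sl_hasDerivAt b t).continuousAt

lemma sl_far {b t1 t2 : ℝ} (h1 : 1/10 ≤ t1) (h2 : t1 ≤ t2) : sl b t2 - sl b t1 = t2 - t1 := by
  unfold sl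
  have hc := sl_int_cont b
  rw [intervalIntegral.integral_interval_sub_left (hc.intervalIntegrable _ _) (hc.intervalIntegrable _ _)]
  have : ∫ τ in t1..t2, (1 - al (b^2+τ^2)) = ∫ _τ in t1..t2, (1:ℝ) := by
    apply intervalIntegral.integral_congr
    intro τ hτ
    rw [uIcc_of_le h2] at hτ
    simp only
    rw [al_right (by nlinarith [hτ.1, sq_nonneg b])]; ring
  rw [this]; simp

lemma sl_farneg {b t1 t2 : ℝ} (h1 : t1 ≤ t2) (h2 : t2 ≤ -(1/10)) : sl b t2 - sl b t1 = t2 - t1 := by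
  unfold sl
  have hc := sl_int_cont b
  rw [intervalIntegral.integral_interval_sub_left (hc.intervalIntegrable _ _) (hc.intervalIntegrable _ _)]
  have : ∫ τ in t1..t2, (1 - al (b^2+τ^2)) = ∫ _τ in t1..t2, (1:ℝ) := by
    apply intervalIntegral.integral_congr
    intro τ hτ
    rw [uIcc_of_le h1] at hτ
    simp only
    rw [al_right (by nlinarith [hτ.2, sq_nonneg b])]; ring
  rw [this]; simp

lemma sl_strict {b t1 t2 : ℝ} (h : t1 < t2) : sl b t1 < sl b t2 := by
  have := sl_ge (b := b) h.le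
  nlinarith

lemma sl_mono {b t1 t2 : ℝ} (h : t1 ≤ t2) : sl b t1 ≤ sl b t2 := by
  have := sl_ge (b := b) h
  nlinarith

lemma sl_inj {b t1 t2 : ℝ} (h : sl b t1 = sl b t2) : t1 = t2 := by
  rcases lt_trichotomy t1 t2 with h' | h' | h'
  · have := sl_strict (b := b) h'; linarith
  · exact h'
  · have := sl_strict (b := b) h'; linarith

lemma sl_le_iff {b t1 t2 : ℝ} (h : sl b t1 ≤ sl b t2) : t1 ≤ t2 := by
  by_contra hc
  push Not at hc
  have := sl_strict (b := b) hc; linarith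

/-- solving `sl b t = y` near a given point -/
lemma sl_solve (b t0 d : ℝ) : ∃ t, sl b t = sl b t0 + d ∧ |t - t0| ≤ 10 * |d| := by
  have h1 := sl_ge (b := b) (t1 := t0) (t2 := t0 + 10 * |d|) (by linarith [abs_nonneg d])
  have h2 := sl_ge (b := b) (t1 := t0 - 10 * |d|) (t2 := t0) (by linarith [abs_nonneg d])
  have h3 : sl b t0 + d ∈ Icc (sl b (t0 - 10 * |d|)) (sl b (t0 + 10 * |d|)) := by
    constructor
    · linarith [neg_abs_le d]
    · linarith [le_abs_self d]
  obtain ⟨t, ht, hte⟩ := intermediate_value_Icc (f := sl b) (by linarith [abs_nonneg d] : t0 - 10 * |d| ≤ t0 + 10 * |d|)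
    (sl_cont b).continuousOn h3
  refine ⟨t, hte, ?_⟩
  rw [abs_le]; constructor <;> linarith [ht.1, ht.2]

noncomputable def Bk (m : ℤ → ℤ) (b a : ℤ → ℝ) (n : ℕ) : ℝ :=
  ∑ k ∈ Finset.range n, (sl (b k) (ell m a k / 2) - sl (b k) (-(ell m a ((k:ℤ)-1) / 2)))

noncomputable def loc (m : ℤ → ℤ) (b a : ℤ → ℝ) (n : ℕ) (t : ℝ) : ℝ :=
  Bk m b a n + sl (b n) t - sl (b n) (-(ell m a ((n:ℤ)-1) / 2))

lemma Bk_zero (m : ℤ → ℤ) (b a : ℤ → ℝ) : Bk m b a 0 = 0 := by simp [Bk]

lemma Bk_succ (m : ℤ → ℤ) (b a : ℤ → ℝ) (n : ℕ) : Bk m b a (n+1) =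
    Bk m b a n + (sl (b n) (ell m a n / 2) - sl (b n) (-(ell m a ((n:ℤ)-1) / 2))) := by
  unfold Bk; rw [Finset.sum_range_succ]

lemma loc_right (m : ℤ → ℤ) (b a : ℤ → ℝ) (n : ℕ) : loc m b a n (ell m a n / 2) = Bk m b a (n+1) := by
  rw [Bk_succ]; unfold loc; ring

lemma loc_left (m : ℤ → ℤ) (b a : ℤ → ℝ) (n : ℕ) : loc m b a n (-(ell m a ((n:ℤ)-1) / 2)) = Bk m b a n := by
  unfold loc; ring

section ray
variable {m : ℤ → ℤ} {b a : ℤ → ℝ}

lemma Bk_step (L : LeafData m b a) (n : ℕ) : Bk m b a n + 9/100 ≤ Bk m b a (n+1) := by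
  rw [Bk_succ]
  have h1 := (ell_bounds L n).1
  have h2 := (ell_bounds L ((n:ℤ)-1)).1
  have h3 := sl_ge (b := b n) (t1 := -(ell m a ((n:ℤ)-1) / 2)) (t2 := ell m a n / 2) (by linarith)
  linarith

lemma Bk_strictMono (L : LeafData m b a) : StrictMono (Bk m b a) :=
  strictMono_nat_of_lt_succ fun n => by linarith [Bk_step L n]

lemma Bk_ge (L : LeafData m b a) (n : ℕ) : (9/100) * n ≤ Bk m b a n := by
  induction n with
  | zero => rw [Bk_zero]; simp
  | succ n ih => push_cast; linarith [Bk_step L n]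

lemma loc_mem {n : ℕ} {t : ℝ} (h : Rng m a n t) :
    Bk m b a n ≤ loc m b a n t ∧ loc m b a n t ≤ Bk m b a (n+1) := by
  rw [← loc_left m b a n, ← loc_right m b a n]
  unfold loc
  have h1 := sl_mono (b := b n) h.1
  have h2 := sl_mono (b := b n) h.2
  constructor <;> linarith

lemma exists_pos (L : LeafData m b a) {s : ℝ} (hs : 0 ≤ s) : ∃ (n : ℕ) (t : ℝ), Rng m a n t ∧ s = loc m b a n t := by
  classical
  have hex : ∃ n : ℕ, s < Bk m b a (n+1) := by
    obtain ⟨k, hk⟩ := exists_nat_gt (s / (9/100))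
    refine ⟨k, ?_⟩
    have h1 := Bk_ge L (k+1)
    rw [div_lt_iff₀ (by norm_num)] at hk
    push_cast at h1
    linarith
  set n := Nat.find hex with hn
  have h1 : s < Bk m b a (n+1) := Nat.find_spec hex
  have h2 : Bk m b a n ≤ s := by
    rcases Nat.eq_zero_or_pos n with h0 | h0
    · rw [h0, Bk_zero]; exact hs
    · obtain ⟨k, hk⟩ : ∃ k, n = k + 1 := ⟨n - 1, by omega⟩
      have := Nat.find_min hex (m := k) (by omega)
      rw [hk]
      exact not_lt.1 this
  have e1 := (ell_bounds L n).1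
  have e2 := (ell_bounds L ((n:ℤ)-1)).1
  have hmem : s ∈ Icc (loc m b a n (-(ell m a ((n:ℤ)-1) / 2))) (loc m b a n (ell m a n / 2)) := by
    rw [loc_left, loc_right]; exact ⟨h2, h1.le⟩
  have hc : Continuous (loc m b a n) := by
    unfold loc
    exact (continuous_const.add (sl_cont _)).sub continuous_const
  obtain ⟨t, ht, hte⟩ := intermediate_value_Icc (f := loc m b a n)
    (by linarith : -(ell m a ((n:ℤ)-1) / 2) ≤ ell m a n / 2) hc.continuousOn hmem
  exact ⟨n, t, ⟨ht.1, ht.2⟩, hte.symm⟩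

lemma pt_match (L : LeafData m b a) (n : ℤ) {t : ℝ} (h1 : 1/10 ≤ t) (h2 : t - ell m a n ≤ -(1/10)) :
    pt m b a n t = pt m b a (n+1) (t - ell m a n) := lens_match L n h1 h2

lemma pos_unique_lt (L : LeafData m b a) {n n' : ℕ} {t t' : ℝ} (hR : Rng m a n t) (hR' : Rng m a n' t')
    (heq : loc m b a n t = loc m b a n' t') (hlt : n < n') : pt m b a n t = pt m b a n' t' := by
  have h1 := (loc_mem (b := b) hR).2
  have h2 := (loc_mem (b := b) hR').1
  have h3 : n' = n + 1 := by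
    by_contra hne
    have : n + 1 < n' := by omega
    have := Bk_strictMono L this
    linarith
  subst h3
  have h4 : loc m b a n t = loc m b a n (ell m a n / 2) := by rw [loc_right]; linarith
  have h5 : loc m b a (n+1) t' = loc m b a (n+1) (-(ell m a (((n+1:ℕ):ℤ)-1) / 2)) := by rw [loc_left]; linarith
  have h6 : t = ell m a n / 2 := by
    apply sl_inj (b := b n)
    unfold loc at h4; linarith
  have h7 : t' = -(ell m a (((n+1:ℕ):ℤ)-1) / 2) := by
    apply sl_inj (b := b (n+1 : ℕ))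
    unfold loc at h5; linarith
  have h8 : (((n+1:ℕ):ℤ)-1) = (n:ℤ) := by push_cast; ring
  rw [h8] at h7
  have h9 := (ell_bounds L n).1
  have h10 := pt_match L n (t := ell m a n / 2) (by linarith) (by linarith)
  rw [h6, h7, h10]
  have : ((n+1:ℕ):ℤ) = (n:ℤ) + 1 := by push_cast; ring
  rw [this]
  congr 1; ring

lemma pos_unique (L : LeafData m b a) {n n' : ℕ} {t t' : ℝ} (hR : Rng m a n t) (hR' : Rng m a n' t')
    (heq : loc m b a n t = loc m b a n' t') : pt m b a n t = pt m b a n' t' := by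
  rcases lt_trichotomy n n' with h | h | h
  · exact pos_unique_lt L hR hR' heq h
  · subst h
    have : t = t' := by
      apply sl_inj (b := b n)
      unfold loc at heq; linarith
    rw [this]
  · exact (pos_unique_lt L hR' hR heq.symm h).symm

end ray

open Classical in
/-- the geodesic ray, parametrised by arc length -/
noncomputable def cc (m : ℤ → ℤ) (b a : ℤ → ℝ) (s : ℝ) : E3 :=
  if h : ∃ p : ℕ × ℝ, Rng m a p.1 p.2 ∧ s = loc m b a p.1 p.2 then Ph (pt m b a h.choose.1 h.choose.2) else Ph 0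

section ray2
variable {m : ℤ → ℤ} {b a : ℤ → ℝ}

lemma cc_eq (L : LeafData m b a) {n : ℕ} {t : ℝ} (hR : Rng m a n t) :
    cc m b a (loc m b a n t) = Ph (pt m b a n t) := by
  have h : ∃ p : ℕ × ℝ, Rng m a p.1 p.2 ∧ loc m b a n t = loc m b a p.1 p.2 := ⟨(n, t), hR, rfl⟩
  unfold cc
  rw [dif_pos h]
  have hs := h.choose_spec
  congr 1
  exact pos_unique L hs.1 hR hs.2.symm

lemma norm_cc (s : ℝ) : ‖cc m b a s‖ = 1 := by
  unfold cc
  split_ifs
  · exact norm_Ph _
  · exact norm_Ph _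

lemma loc_match (L : LeafData m b a) (n : ℕ) {t : ℝ} (h1 : 1/10 ≤ t) (h2 : t - ell m a n ≤ -(1/10)) :
    loc m b a n t = loc m b a (n+1) (t - ell m a n) := by
  have e : (((n+1:ℕ):ℤ)-1) = (n:ℤ) := by push_cast; ring
  unfold loc
  rw [Bk_succ, e]
  have hl := (ell_bounds L n).1
  have k1 : sl (b n) t - sl (b n) (ell m a n / 2) = t - ell m a n / 2 := by
    rcases le_total t (ell m a n / 2) with h | h
    · have := sl_far (b := b n) h1 h; linarith
    · exact sl_far (by linarith) h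
  have k2 : sl (b (n+1 : ℕ)) (t - ell m a n) - sl (b (n+1 : ℕ)) (-(ell m a n / 2)) = (t - ell m a n) - (-(ell m a n / 2)) := by
    rcases le_total (t - ell m a n) (-(ell m a n / 2)) with h | h
    · have := sl_farneg (b := b (n+1 : ℕ)) h (by linarith); linarith
    · exact sl_farneg h h2
  linarith

lemma cc_ext (L : LeafData m b a) {n : ℕ} {t : ℝ} (ht : |t| ≤ 3/4) (h0 : 0 ≤ loc m b a n t) :
    cc m b a (loc m b a n t) = Ph (pt m b a n t) := by
  have ht' := abs_le.1 ht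
  have e1 := (ell_bounds L n).1
  have e2 := (ell_bounds L ((n:ℤ)-1)).1
  rcases le_or_gt t (ell m a n / 2) with h1 | h1
  · rcases le_or_gt (-(ell m a ((n:ℤ)-1) / 2)) t with h2 | h2
    · exact cc_eq L ⟨h2, h1⟩
    · rcases Nat.eq_zero_or_pos n with h3 | h3
      · exfalso
        subst h3
        have h4 := sl_strict (b := b (0:ℕ)) h2
        unfold loc at h0
        rw [Bk_zero] at h0
        linarith
      · obtain ⟨k, rfl⟩ : ∃ k, n = k + 1 := ⟨n - 1, by omega⟩
        have e : (((k+1:ℕ):ℤ)-1) = (k:ℤ) := by push_cast; ring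
        rw [e] at h2 e2
        have e3 := (ell_bounds L ((k:ℤ)-1)).1
        have k1 := loc_match L k (t := t + ell m a k) (by linarith) (by linarith)
        have k2 := pt_match L k (t := t + ell m a k) (by linarith) (by linarith)
        rw [add_sub_cancel_right] at k1 k2
        have e4 : ((k+1:ℕ):ℤ) = (k:ℤ) + 1 := by push_cast; ring
        rw [← k1, e4, ← k2]
        exact cc_eq L ⟨by linarith, by linarith⟩
  · have k1 := loc_match L n (t := t) (by linarith) (by linarith)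
    have k2 := pt_match L n (t := t) (by linarith) (by linarith)
    rw [k1, k2]
    have e4 : ((n+1:ℕ):ℤ) = (n:ℤ) + 1 := by push_cast; ring
    have e5 := (ell_bounds L ((n:ℤ)+1)).1
    have := cc_eq L (n := n+1) (t := t - ell m a n) ⟨by rw [e4, add_sub_cancel_right]; linarith, by rw [e4]; linarith⟩
    rw [e4] at this
    exact this

theorem cc_local (L : LeafData m b a) {s0 : ℝ} (h0 : 0 ≤ s0) :
    ∃ ε > (0:ℝ), ∀ s₁ ∈ Set.Ici (0:ℝ), ∀ s₂ ∈ Set.Ici (0:ℝ), s0 - ε < s₁ → s₁ ≤ s₂ → s₂ < s0 + ε →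
      (∀ σ : ℝ → E3, ContDiff ℝ 1 σ → (∀ u ∈ Icc (0:ℝ) 1, σ u ∈ Metric.sphere (0 : E3) 1) →
        σ 0 = cc m b a s₁ → σ 1 = cc m b a s₂ → s₂ - s₁ ≤ len σ) ∧
      (∃ σ : ℝ → E3, ContDiff ℝ 1 σ ∧ (∀ u ∈ Icc (0:ℝ) 1, σ u ∈ Metric.sphere (0 : E3) 1) ∧
        σ 0 = cc m b a s₁ ∧ σ 1 = cc m b a s₂ ∧ len σ = s₂ - s₁) := by
  obtain ⟨n, t0, hR, hs⟩ := exists_pos L h0
  have hsq := hR.sq L
  have hbs := L.bsq n
  obtain ⟨ε1, hε1, hloc⟩ := local_geo (b := b n) (γ := gam b a n) (t0 := t0) hbs n (m n) (by linarith) (kap_leaf L n hR)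
  have ht0 : |t0| ≤ 71/100 := by
    apply abs_le_of_sq_le_sq _ (by norm_num)
    linarith
  have ht0' := abs_le.1 ht0
  refine ⟨min ε1 (1/25) / 10, by positivity, ?_⟩
  intro s1 hs1 s2 hs2 h1 h12 h2
  obtain ⟨t1, ht1, hd1⟩ := sl_solve (b n) t0 (s1 - s0)
  obtain ⟨t2, ht2, hd2⟩ := sl_solve (b n) t0 (s2 - s0)
  have m1 : min ε1 (1/25) ≤ ε1 := min_le_left _ _
  have m2 : min ε1 (1/25) ≤ 1/25 := min_le_right _ _
  have a1 : |s1 - s0| < min ε1 (1/25) / 10 := by rw [abs_lt]; constructor <;> linarith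
  have a2 : |s2 - s0| < min ε1 (1/25) / 10 := by rw [abs_lt]; constructor <;> linarith
  have b1 : |t1 - t0| < min ε1 (1/25) := by linarith
  have b2 : |t2 - t0| < min ε1 (1/25) := by linarith
  have c1 := abs_lt.1 (b1.trans_le m2)
  have c2 := abs_lt.1 (b2.trans_le m2)
  have e1 : s1 = loc m b a n t1 := by
    unfold loc at hs ⊢; linarith
  have e2 : s2 = loc m b a n t2 := by
    unfold loc at hs ⊢; linarith
  have f1 : cc m b a s1 = Ph (ctr n (m n) + zc (b n) (gam b a n) t1) := by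
    rw [e1]
    exact cc_ext L (by rw [abs_le]; constructor <;> linarith) (by rw [← e1]; exact hs1)
  have f2 : cc m b a s2 = Ph (ctr n (m n) + zc (b n) (gam b a n) t2) := by
    rw [e2]
    exact cc_ext L (by rw [abs_le]; constructor <;> linarith) (by rw [← e2]; exact hs2)
  have h12' : t1 ≤ t2 := sl_le_iff (b := b n) (by linarith)
  obtain ⟨g1, g2⟩ := hloc t1 t2 (b1.trans_le m1) (b2.trans_le m1) h12'
  have hdiff : sl (b n) t2 - sl (b n) t1 = s2 - s1 := by linarith
  rw [hdiff] at g1 g2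
  rw [f1, f2]
  exact ⟨g1, g2⟩

end ray2

theorem cc_injOn {ω θ : ℝ} {b a : ℤ → ℝ} (hω : Irrational ω) (hθ : ∀ i j : ℤ, θ ≠ i + j * ω)
    (L : LeafData (stm ω θ) b a) : Set.InjOn (cc (stm ω θ) b a) (Set.Ici 0) := by
  intro s hs s' hs' heq
  obtain ⟨n, t, hR, h1⟩ := exists_pos L hs
  obtain ⟨n', t', hR', h2⟩ := exists_pos L hs'
  rw [h1, h2, cc_eq L hR, cc_eq L hR'] at heq
  rcases leaf_inj' hω hθ L hR hR' heq with ⟨e1, e2⟩ | ⟨e1, e2, e3⟩ | ⟨e1, e2, e3⟩
  · have : n = n' := by exact_mod_cast e1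
    subst this
    rw [h1, h2, e2]
  · have e4 : n' = n + 1 := by exact_mod_cast e1
    subst e4
    rw [h1, h2, e2, e3, loc_right]
    have := loc_left (stm ω θ) b a (n+1)
    have e : (((n+1:ℕ):ℤ)-1) = (n:ℤ) := by push_cast; ring
    rw [e] at this
    exact this.symm
  · have e4 : n = n' + 1 := by exact_mod_cast e1
    subst e4
    rw [h1, h2, e2, e3, loc_right]
    have := loc_left (stm ω θ) b a (n'+1)
    have e : (((n'+1:ℕ):ℤ)-1) = (n':ℤ) := by push_cast; ring
    rw [e] at this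
    exact this

end Pool.Agent.H790
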