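import Mathlib
import Pool.Agent.H790.Ray

set_option autoImplicit false
open Real Set MeasureTheory Filter Topology

namespace Pool.Agent.H790

lemma finite_pos (f : ℤ → ℝ) (hf : ∀ k, 0 < f k) (s : Finset ℤ) : ∃ η > 0, ∀ k ∈ s, η ≤ f k := by
  induction s using Finset.induction_on with
  | empty => exact ⟨1, one_pos, by simp⟩
  | insert k s _ ih =>
    obtain ⟨η, hη, h⟩ := ih
    refine ⟨min η (f k), lt_min hη (hf k), ?_⟩
    intro l hl
    rcases Finset.mem_insert.1 hl with h1 | h1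
    · rw [h1]; exact min_le_right _ _
    · exact (min_le_left _ _).trans (h l h1)

lemma stm_recur {ω θ : ℝ} (hω : Irrational ω) (hθ : ∀ i j : ℤ, θ ≠ i + j * ω) (n : ℤ) (K : ℕ) (N : ℤ) :
    ∃ i, N ≤ i ∧ ∃ M : ℤ, ∀ k : ℤ, |k - n| ≤ K + 1 → stm ω θ (k + 2*i) = stm ω θ k + 2*M := by
  obtain ⟨η, hη, hmin⟩ := finite_pos (fun k => Int.fract ((k:ℝ) * ω + θ)) (fun k => by
    rw [Int.fract_pos]
    intro h
    apply hθ ⌊(k:ℝ) * ω + θ⌋ (-k)
    push_cast
    linarith) (Finset.Icc (n - (K+1)) (n + (K+1)))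
  obtain ⟨i, hi, M, h1, h2⟩ := dens hω (show 0 < η/2 by linarith) 0 N
  refine ⟨i, hi, M, ?_⟩
  intro k hk
  have hk' := abs_le.1 hk
  have hmem : k ∈ Finset.Icc (n - (K+1)) (n + (K+1)) := Finset.mem_Icc.2 ⟨by linarith [hk'.1], by linarith [hk'.2]⟩
  have hfr := hmin k hmem
  have hfr2 : Int.fract ((k:ℝ) * ω + θ) = ((k:ℝ) * ω + θ) - ⌊(k:ℝ) * ω + θ⌋ := rfl
  have hlt := Int.lt_floor_add_one ((k:ℝ) * ω + θ)
  rw [hfr2] at hfr
  unfold stm
  rw [Int.floor_eq_iff]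
  push_cast
  constructor
  · linarith
  · linarith

section recur
variable {b a : ℤ → ℝ}

lemma pt_cont (n m : ℤ) (t : ℝ) : Continuous fun p : ℝ × ℝ => Ph (ctr n m + zc p.1 (p.2 - Th p.1 / 2) t) := by
  have h1 : Continuous fun p : ℝ × ℝ => psi p.1 t := (psi_cont_left t).comp continuous_fst
  have h2 : Continuous fun p : ℝ × ℝ => Th p.1 := Th_cont.comp continuous_fst
  have h3 : Continuous fun p : ℝ × ℝ => zc p.1 (p.2 - Th p.1 / 2) t := by
    unfold zc
    have h4 : Continuous fun p : ℝ × ℝ => p.2 - Th p.1 / 2 + psi p.1 t :=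
      (continuous_snd.sub (h2.div_const 2)).add h1
    have h5 : Continuous fun p : ℝ × ℝ => ((p.2 - Th p.1 / 2 + psi p.1 t : ℝ) : ℂ) := Complex.continuous_ofReal.comp h4
    have h6 : Continuous fun p : ℝ × ℝ => ((p.1 : ℝ) : ℂ) := Complex.continuous_ofReal.comp continuous_fst
    exact (Complex.continuous_exp.comp (h5.mul continuous_const)).mul (continuous_const.add (h6.mul continuous_const))
  exact Ph_contDiff.continuous.comp (continuous_const.add h3)

theorem recur {ω θ : ℝ} (hω : Irrational ω) (hθ : ∀ i j : ℤ, θ ≠ i + j * ω)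
    (L : LeafData (stm ω θ) b a) {s : ℝ} (hs : 0 ≤ s) (T : ℝ) {ε : ℝ} (hε : 0 < ε) :
    ∃ s', T ≤ s' ∧ dist (cc (stm ω θ) b a s') (cc (stm ω θ) b a s) < ε := by
  obtain ⟨n, t, hR, h1⟩ := exists_pos L hs
  have hsq := hR.sq L
  have ht : |t| ≤ 3/4 := by
    apply abs_le_of_sq_le_sq _ (by norm_num)
    linarith
  have ht' := abs_le.1 ht
  rw [h1, cc_eq L hR]
  -- continuity
  have hc := (pt_cont n (stm ω θ n) t).continuousAt (x := (b n, a n))
  obtain ⟨δ, hδ, hδ2⟩ := Metric.continuousAt_iff.1 hc ε hε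
  obtain ⟨K, hK⟩ := exists_pow_lt_of_lt_one (show 0 < δ by exact hδ) (show (1/2:ℝ) < 1 by norm_num)
  obtain ⟨N, hN⟩ := exists_nat_gt ((|T| + 3/4) / (9/100))
  obtain ⟨i, hi, M, hM⟩ := stm_recur hω hθ n (K+1) N
  have L' := L.translate (-i) (-M)
  have hinc : ∀ k : ℤ, |k - n| ≤ ((K+1 : ℕ) : ℤ) → stm ω θ (k+1) - stm ω θ k =
      (stm ω θ (k+1 - 2*(-i)) + 2*(-M)) - (stm ω θ (k - 2*(-i)) + 2*(-M)) := by
    intro k hk
    have hk' := abs_le.1 hk
    have e1 := hM k (by rw [abs_le]; constructor <;> linarith)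
    have e2 := hM (k+1) (by rw [abs_le]; constructor <;> linarith)
    have f1 : k - 2*(-i) = k + 2*i := by ring
    have f2 : k + 1 - 2*(-i) = k + 1 + 2*i := by ring
    rw [f1, f2, e1, e2]; ring
  have c1 := close L L' K n (fun k hk => hinc k (by
    have := abs_le.1 hk
    rw [abs_le]; push_cast; constructor <;> linarith))
  have c2 := close L L' K (n+1) (fun k hk => hinc k (by
    have := abs_le.1 hk
    rw [abs_le]; push_cast; constructor <;> linarith))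
  have c3 := drift_abs L L' (hinc n (by simp; positivity))
  simp only [one_div] at c1 c2 hK
  have hpow : (0:ℝ) ≤ (2⁻¹)^K := by positivity
  have d1 : |b (n - 2*(-i)) - b n| < δ := by
    rw [abs_sub_comm]; linarith
  have d2 : |a (n - 2*(-i)) - a n| < δ := by
    rw [abs_sub_comm]; linarith
  have d3 : dist ((b (n - 2*(-i)), a (n - 2*(-i))) : ℝ × ℝ) (b n, a n) < δ := by
    rw [Prod.dist_eq]
    exact max_lt (by rw [Real.dist_eq]; exact d1) (by rw [Real.dist_eq]; exact d2)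
  have d4 := hδ2 d3
  simp only at d4
  -- the translated point
  have hi0 : 0 ≤ i := le_trans (by positivity) hi
  obtain ⟨i', rfl⟩ := Int.eq_ofNat_of_zero_le hi0
  have hiN : N ≤ i' := by exact_mod_cast hi
  have hp := pt_translate (m := stm ω θ) (b := b) (a := a) (-(i':ℤ)) (-M) (n + 2*i') t
  have hmn : stm ω θ (n - 2*(-(i':ℤ))) + 2*(-M) = stm ω θ n := by
    have := hM n (by simp; positivity)
    have f1 : (n:ℤ) - 2*(-(i':ℤ)) = n + 2*i' := by ring
    rw [f1, this]; ring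
  have hp2 : ctr n (stm ω θ n) + zc (b (n - 2*(-(i':ℤ)))) (a (n - 2*(-(i':ℤ))) - Th (b (n - 2*(-(i':ℤ)))) / 2) t =
      pt (fun x => stm ω θ (x - 2*(-(i':ℤ))) + 2*(-M)) (fun x => b (x - 2*(-(i':ℤ)))) (fun x => a (x - 2*(-(i':ℤ)))) n t := by
    unfold pt gam
    simp only
    rw [hmn]
  have hp3 : ((n:ℤ) + 2*(i':ℤ) + 2*(-(i':ℤ))) = n := by ring
  rw [hp3] at hp
  rw [hp2, hp] at d4
  rw [Ph_shift] at d4
  have hcast : ((n + 2*i' : ℕ) : ℤ) = (n:ℤ) + 2*(i':ℤ) := by push_cast; ring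
  have hloc : |T| ≤ loc (stm ω θ) b a (n + 2*i') t := by
    have h2 := Bk_ge L (n + 2*i')
    have h3 : -(3/4) ≤ sl (b ((n + 2*i' : ℕ):ℤ)) t - sl (b ((n + 2*i' : ℕ):ℤ)) (-(ell (stm ω θ) a (((n + 2*i' : ℕ):ℤ)-1) / 2)) := by
      have e1 := (ell_bounds L (((n + 2*i' : ℕ):ℤ)-1)).1
      rcases le_total t (-(ell (stm ω θ) a (((n + 2*i' : ℕ):ℤ)-1) / 2)) with h | h
      · have := sl_le (b := b ((n + 2*i' : ℕ):ℤ)) h
        linarith
      · have := sl_mono (b := b ((n + 2*i' : ℕ):ℤ)) h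
        linarith
    have h4 : ((N:ℝ)) ≤ ((n + 2*i' : ℕ) : ℝ) := by
      have : N ≤ n + 2*i' := by omega
      exact_mod_cast this
    rw [div_lt_iff₀ (by norm_num)] at hN
    unfold loc
    linarith
  refine ⟨loc (stm ω θ) b a (n + 2*i') t, (le_abs_self T).trans hloc, ?_⟩
  rw [cc_ext L ht ((abs_nonneg T).trans hloc), hcast]
  have hfin : Ph (ctr n (stm ω θ n) + zc (b n) (a n - Th (b n) / 2) t) = Ph (pt (stm ω θ) b a n t) := rfl
  rw [hfin] at d4
  exact d4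

end recur

end Pool.Agent.H790
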