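import Mathlib
import Pool.Agent.H790.Recur

set_option autoImplicit false
open Real Set MeasureTheory Filter Topology

namespace Pool.Agent.H790

lemma Ph_zero (P : ℂ) : (Ph P) 0 = (‖NN P‖)⁻¹ * Real.cos (π * P.re) := by
  unfold Ph
  simp only [PiLp.smul_apply, NN_0, smul_eq_mul]

lemma Ph_zero_sq (P : ℂ) : ((Ph P) 0)^2 * (1 + kap P) = (Real.cos (π * P.re))^2 := by
  rw [Ph_zero, mul_pow, inv_pow, ← NN_norm_sq]
  have := NN_norm_pos P
  field_simp

lemma cos_re_ctr (n m : ℤ) (z : ℂ) : (Real.cos (π * (ctr n m + z).re))^2 = (Real.cos (π * z.re))^2 := by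
  have : π * (ctr n m + z).re = π * z.re + n * π := by simp [ctr]; ring
  rw [this, Real.cos_add_int_mul_pi, mul_pow]
  have : ((-1:ℝ)^n)^2 = 1 := by
    rcases Int.even_or_odd n with h | h
    · rw [h.neg_one_zpow]; norm_num
    · rw [h.neg_one_zpow]; norm_num
  rw [this, one_mul]

lemma cos_im_ctr (n m : ℤ) (z : ℂ) : (Real.cos (π * (ctr n m + z).im))^2 = (Real.sin (π * z.im))^2 := by
  have : π * (ctr n m + z).im = (π * z.im + π/2) + m * π := by simp [ctr]; ring
  rw [this, Real.cos_add_int_mul_pi, mul_pow, Real.cos_add_pi_div_two]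
  have : ((-1:ℝ)^m)^2 = 1 := by
    rcases Int.even_or_odd m with h | h
    · rw [h.neg_one_zpow]; norm_num
    · rw [h.neg_one_zpow]; norm_num
  rw [this]; ring

lemma sin_sq_small {x : ℝ} (h : |x| ≤ 9/1000) : (Real.sin (π * x))^2 ≤ 1/1000 := by
  have h1 := Real.abs_sin_le_abs (x := π * x)
  have hpi := Real.pi_pos
  have hpi2 : π < 3.15 := Real.pi_lt_d2
  rw [abs_mul, abs_of_pos hpi] at h1
  have h2 : π * |x| ≤ 3.15 * (9/1000) := by
    have := abs_nonneg x
    gcongr
  have h3 : |Real.sin (π * x)| ≤ 3/100 := by linarith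
  have h4 := abs_nonneg (Real.sin (π * x))
  rw [← sq_abs]
  have h5 : |Real.sin (π * x)| ≤ 3.15 * (9/1000) := by linarith
  nlinarith

section arc
variable {m : ℤ → ℤ} {b a : ℤ → ℝ}

lemma arc_start (L : LeafData m b a) (n : ℤ) : 4/5 ≤ |(Ph (pt m b a n 0)) 0| := by
  have h := normSq_zc (b n) (gam b a n) 0
  rw [Complex.normSq_apply] at h
  have hb := abs_le.1 (L.bb n)
  have hb2 : b n^2 ≤ (9/1000)^2 := by nlinarith
  have h1 : |(zc (b n) (gam b a n) 0).re| ≤ 9/1000 := by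
    apply abs_le_of_sq_le_sq _ (by norm_num)
    nlinarith [sq_nonneg (zc (b n) (gam b a n) 0).im]
  have h2 : |(zc (b n) (gam b a n) 0).im| ≤ 9/1000 := by
    apply abs_le_of_sq_le_sq _ (by norm_num)
    nlinarith [sq_nonneg (zc (b n) (gam b a n) 0).re]
  have s1 := sin_sq_small h1
  have s2 := sin_sq_small h2
  have e0 := Ph_zero_sq (pt m b a n 0)
  have e1 : (Real.cos (π * (pt m b a n 0).re))^2 = (Real.cos (π * (zc (b n) (gam b a n) 0).re))^2 :=
    cos_re_ctr n (m n) _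
  have e2 : (Real.cos (π * (pt m b a n 0).im))^2 = (Real.sin (π * (zc (b n) (gam b a n) 0).im))^2 :=
    cos_im_ctr n (m n) _
  have e3 : kap (pt m b a n 0) = (Real.cos (π * (zc (b n) (gam b a n) 0).re))^2 * (Real.sin (π * (zc (b n) (gam b a n) 0).im))^2 := by
    unfold kap; rw [mul_pow, e1, e2]
  have e4 := Real.sin_sq_add_cos_sq (π * (zc (b n) (gam b a n) 0).re)
  have e5 : kap (pt m b a n 0) ≤ 1/1000 := by
    rw [e3]
    nlinarith [sq_nonneg (Real.sin (π * (zc (b n) (gam b a n) 0).im)), sq_nonneg (Real.sin (π * (zc (b n) (gam b a n) 0).re))]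
  have e6 := kap_nonneg (pt m b a n 0)
  rw [e1] at e0
  have e7 : (4/5:ℝ)^2 ≤ ((Ph (pt m b a n 0)) 0)^2 := by
    nlinarith [sq_nonneg ((Ph (pt m b a n 0)) 0)]
  have := abs_le_abs_of_sq_le_sq' e7
  exact this
  where
    abs_le_abs_of_sq_le_sq' {y : ℝ} (h : (4/5:ℝ)^2 ≤ y^2) : 4/5 ≤ |y| := by
      have := sq_le_sq.1 h
      rwa [abs_of_pos (by norm_num : (0:ℝ) < 4/5)] at this

lemma arc_end (L : LeafData m b a) (n : ℤ) : |(Ph (pt m b a n (2/5))) 0| ≤ 71/100 := by
  have hl := (ell_bounds L n).1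
  have hr := pos_right L n (t := 2/5) (by norm_num) (by linarith)
  have hlow : 1/4 ≤ (zc (b n) (gam b a n) (2/5)).re := by
    have e1 : (zc (b n) (gam b a n) (2/5)).re = (2/5) * Real.cos (a n) - b n * Real.sin (a n) := by
      rw [zc_right L n (by norm_num), Complex.mul_re, Complex.exp_ofReal_mul_I_re, Complex.exp_ofReal_mul_I_im]
      simp; ring
    rw [e1]
    have hc := L.cos_ge n
    have hb := L.bb n
    have : |b n * Real.sin (a n)| ≤ 9/1000 := by
      rw [abs_mul]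
      have h1 := Real.abs_sin_le_one (a n)
      have h2 := abs_nonneg (b n)
      have h3 := abs_nonneg (Real.sin (a n))
      nlinarith
    have := abs_le.1 this
    linarith
  have hhi := hr.2.1
  set x := (zc (b n) (gam b a n) (2/5)).re with hx
  have hpi := Real.pi_pos
  have hcos : (Real.cos (π * x))^2 ≤ 1/2 := by
    have h1 : |Real.cos (π * x)| ≤ Real.cos (π/4) := by
      rw [abs_le]
      constructor
      · rw [← Real.cos_pi_sub]
        apply Real.cos_le_cos_of_nonneg_of_le_pi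
        · nlinarith
        · nlinarith
        · nlinarith
      · apply Real.cos_le_cos_of_nonneg_of_le_pi
        · positivity
        · nlinarith
        · nlinarith
    rw [Real.cos_pi_div_four] at h1
    have g2 : (Real.cos (π * x))^2 ≤ (Real.sqrt 2/2)^2 := by
      rw [← sq_abs]; gcongr
    have g3 : (Real.sqrt 2/2)^2 = 1/2 := by rw [div_pow, Real.sq_sqrt (by norm_num)]; norm_num
    linarith
  have e0 := Ph_zero_sq (pt m b a n (2/5))
  have e1 : (Real.cos (π * (pt m b a n (2/5)).re))^2 = (Real.cos (π * x))^2 := cos_re_ctr n (m n) _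
  rw [e1] at e0
  have e6 := kap_nonneg (pt m b a n (2/5))
  apply abs_le_of_sq_le_sq _ (by norm_num)
  nlinarith [sq_nonneg ((Ph (pt m b a n (2/5))) 0)]

noncomputable def arc (m : ℤ → ℤ) (b a : ℤ → ℝ) (n : ℤ) : Set E3 := (fun t => Ph (pt m b a n t)) '' Icc 0 (2/5)

lemma arc_cont (m : ℤ → ℤ) (b a : ℤ → ℝ) (n : ℤ) : Continuous fun t => Ph (pt m b a n t) := by
  unfold pt
  exact Ph_contDiff.continuous.comp (continuous_const.add (zc_contDiff _ _).continuous)

lemma arc_meas (m : ℤ → ℤ) (b a : ℤ → ℝ) (n : ℤ) : MeasurableSet (arc m b a n) :=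
  ((isCompact_Icc).image (arc_cont m b a n)).measurableSet

lemma coord_lip : LipschitzWith 1 (fun X : E3 => |X 0|) := by
  apply LipschitzWith.of_dist_le_mul
  intro X Y
  rw [NNReal.coe_one, one_mul, Real.dist_eq]
  refine (abs_abs_sub_abs_le_abs_sub _ _).trans ?_
  rw [dist_eq_norm]
  have h1 := norm_sq_E3 (X - Y)
  have h2 : |X 0 - Y 0|^2 ≤ ‖X - Y‖^2 := by
    rw [h1, sq_abs]
    have e : (X - Y) 0 = X 0 - Y 0 := rfl
    rw [e]; nlinarith [sq_nonneg ((X - Y) 1), sq_nonneg ((X - Y) 2)]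
  exact le_of_sq_le_sq' (abs_nonneg _) (norm_nonneg _) h2
  where
    le_of_sq_le_sq' {x y : ℝ} (_hx : 0 ≤ x) (hy : 0 ≤ y) (h : x^2 ≤ y^2) : x ≤ y := by
      nlinarith [abs_le_abs_of_sq x y h]
    abs_le_abs_of_sq (x y : ℝ) (h : x^2 ≤ y^2) : |x| ≤ |y| := sq_le_sq.1 h

lemma arc_measure (L : LeafData m b a) (n : ℤ) : ENNReal.ofReal (9/100) ≤ μH[1] (arc m b a n) := by
  have h1 : Icc (71/100 : ℝ) (4/5) ⊆ (fun X : E3 => |X 0|) '' (arc m b a n) := by
    have hc : Continuous fun t => |(Ph (pt m b a n t)) 0| :=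
      ((coord_contDiff 0).continuous.comp (arc_cont m b a n)).abs
    have h2 := intermediate_value_Icc' (f := fun t => |(Ph (pt m b a n t)) 0|) (by norm_num : (0:ℝ) ≤ 2/5) hc.continuousOn
    intro y hy
    obtain ⟨t, ht, hty⟩ := h2 ⟨(arc_end L n).trans hy.1, hy.2.trans (arc_start L n)⟩
    exact ⟨Ph (pt m b a n t), ⟨t, ht, rfl⟩, hty⟩
  have h2 := (coord_lip.lipschitzOnWith (s := arc m b a n)).hausdorffMeasure_image_le (d := 1) zero_le_one
  rw [ENNReal.coe_one, ENNReal.one_rpow, one_mul] at h2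
  refine le_trans ?_ h2
  rw [MeasureTheory.hausdorffMeasure_real]
  refine le_trans ?_ (measure_mono h1)
  rw [Real.volume_Icc]
  apply ENNReal.ofReal_le_ofReal
  norm_num

end arc

end Pool.Agent.H790
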