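import Mathlib
import Pool.Agent.H790.Fin

set_option autoImplicit false
open Real Set MeasureTheory Filter Topology

namespace Pool.Agent.H790

/-- a locally distance realising closed curve is locally Lipschitz with a uniform constant -/
lemma curve_lip {γ : ℝ → E3}
    (hγ : ∀ t : ℝ, ∃ ε > (0:ℝ), ∀ s₁ s₂ : ℝ, t - ε < s₁ → s₁ ≤ s₂ → s₂ < t + ε →
      ∀ δ > (0:ℝ), ∃ σ : ℝ → E3, ContDiff ℝ 1 σ ∧
        (∀ u ∈ Icc (0:ℝ) 1, σ u ∈ Metric.sphere (0 : E3) 1) ∧ σ 0 = γ s₁ ∧ σ 1 = γ s₂ ∧ len σ < s₂ - s₁ + δ) :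
    ∃ K : NNReal, ∀ t : ℝ, ∃ ε > (0:ℝ), LipschitzOnWith K γ (Ioo (t - ε) (t + ε)) := by
  obtain ⟨μ, hμ, hlow⟩ := lower_bound
  refine ⟨Real.toNNReal (1/μ), ?_⟩
  intro t
  obtain ⟨ε, hε, h⟩ := hγ t
  refine ⟨ε, hε, ?_⟩
  have key : ∀ s₁ s₂ : ℝ, t - ε < s₁ → s₁ ≤ s₂ → s₂ < t + ε → dist (γ s₁) (γ s₂) ≤ (1/μ) * (s₂ - s₁) := by
    intro s1 s2 h1 h2 h3
    have h4 : μ * dist (γ s1) (γ s2) ≤ s2 - s1 := by
      apply le_of_forall_pos_le_add
      intro δ hδ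
      obtain ⟨σ, hσ, hsph, hs0, hs1, hlen⟩ := h s1 s2 h1 h2 h3 δ hδ
      have hsph' : ∀ u ∈ Icc (0:ℝ) 1, ‖σ u‖ = 1 := fun u hu => by
        have := hsph u hu; rwa [mem_sphere_zero_iff_norm] at this
      have := len_ge hμ hlow hσ hsph' (a := 1) ⟨zero_le_one, le_rfl⟩
      rw [hs0, hs1] at this
      rw [dist_comm, dist_eq_norm]
      linarith
    rw [one_div, ← div_eq_inv_mul, le_div_iff₀ hμ]
    linarith
  apply LipschitzOnWith.of_dist_le_mul
  intro x hx y hy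
  rw [Real.coe_toNNReal _ (by positivity)]
  rcases le_total x y with hxy | hxy
  · have := key x y hx.1 hxy hy.2
    rw [Real.dist_eq, abs_sub_comm, abs_of_nonneg (by linarith)]
    exact this
  · have := key y x hy.1 hxy hx.2
    rw [dist_comm, Real.dist_eq, abs_of_nonneg (by linarith)]
    exact this

lemma curve_cont {γ : ℝ → E3} {K : NNReal} (h : ∀ t : ℝ, ∃ ε > (0:ℝ), LipschitzOnWith K γ (Ioo (t - ε) (t + ε))) :
    Continuous γ := by
  rw [continuous_iff_continuousAt]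
  intro t
  obtain ⟨ε, hε, hl⟩ := h t
  exact hl.continuousOn.continuousAt (Ioo_mem_nhds (by linarith) (by linarith))

lemma curve_measure {γ : ℝ → E3} {K : NNReal} (h : ∀ t : ℝ, ∃ ε > (0:ℝ), LipschitzOnWith K γ (Ioo (t - ε) (t + ε)))
    (P : ℝ) : μH[1] (γ '' Icc 0 P) < ⊤ := by
  refine IsCompact.induction_on (s := Icc 0 P) isCompact_Icc (p := fun S => μH[1] (γ '' S) < ⊤) ?_ ?_ ?_ ?_
  · simp
  · intro s t hst ht
    exact (measure_mono (image_mono hst)).trans_lt ht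
  · intro s t hs ht
    rw [image_union]
    exact (measure_union_le _ _).trans_lt (ENNReal.add_lt_top.2 ⟨hs, ht⟩)
  · intro x _
    obtain ⟨ε, hε, hl⟩ := h x
    refine ⟨Ioo (x - ε) (x + ε), mem_nhdsWithin_of_mem_nhds (Ioo_mem_nhds (by linarith) (by linarith)), ?_⟩
    refine (hl.hausdorffMeasure_image_le (d := 1) zero_le_one).trans_lt ?_
    rw [MeasureTheory.hausdorffMeasure_real, Real.volume_Ioo, ENNReal.rpow_one]
    exact ENNReal.mul_lt_top ENNReal.coe_lt_top ENNReal.ofReal_lt_top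

theorem no_limit {ω θ : ℝ} {b a : ℤ → ℝ} (hω : Irrational ω) (hθ : ∀ i j : ℤ, θ ≠ i + j * ω)
    (L : LeafData (stm ω θ) b a) {γ : ℝ → E3} {P : ℝ} (hP : 0 < P) (hper : ∀ t : ℝ, γ (t + P) = γ t)
    (hγ : ∀ t : ℝ, ∃ ε > (0:ℝ), ∀ s₁ s₂ : ℝ, t - ε < s₁ → s₁ ≤ s₂ → s₂ < t + ε →
      ∀ δ > (0:ℝ), ∃ σ : ℝ → E3, ContDiff ℝ 1 σ ∧
        (∀ u ∈ Icc (0:ℝ) 1, σ u ∈ Metric.sphere (0 : E3) 1) ∧ σ 0 = γ s₁ ∧ σ 1 = γ s₂ ∧ len σ < s₂ - s₁ + δ)
    (hlim : Tendsto (fun t => Metric.infDist (cc (stm ω θ) b a t) (Set.range γ)) atTop (𝓝 0)) : False := by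
  obtain ⟨K, hK⟩ := curve_lip hγ
  have hcont := curve_cont hK
  have hrange : γ '' Icc 0 P = range γ := by
    have h1 : Function.Periodic γ P := hper
    have := h1.image_Icc hP 0
    rwa [zero_add] at this
  have hcomp : IsCompact (range γ) := by
    rw [← hrange]; exact isCompact_Icc.image hcont
  have hmeas : μH[1] (range γ) < ⊤ := by
    rw [← hrange]; exact curve_measure hK P
  have hne : (range γ).Nonempty := range_nonempty γ
  have hin : ∀ s, 0 ≤ s → cc (stm ω θ) b a s ∈ range γ := by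
    intro s hs
    rw [hcomp.isClosed.mem_iff_infDist_zero hne]
    apply le_antisymm _ Metric.infDist_nonneg
    apply le_of_forall_pos_le_add
    intro ε hε
    obtain ⟨T, hT⟩ := (Metric.tendsto_atTop.1 hlim) (ε/2) (by linarith)
    obtain ⟨s', hs', hd⟩ := recur hω hθ L hs T (show 0 < ε/2 by linarith)
    have h1 := hT s' hs'
    rw [Real.dist_eq, sub_zero, abs_of_nonneg Metric.infDist_nonneg] at h1
    have h2 := Metric.infDist_le_infDist_add_dist (s := range γ) (x := cc (stm ω θ) b a s) (y := cc (stm ω θ) b a s')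
    rw [dist_comm] at h2
    linarith
  have harc : ∀ n : ℕ, arc (stm ω θ) b a n ⊆ range γ := by
    intro n X hX
    obtain ⟨t, ht, rfl⟩ := hX
    have e1 := (ell_bounds L n).1
    have e2 := (ell_bounds L ((n:ℤ)-1)).1
    have hR : Rng (stm ω θ) a n t := ⟨by linarith [ht.1], by linarith [ht.2]⟩
    have h1 := cc_eq L hR
    show Ph (pt (stm ω θ) b a n t) ∈ range γ
    rw [← h1]
    apply hin
    have h2 := (loc_mem (b := b) hR).1
    have h3 := Bk_ge L n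
    have h4 : (0:ℝ) ≤ n := Nat.cast_nonneg n
    linarith
  have hdisj : Pairwise (Function.onFun Disjoint fun n : ℕ => arc (stm ω θ) b a n) := by
    intro i j hij
    show Disjoint (arc (stm ω θ) b a i) (arc (stm ω θ) b a j)
    rw [Set.disjoint_left]
    rintro X ⟨t, ht, rfl⟩ ⟨t', ht', heq⟩
    have e1 := (ell_bounds L i).1
    have e2 := (ell_bounds L ((i:ℤ)-1)).1
    have e3 := (ell_bounds L j).1
    have e4 := (ell_bounds L ((j:ℤ)-1)).1
    have hR : Rng (stm ω θ) a i t := ⟨by linarith [ht.1], by linarith [ht.2]⟩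
    have hR' : Rng (stm ω θ) a j t' := ⟨by linarith [ht'.1], by linarith [ht'.2]⟩
    rcases leaf_inj' hω hθ L hR hR' heq.symm with ⟨f1, f2⟩ | ⟨f1, f2, f3⟩ | ⟨f1, f2, f3⟩
    · exact hij (by exact_mod_cast f1)
    · linarith [ht'.1]
    · linarith [ht.1]
  have hsum : ∑' n : ℕ, μH[1] (arc (stm ω θ) b a n) ≤ μH[1] (range γ) := by
    rw [← measure_iUnion hdisj (fun n => arc_meas _ _ _ _)]
    exact measure_mono (iUnion_subset harc)
  have htop : ∑' _n : ℕ, ENNReal.ofReal (9/100) = ⊤ :=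
    ENNReal.tsum_const_eq_top_of_ne_zero (by
      rw [Ne, ENNReal.ofReal_eq_zero]; norm_num)
  have hle : ∑' _n : ℕ, ENNReal.ofReal (9/100) ≤ ∑' n : ℕ, μH[1] (arc (stm ω θ) b a n) :=
    ENNReal.tsum_le_tsum fun n => arc_measure L n
  rw [htop] at hle
  exact absurd (hle.trans hsum) (not_le.2 hmeas)

end Pool.Agent.H790
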